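import Mathlib

open MvPolynomial Ideal

namespace Pool.Agent.MP_dd1803_nt

section Drop

variable {k A : Type} [Field k] [CommRing A] [IsDomain A] [Algebra k A]

/-- The transcendence degree drops modulo a nonzero prime. -/
theorem trdeg_quot_add_one_le (Q : Ideal A) [Q.IsPrime] (hQ : Q ≠ ⊥) :
    Algebra.trdeg k (A ⧸ Q) + 1 ≤ Algebra.trdeg k A := by
  classical
  have : FaithfulSMul k (A ⧸ Q) :=
    (faithfulSMul_iff_algebraMap_injective k (A ⧸ Q)).mpr (algebraMap k (A ⧸ Q)).injective
  obtain ⟨s, hs⟩ := exists_isTranscendenceBasis k (A ⧸ Q)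
  let y : s → A := fun i => Function.surjInv (Ideal.Quotient.mk_surjective (I := Q)) i.1
  have hmk : ∀ i : s, Ideal.Quotient.mk Q (y i) = i.1 := fun i =>
    Function.surjInv_eq (Ideal.Quotient.mk_surjective (I := Q)) i.1
  have hcomp : (Ideal.Quotient.mkₐ k Q) ∘ y = ((↑) : s → A ⧸ Q) := by
    funext i
    exact hmk i
  have hy : AlgebraicIndependent k y := by
    apply AlgebraicIndependent.of_comp (Ideal.Quotient.mkₐ k Q)
    rw [hcomp]
    exact hs.1
  obtain ⟨q, hq, hq0⟩ := Submodule.exists_mem_ne_zero_of_ne_bot hQ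
  have htr : Transcendental (Algebra.adjoin k (Set.range y)) q := by
    intro halg
    obtain ⟨p, hp0, hp⟩ := halg.exists_nonzero_coeff_and_aeval_eq_zero
      (mem_nonZeroDivisors_of_ne_zero hq0)
    -- the constant coefficient lies in Q
    have hmem : (p.coeff 0 : A) ∈ Q := by
      have h1 : Polynomial.aeval q p = (p.coeff 0 : A) + q * Polynomial.aeval q (p.divX) := by
        conv_lhs => rw [← Polynomial.divX_mul_X_add p]
        rw [map_add, map_mul, Polynomial.aeval_X, Polynomial.aeval_C]
        rw [mul_comm q, add_comm]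
        rfl
      have h2 : (p.coeff 0 : A) = - (q * Polynomial.aeval q (p.divX)) := by
        rw [h1] at hp
        exact eq_neg_of_add_eq_zero_left hp
      rw [h2]
      exact Q.neg_mem (Q.mul_mem_right _ hq)
    -- and it is a polynomial in y
    have hc : (p.coeff 0 : A) ∈ (MvPolynomial.aeval y : MvPolynomial s k →ₐ[k] A).range := by
      rw [← Algebra.adjoin_range_eq_range_aeval]
      exact (p.coeff 0).2
    obtain ⟨g, hg⟩ := hc
    have hg' : MvPolynomial.aeval y g = (p.coeff 0 : A) := hg
    have hz : MvPolynomial.aeval ((↑) : s → A ⧸ Q) g = 0 := by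
      have h3 : (Ideal.Quotient.mkₐ k Q) (MvPolynomial.aeval y g) = 0 := by
        rw [hg']
        exact Ideal.Quotient.eq_zero_iff_mem.mpr hmem
      have h4 : (fun i => (Ideal.Quotient.mkₐ k Q) (y i)) = ((↑) : s → A ⧸ Q) := hcomp
      rw [← h4, ← h3, MvPolynomial.comp_aeval_apply]
    have hg0 : g = 0 := by
      have := hs.1
      rw [algebraicIndependent_iff] at this
      exact this g hz
    apply hp0
    apply Subtype.ext
    rw [← hg', hg0]
    simp
  have hopt := (hy.option_iff_transcendental q).mpr htr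
  have hcard := hopt.cardinalMk_le_trdeg
  rw [Cardinal.mk_option] at hcard
  rw [← hs.cardinalMk_eq_trdeg]
  exact hcard

end Drop

section Krull

/-- Modulo a prime of height at most one, a polynomial ring loses at most one in
transcendence degree. -/
theorem mvPoly_trdeg_quot {k : Type} [Field k] {s : ℕ}
    (p : Ideal (MvPolynomial (Fin s) k)) [p.IsPrime] (hp : p.height ≤ 1) :
    (s : Cardinal) ≤ Algebra.trdeg k (MvPolynomial (Fin s) k ⧸ p) + 1 := by
  classical
  by_cases h0 : p = ⊥
  · subst h0
    have h1 : AlgebraicIndependent k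
        (fun i : Fin s => Ideal.Quotient.mkₐ k (⊥ : Ideal (MvPolynomial (Fin s) k)) (X i)) := by
      have h2 := MvPolynomial.algebraicIndependent_X (Fin s) k
      have h3 : Function.Injective
          (Ideal.Quotient.mkₐ k (⊥ : Ideal (MvPolynomial (Fin s) k))) := by
        rw [injective_iff_map_eq_zero]
        intro a ha
        exact (Ideal.Quotient.eq_zero_iff_mem.mp ha)
      exact h2.map' h3
    have h4 := h1.cardinalMk_le_trdeg
    rw [Cardinal.mk_fin] at h4
    exact h4.trans (le_self_add)
  · obtain ⟨x, hxp, hx⟩ := Ideal.IsPrime.exists_mem_prime_of_ne_bot ‹p.IsPrime› h0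
    have h1 : p.height = 1 := by
      refine le_antisymm hp ?_
      rw [Order.one_le_iff_ne_zero]
      intro h
      exact h0 (Ideal.height_eq_zero_iff_eq_bot.mp h)
    have hpx := Ideal.eq_span_singleton_of_height_eq_one h1 hxp hx
    -- a variable occurring in x
    have hvar : ∃ i, x.degreeOf i ≠ 0 := by
      by_contra hcon
      push Not at hcon
      have hv : x.vars = ∅ := by
        ext i
        rw [mem_vars_iff_degreeOf_ne_zero]
        simp [hcon i]
      rw [vars_eq_empty_iff_eq_C] at hv
      apply hx.not_isUnit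
      rw [hv]
      apply IsUnit.map
      rw [isUnit_iff_ne_zero]
      intro h
      apply hx.ne_zero
      rw [hv, h, C_0]
    obtain ⟨i, hi⟩ := hvar
    have hind : AlgebraicIndependent k
        (fun j : {j : Fin s // j ≠ i} => Ideal.Quotient.mkₐ k p (X j.1)) := by
      rw [algebraicIndependent_iff]
      intro g hg
      have h2 : MvPolynomial.aeval (fun j : {j : Fin s // j ≠ i} => Ideal.Quotient.mkₐ k p (X j.1)) g
          = Ideal.Quotient.mkₐ k p (MvPolynomial.rename (fun j : {j : Fin s // j ≠ i} => j.1) g) := by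
        rw [MvPolynomial.rename_eq_aeval, MvPolynomial.comp_aeval_apply]
        rfl
      rw [h2] at hg
      have h3 : MvPolynomial.rename (fun j : {j : Fin s // j ≠ i} => j.1) g ∈ p :=
        Ideal.Quotient.eq_zero_iff_mem.mp hg
      rw [hpx, Ideal.mem_span_singleton] at h3
      obtain ⟨c, hc⟩ := h3
      by_contra hg0
      have hr0 : MvPolynomial.rename (fun j : {j : Fin s // j ≠ i} => j.1) g ≠ 0 := by
        intro h
        apply hg0
        apply MvPolynomial.rename_injective _ Subtype.val_injective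
        rw [map_zero]
        exact h
      have hc0 : c ≠ 0 := by
        rintro rfl
        rw [mul_zero] at hc
        exact hr0 hc
      have hd : (MvPolynomial.rename (fun j : {j : Fin s // j ≠ i} => j.1) g).degreeOf i = 0 := by
        by_contra hne
        rw [← ne_eq, ← mem_vars_iff_degreeOf_ne_zero] at hne
        have := MvPolynomial.vars_rename (fun j : {j : Fin s // j ≠ i} => j.1) g hne
        rw [Finset.mem_image] at this
        obtain ⟨j, _, hj⟩ := this
        exact j.2 hj
      rw [hc, degreeOf_mul_eq hx.ne_zero hc0] at hd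
      omega
    have hcard := hind.cardinalMk_le_trdeg
    have hs : (s : Cardinal) = Cardinal.mk {j : Fin s // j ≠ i} + 1 := by
      have h5 : Fintype.card {j : Fin s // j ≠ i} + 1 = s := by
        rw [Fintype.card_subtype_compl, Fintype.card_fin]
        have : Fintype.card {x // x = i} = 1 := by simp
        rw [this]
        have : 0 < s := i.pos
        omega
      rw [Cardinal.mk_fintype]
      exact_mod_cast h5.symm
    rw [hs]
    gcongr

variable {k A : Type} [Field k] [CommRing A] [IsDomain A] [Algebra k A] [Algebra.FiniteType k A]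

/-- A height one prime lowers the transcendence degree by at most one. -/
theorem trdeg_le_of_height_le_one (Q : Ideal A) [hQp : Q.IsPrime] (hht : Q.height ≤ 1) :
    Algebra.trdeg k A ≤ Algebra.trdeg k (A ⧸ Q) + 1 := by
  classical
  have : IsNoetherianRing A := Algebra.FiniteType.isNoetherianRing k A
  obtain ⟨s, g, ginj, gint⟩ := exists_integral_inj_algHom_of_fg k A
  let _ : Algebra (MvPolynomial (Fin s) k) A := g.toRingHom.toAlgebra
  have hsc : IsScalarTower k (MvPolynomial (Fin s) k) A := by
    apply IsScalarTower.of_algebraMap_eq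
    intro x
    exact (g.commutes x).symm
  have hint : Algebra.IsIntegral (MvPolynomial (Fin s) k) A := ⟨fun x => gint x⟩
  have hfs : FaithfulSMul (MvPolynomial (Fin s) k) A :=
    (faithfulSMul_iff_algebraMap_injective _ _).mpr ginj
  have hgd : Algebra.HasGoingDown (MvPolynomial (Fin s) k) A := inferInstance
  let p : Ideal (MvPolynomial (Fin s) k) := Q.comap (algebraMap (MvPolynomial (Fin s) k) A)
  have hpp : p.IsPrime := Ideal.comap_isPrime _ _
  have hlo : Q.LiesOver p := ⟨rfl⟩
  have hph : p.height ≤ 1 := by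
    have := Ideal.height_eq_height_add_of_liesOver_of_hasGoingDown p Q
    rw [this] at hht
    exact le_self_add.trans hht
  have h1 := mvPoly_trdeg_quot p hph
  -- trdeg A = s
  have h2 : Algebra.trdeg k A = s := by
    have h3 := trdeg_add_eq k (MvPolynomial (Fin s) k) (A := A)
    have h3' : Algebra.trdeg (MvPolynomial (Fin s) k) A = 0 := trdeg_eq_zero
    rw [h3', add_zero] at h3
    rw [← h3, MvPolynomial.trdeg_of_isDomain]
    simp
  -- trdeg of the quotients
  have h4 : Algebra.trdeg k (MvPolynomial (Fin s) k ⧸ p) ≤ Algebra.trdeg k (A ⧸ Q) := by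
    let φ : (MvPolynomial (Fin s) k ⧸ p) →ₐ[k] (A ⧸ Q) :=
      Ideal.quotientMapₐ Q g (le_of_eq rfl)
    apply trdeg_le_of_injective φ
    apply Ideal.quotientMap_injective' (H := le_of_eq rfl)
    exact le_of_eq rfl
  rw [h2]
  calc (s : Cardinal) ≤ _ := h1
    _ ≤ _ := by gcongr

end Krull

section PairOfPrimes

variable {k R : Type} [Field k] [CommRing R] [Algebra k R]

/-- Iterated quotients. -/
theorem trdeg_quot_quot (P Q : Ideal R) (h : P ≤ Q) :
    Algebra.trdeg k ((R ⧸ P) ⧸ Q.map (Ideal.Quotient.mk P)) = Algebra.trdeg k (R ⧸ Q) := by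
  have e := DoubleQuot.quotQuotEquivQuotOfLEₐ k h
  exact le_antisymm (trdeg_le_of_injective e.toAlgHom e.injective)
    (trdeg_le_of_injective e.symm.toAlgHom e.symm.injective)

theorem trdeg_lt_of_lt [Algebra.FiniteType k R] (P Q : Ideal R) [hP : P.IsPrime] [hQ : Q.IsPrime]
    (h : P < Q) :
    Cardinal.toNat (Algebra.trdeg k (R ⧸ Q)) < Cardinal.toNat (Algebra.trdeg k (R ⧸ P)) := by
  have hQ' : (Q.map (Ideal.Quotient.mk P)).IsPrime :=
    Ideal.map_isPrime_of_surjective Ideal.Quotient.mk_surjective (by rw [Ideal.mk_ker]; exact h.le)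
  have hne : Q.map (Ideal.Quotient.mk P) ≠ ⊥ := by
    intro hb
    rw [Ideal.map_eq_bot_iff_le_ker, Ideal.mk_ker] at hb
    exact h.not_ge hb
  have h1 := trdeg_quot_add_one_le (k := k) (Q.map (Ideal.Quotient.mk P)) hne
  rw [trdeg_quot_quot P Q h.le] at h1
  have f1 : Algebra.trdeg k (R ⧸ P) < Cardinal.aleph0 := trdeg_lt_aleph0_of_finiteType
  have f2 : Algebra.trdeg k (R ⧸ Q) < Cardinal.aleph0 := trdeg_lt_aleph0_of_finiteType
  have h3 := Cardinal.toNat_le_toNat h1 f1
  rw [Cardinal.toNat_add f2 Cardinal.one_lt_aleph0] at h3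
  simp only [Cardinal.one_toNat] at h3
  omega

theorem trdeg_le_of_minimal [Algebra.FiniteType k R] (P Q : Ideal R) [hP : P.IsPrime] (f : R)
    (hQ : Q ∈ (P ⊔ Ideal.span {f}).minimalPrimes) :
    Cardinal.toNat (Algebra.trdeg k (R ⧸ P)) ≤ Cardinal.toNat (Algebra.trdeg k (R ⧸ Q)) + 1 := by
  have : IsNoetherianRing R := Algebra.FiniteType.isNoetherianRing k R
  have hQp : Q.IsPrime := hQ.isPrime
  have hle : P ≤ Q := le_sup_left.trans hQ.1.2
  have hQ' : (Q.map (Ideal.Quotient.mk P)).IsPrime :=
    Ideal.map_isPrime_of_surjective Ideal.Quotient.mk_surjective (by rw [Ideal.mk_ker]; exact hle)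
  have h1 := Ideal.map_height_le_one_of_mem_minimalPrimes hQ
  have h2 := trdeg_le_of_height_le_one (k := k) (Q.map (Ideal.Quotient.mk P)) h1
  rw [trdeg_quot_quot P Q hle] at h2
  have f1 : Algebra.trdeg k (R ⧸ P) < Cardinal.aleph0 := trdeg_lt_aleph0_of_finiteType
  have f2 : Algebra.trdeg k (R ⧸ Q) < Cardinal.aleph0 := trdeg_lt_aleph0_of_finiteType
  have h3 := Cardinal.toNat_le_toNat h2 (Cardinal.add_lt_aleph0 f2 Cardinal.one_lt_aleph0)
  rw [Cardinal.toNat_add f2 Cardinal.one_lt_aleph0] at h3
  simpa using h3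

end PairOfPrimes

end Pool.Agent.MP_dd1803_nt
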