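import Mathlib

namespace Pool.Agent.MP_dd1803_nt

variable {F : Type} [Field F] {κ : Type}

/-- Zariski closed subsets of the torus `(Fˣ)^κ`: common zeros of sets of polynomials. -/
def ZClosed (X : Set (κ → Fˣ)) : Prop :=
  ∃ S : Set (MvPolynomial κ F), X = {x | ∀ p ∈ S, MvPolynomial.eval (fun i => (x i : F)) p = 0}

/-- Irreducible (not necessarily closed) subsets of the torus. -/
def PIrr (X : Set (κ → Fˣ)) : Prop :=
  X.Nonempty ∧ ∀ A B : Set (κ → Fˣ), ZClosed A → ZClosed B → X ⊆ A ∪ B → X ⊆ A ∨ X ⊆ B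

/-- Irreducible closed subsets of the torus. -/
def Irr (X : Set (κ → Fˣ)) : Prop := ZClosed X ∧ PIrr X

/-- `X` is an irreducible component of `V`. -/
def Comp (V X : Set (κ → Fˣ)) : Prop := Maximal (fun Z => Irr Z ∧ Z ⊆ V) X

/-- The dimension of a subset of the torus: the supremum of the lengths of chains of irreducible
closed subsets contained in it. -/
noncomputable def dm (V : Set (κ → Fˣ)) : WithBot ℕ∞ :=
  Order.krullDim {Y : Set (κ → Fˣ) // Irr Y ∧ Y ⊆ V}

/-- Special subvarieties of the torus: the irreducible components of its algebraic subgroups. -/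
def Special (T : Set (κ → Fˣ)) : Prop :=
  ∃ H : Subgroup (κ → Fˣ), ZClosed (H : Set (κ → Fˣ)) ∧ Comp (H : Set (κ → Fˣ)) T

/-- Atypical subvarieties of `V`: irreducible components `X` of the intersection of `V` with a
special subvariety `T` such that `dim V + dim T < dim X + dim (torus)`. -/
def Atypical (V X : Set (κ → Fˣ)) : Prop :=
  ∃ T, Special T ∧ Comp (V ∩ T) X ∧ dm V + dm T < dm X + dm (Set.univ : Set (κ → Fˣ))

/-- The Zilber-Pink property of `V`: it has only finitely many maximal atypical subvarieties. -/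
def ZP (V : Set (κ → Fˣ)) : Prop := {X | Maximal (Atypical V) X}.Finite

/-- The `k`-th power of the line `x + y = 1`, in the `2k`-dimensional torus. -/
def LL (F : Type) [Field F] (k : ℕ) : Set (Fin k ⊕ Fin k → Fˣ) :=
  {x | ∀ i, (x (Sum.inl i) : F) + (x (Sum.inr i) : F) = 1}

end Pool.Agent.MP_dd1803_nt
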