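import Mathlib
import Pool.Agent.MP_dd1803_nt.Torus

open MvPolynomial

namespace Pool.Agent.MP_dd1803_nt

section Dim

variable {F : Type} [Field F] {κ : Type} {k : Type} [Field k] [Algebra k F]

/-- Zariski closure over `k`. -/
def cl (k : Type) [Field k] [Algebra k F] (X : Set (κ → Fˣ)) : Set (κ → Fˣ) :=
  zl k (vI k X : Set (MvPolynomial κ k))

theorem subset_cl (X : Set (κ → Fˣ)) : X ⊆ cl k X := subset_zl_vI X

theorem zclosed_cl (X : Set (κ → Fˣ)) : ZClosed (cl k X) := zclosed_zl _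

theorem vI_cl (X : Set (κ → Fˣ)) : vI k (cl k X) = vI k X := by
  apply le_antisymm
  · exact vI_anti (subset_cl X)
  · intro p hp
    rw [mem_vI]
    intro x hx
    exact hx p hp

theorem cl_mono {X Y : Set (κ → Fˣ)} (h : X ⊆ Y) : cl k X ⊆ cl k Y :=
  zl_anti (vI_anti h)

theorem cl_eq_self {X : Set (κ → Fˣ)} (h : ZClosed X) : cl F X = X := zclosed_iff.mp h

theorem cl_subset {X Y : Set (κ → Fˣ)} (h : X ⊆ Y) (hY : ZClosed Y) : cl F X ⊆ Y := by
  rw [← cl_eq_self hY]
  exact cl_mono h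

theorem PIrr.cl {X : Set (κ → Fˣ)} (h : PIrr X) : Irr (cl F X) := by
  refine ⟨zclosed_cl X, ?_, ?_⟩
  · obtain ⟨x, hx⟩ := h.nonempty
    exact ⟨x, subset_cl X hx⟩
  · intro A B hA hB hAB
    rcases h.subset_or hA hB ((subset_cl X).trans hAB) with h1 | h1
    · left; exact cl_subset h1 hA
    · right; exact cl_subset h1 hB

/-- Transcendence degree over `k` of the ring of polynomial functions (with coefficients
in `k`) on `X`. -/
noncomputable def td (k : Type) [Field k] [Algebra k F] (X : Set (κ → Fˣ)) : ℕ :=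
  Cardinal.toNat (Algebra.trdeg k (MvPolynomial κ k ⧸ vI k X))

theorem td_cl (X : Set (κ → Fˣ)) : td k (cl k X) = td k X := by
  unfold td
  rw [vI_cl]

/-- The coordinates with index in `s` are algebraically independent over `k` on `X`. -/
def Ind (k : Type) [Field k] [Algebra k F] (X : Set (κ → Fˣ)) (s : Set κ) : Prop :=
  ∀ p : MvPolynomial s k, (∀ x ∈ X, aeval (fun i : s => co x i) p = 0) → p = 0

/-- generic coordinates -/
noncomputable def gen (k : Type) [Field k] [Algebra k F] (X : Set (κ → Fˣ)) (i : κ) :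
    MvPolynomial κ k ⧸ vI k X := Ideal.Quotient.mk _ (MvPolynomial.X i)

theorem aeval_gen_eq_zero_iff {X : Set (κ → Fˣ)} {s : Set κ} (p : MvPolynomial s k) :
    aeval (fun i : s => gen k X i) p = 0 ↔ ∀ x ∈ X, aeval (fun i : s => co x i) p = 0 := by
  have h1 : aeval (fun i : s => gen k X i) p
      = Ideal.Quotient.mkₐ k (vI k X) (rename (fun i : s => (i : κ)) p) := by
    rw [MvPolynomial.rename_eq_aeval, MvPolynomial.comp_aeval_apply]
    rfl
  rw [h1]
  have h2 : Ideal.Quotient.mkₐ k (vI k X) (rename (fun i : s => (i : κ)) p) = 0 ↔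
      rename (fun i : s => (i : κ)) p ∈ vI k X := Ideal.Quotient.eq_zero_iff_mem
  rw [h2, mem_vI]
  apply forall₂_congr
  intro x _
  rw [aeval_rename]
  rfl

theorem ind_iff {X : Set (κ → Fˣ)} {s : Set κ} :
    Ind k X s ↔ AlgebraicIndependent k (fun i : s => gen k X i) := by
  rw [algebraicIndependent_iff]
  unfold Ind
  simp only [aeval_gen_eq_zero_iff]

/-- The coordinates `f i` are algebraically independent over `k` on `X`. -/
def IndF (k : Type) [Field k] [Algebra k F] (X : Set (κ → Fˣ)) {ι : Type} (f : ι → κ) : Prop :=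
  ∀ p : MvPolynomial ι k, (∀ x ∈ X, aeval (fun i : ι => co x (f i)) p = 0) → p = 0

theorem ind_iff_indF {X : Set (κ → Fˣ)} {s : Set κ} :
    Ind k X s ↔ IndF k X (Subtype.val : s → κ) := Iff.rfl

theorem indF_iff {X : Set (κ → Fˣ)} {ι : Type} {f : ι → κ} :
    IndF k X f ↔ AlgebraicIndependent k (fun i : ι => gen k X (f i)) := by
  rw [algebraicIndependent_iff]
  unfold IndF
  apply forall_congr'
  intro p
  have h1 : aeval (fun i : ι => gen k X (f i)) p
      = Ideal.Quotient.mkₐ k (vI k X) (rename f p) := by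
    rw [MvPolynomial.rename_eq_aeval, MvPolynomial.comp_aeval_apply]
    rfl
  have h2 : Ideal.Quotient.mkₐ k (vI k X) (rename f p) = 0 ↔
      rename f p ∈ vI k X := Ideal.Quotient.eq_zero_iff_mem
  rw [h1, h2, mem_vI]
  have h3 : (∀ x ∈ X, aeval (fun i : ι => co x (f i)) p = 0) ↔
      ∀ x ∈ X, aeval (co x) (rename f p) = 0 := by
    apply forall₂_congr
    intro x _
    rw [aeval_rename]
    rfl
  rw [h3]

theorem IndF.anti {X Y : Set (κ → Fˣ)} {ι : Type} {f : ι → κ} (h : IndF k X f) (hXY : X ⊆ Y) :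
    IndF k Y f := by
  intro p hp
  exact h p fun x hx => hp x (hXY hx)

theorem Ind.mono {X : Set (κ → Fˣ)} {s t : Set κ} (h : Ind k X t) (hst : s ⊆ t) : Ind k X s := by
  rw [ind_iff] at *
  exact h.comp (Set.inclusion hst) (Set.inclusion_injective hst)

theorem Ind.anti {X Y : Set (κ → Fˣ)} {s : Set κ} (h : Ind k X s) (hXY : X ⊆ Y) : Ind k Y s := by
  intro p hp
  exact h p fun x hx => hp x (hXY hx)

variable [Finite κ]

theorem trdeg_lt_aleph0 {X : Set (κ → Fˣ)} (hX : PIrr X) :
    Algebra.trdeg k (MvPolynomial κ k ⧸ vI k X) < Cardinal.aleph0 := by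
  have := vI_isPrime (k := k) hX
  exact trdeg_lt_aleph0_of_finiteType

theorem Ind.ncard_le {X : Set (κ → Fˣ)} {s : Set κ} (h : Ind k X s) (hX : PIrr X) :
    s.ncard ≤ td k X := by
  rw [ind_iff] at h
  have h1 := h.cardinalMk_le_trdeg
  have h2 := Cardinal.toNat_le_toNat h1 (trdeg_lt_aleph0 hX)
  unfold td
  rw [← Set.cast_ncard s.toFinite, Cardinal.toNat_natCast] at h2
  exact h2

theorem IndF.card_le {X : Set (κ → Fˣ)} {ι : Type} [Finite ι] {f : ι → κ} (h : IndF k X f)
    (hX : PIrr X) : Nat.card ι ≤ td k X := by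
  rw [indF_iff] at h
  have h1 := h.cardinalMk_le_trdeg
  have h2 := Cardinal.toNat_le_toNat h1 (trdeg_lt_aleph0 hX)
  exact h2

theorem exists_basis {X : Set (κ → Fˣ)} (hX : PIrr X) (s0 : Set κ)
    (h : ∀ i, IsAlgebraic (Algebra.adjoin k (gen k X '' s0)) (gen k X i)) :
    ∃ s ⊆ s0, Ind k X s ∧ s.ncard = td k X := by
  classical
  have hP := vI_isPrime (k := k) hX
  have hne : Nontrivial (MvPolynomial κ k ⧸ vI k X) := inferInstance
  have hfs : FaithfulSMul k (MvPolynomial κ k ⧸ vI k X) :=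
    (faithfulSMul_iff_algebraMap_injective k (MvPolynomial κ k ⧸ vI k X)).mpr
      (algebraMap k (MvPolynomial κ k ⧸ vI k X)).injective
  have halg : Algebra.IsAlgebraic (Algebra.adjoin k (gen k X '' s0))
      (MvPolynomial κ k ⧸ vI k X) := by
    constructor
    intro a
    obtain ⟨p, rfl⟩ := Ideal.Quotient.mk_surjective a
    induction p using MvPolynomial.induction_on with
    | C c =>
      exact isAlgebraic_algebraMap
        (⟨algebraMap k _ c, Subalgebra.algebraMap_mem _ c⟩ : Algebra.adjoin k (gen k X '' s0))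
    | add p q hp hq =>
      rw [map_add]
      exact hp.add hq
    | mul_X p i hp =>
      rw [map_mul]
      exact hp.mul (h i)
  obtain ⟨t, hts, ht⟩ := exists_isTranscendenceBasis_subset (R := k) (gen k X '' s0)
  obtain ⟨s, hs0, hbij⟩ := (Set.surjOn_image (gen k X) s0).mono le_rfl hts |>.exists_bijOn_subset
  refine ⟨s, hs0, ?_, ?_⟩
  · rw [ind_iff]
    have h1 := ht.1
    have h2 := h1.comp (fun i : s => (⟨gen k X i, hbij.mapsTo i.2⟩ : t)) (by
      intro i j hij
      apply Subtype.ext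
      apply hbij.injOn i.2 j.2
      exact Subtype.ext_iff.mp hij)
    exact h2
  · have h1 : Set.ncard t = td k X := by
      unfold td
      rw [← ht.cardinalMk_eq_trdeg]
      rfl
    rw [← h1, ← hbij.image_eq, hbij.injOn.ncard_image]

theorem exists_basis' {X : Set (κ → Fˣ)} (hX : PIrr X) :
    ∃ s : Set κ, Ind k X s ∧ s.ncard = td k X := by
  have hP := vI_isPrime (k := k) hX
  have hne : Nontrivial (MvPolynomial κ k ⧸ vI k X) := inferInstance
  obtain ⟨s, _, h1, h2⟩ := exists_basis (k := k) hX Set.univ (fun i =>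
    isAlgebraic_algebraMap (⟨gen k X i, Algebra.subset_adjoin ⟨i, trivial, rfl⟩⟩ :
      Algebra.adjoin k (gen k X '' Set.univ)))
  exact ⟨s, h1, h2⟩

theorem td_mono {X Y : Set (κ → Fˣ)} (hX : PIrr X) (hY : PIrr Y) (h : X ⊆ Y) :
    td k X ≤ td k Y := by
  obtain ⟨s, hs, hc⟩ := exists_basis' (k := k) hX
  rw [← hc]
  exact (hs.anti h).ncard_le hY

theorem td_le_card {X : Set (κ → Fˣ)} (hX : PIrr X) : td k X ≤ Nat.card κ := by
  obtain ⟨s, hs, hc⟩ := exists_basis' (k := k) hX
  rw [← hc]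
  exact Set.ncard_le_card s

variable [IsAlgClosed F]

theorem td_lt {X Y : Set (κ → Fˣ)} (hX : Irr X) (hY : Irr Y) (h : X ⊂ Y) :
    td F X < td F Y := by
  have h1 := vI_isPrime (k := F) hX.pirr
  have h2 := vI_isPrime (k := F) hY.pirr
  apply trdeg_lt_of_lt
  refine lt_of_le_of_ne (vI_anti h.subset) ?_
  intro heq
  apply h.ne
  rw [← zclosed_iff.mp hX.closed, ← zclosed_iff.mp hY.closed, heq]

theorem eq_of_td_le {X Y : Set (κ → Fˣ)} (hX : Irr X) (hY : Irr Y) (h : X ⊆ Y)
    (hd : td F Y ≤ td F X) : X = Y := by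
  by_contra hne
  exact absurd (td_lt hX hY (LE.le.ssubset_of_ne h hne)) (not_lt.mpr hd)

/-- Krull's principal ideal theorem on the torus. -/
theorem krull {X Y : Set (κ → Fˣ)} (hX : Irr X) (p : MvPolynomial κ F)
    (hY : Comp (X ∩ zp p) Y) : td F X ≤ td F Y + 1 := by
  have h1 := vI_isPrime (k := F) hX.pirr
  have h2 := vI_isPrime (k := F) hY.irr.pirr
  apply trdeg_le_of_minimal (vI F X) (vI F Y) p
  refine ⟨⟨h2, ?_⟩, ?_⟩
  · apply sup_le
    · exact vI_anti (hY.subset.trans Set.inter_subset_left)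
    · rw [Ideal.span_singleton_le_iff_mem, mem_vI]
      intro x hx
      exact (hY.subset hx).2
  · rintro Q ⟨hQ, hle⟩ hQY
    have hXi : ∀ i, (MvPolynomial.X i : MvPolynomial κ F) ∉ Q := by
      intro i hi
      exact X_not_mem_vI hY.irr.nonempty i (hQY hi)
    have h3 := irr_zl (F := F) Q hXi
    have h4 : Y ⊆ zl F (Q : Set (MvPolynomial κ F)) := by
      rw [subset_zl_iff]
      exact hQY
    have h5 : zl (F := F) F (Q : Set (MvPolynomial κ F)) ⊆ X ∩ zp p := by
      apply Set.subset_inter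
      · rw [← zclosed_iff.mp hX.closed]
        apply zl_anti
        exact (le_sup_left.trans hle : vI F X ≤ Q)
      · intro x hx
        exact hx p (hle (Ideal.mem_sup_right (Ideal.mem_span_singleton_self p)))
    have h6 := hY.eq_of_subset h3 h5 h4
    rw [h6, vI_zl (F := F) Q hXi]

end Dim

end Pool.Agent.MP_dd1803_nt
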