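import Mathlib
import Pool.Agent.MP_dd1803_nt.Maps

open MvPolynomial

namespace Pool.Agent.MP_dd1803_nt

section Ext

variable {F : Type} [Field F] {κ : Type} {k : Type} [Field k] [Algebra k F]

/-- Apply a `k`-linear functional to all the coefficients of a polynomial. -/
noncomputable def cmpl (φ : F →ₗ[k] k) (p : MvPolynomial κ F) : MvPolynomial κ k :=
  AddMonoidAlgebra.ofCoeff (Finsupp.mapRange φ φ.map_zero (AddMonoidAlgebra.coeff p))

theorem coeff_cmpl (φ : F →ₗ[k] k) (p : MvPolynomial κ F) (m : κ →₀ ℕ) :
    coeff m (cmpl φ p) = φ (coeff m p) := rfl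

theorem cmpl_add (φ : F →ₗ[k] k) (p q : MvPolynomial κ F) :
    cmpl φ (p + q) = cmpl φ p + cmpl φ q := by
  ext m
  simp [coeff_cmpl]

theorem cmpl_zero (φ : F →ₗ[k] k) : cmpl φ (0 : MvPolynomial κ F) = 0 := by
  ext m
  simp [coeff_cmpl]

theorem cmpl_map_mul (φ : F →ₗ[k] k) (p : MvPolynomial κ k) (q : MvPolynomial κ F) :
    cmpl φ (MvPolynomial.map (algebraMap k F) p * q) = p * cmpl φ q := by
  classical
  ext m
  rw [coeff_cmpl, coeff_mul, coeff_mul, map_sum]
  apply Finset.sum_congr rfl
  intro x _
  rw [coeff_map, coeff_cmpl, ← Algebra.smul_def, map_smul, smul_eq_mul]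

theorem cmpl_C (φ : F →ₗ[k] k) (c : F) : cmpl φ (C c : MvPolynomial κ F) = C (φ c) := by
  classical
  ext m
  rw [coeff_cmpl, coeff_C, coeff_C]
  split_ifs
  · rfl
  · exact φ.map_zero

theorem cmpl_mul_X (φ : F →ₗ[k] k) (p : MvPolynomial κ F) (i : κ) :
    cmpl φ (p * X i) = cmpl φ p * X i := by
  have h1 : (X i : MvPolynomial κ F) = MvPolynomial.map (algebraMap k F) (X i) := by simp
  rw [h1, mul_comm p, cmpl_map_mul, mul_comm]

theorem cmpl_rename (φ : F →ₗ[k] k) {ι : Type} (f : ι → κ) (p : MvPolynomial ι F) :
    cmpl φ (rename f p) = rename f (cmpl φ p) := by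
  induction p using MvPolynomial.induction_on'' with
  | C c => rw [rename_C, cmpl_C, cmpl_C, rename_C]
  | monomial_add a b f ha hb hf hm =>
    rw [map_add, cmpl_add, cmpl_add, map_add, hf, hm]
  | mul_X p i hp =>
    rw [map_mul, rename_X, cmpl_mul_X, cmpl_mul_X, hp, map_mul, rename_X]

/-- Evaluating components at `k`-rational points. -/
theorem aeval_cmpl (φ : F →ₗ[k] k) (p : MvPolynomial κ F) (y : κ → k) :
    aeval y (cmpl φ p) = φ (aeval (fun i => algebraMap k F (y i)) p) := by
  classical
  induction p using MvPolynomial.induction_on'' with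
  | C c =>
    rw [cmpl_C]
    simp
  | monomial_add a b f ha hb hf hm =>
    rw [cmpl_add, map_add, map_add, map_add, hf, hm]
  | mul_X p i hp =>
    rw [cmpl_mul_X, map_mul, aeval_X, hp, map_mul, aeval_X]
    rw [mul_comm _ (algebraMap k F (y i)), ← Algebra.smul_def, map_smul, smul_eq_mul, mul_comm]

/-- A polynomial is an `F`-combination of its components. -/
theorem exists_expansion (p : MvPolynomial κ F) :
    ∃ (L : Finset (F × (F →ₗ[k] k))),
      p = ∑ l ∈ L, C l.1 * MvPolynomial.map (algebraMap k F) (cmpl l.2 p) := by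
  classical
  let b := Module.Basis.ofVectorSpace k F
  let L0 := p.support.biUnion fun m => (b.repr (coeff m p)).support
  refine ⟨L0.image (fun l => (b l, b.coord l)), ?_⟩
  rw [Finset.sum_image]
  · ext m
    rw [coeff_sum]
    simp only [coeff_C_mul, coeff_map, coeff_cmpl]
    by_cases hm : m ∈ p.support
    · have h1 : coeff m p = Finsupp.linearCombination k b (b.repr (coeff m p)) :=
        (b.linearCombination_repr _).symm
      conv_lhs => rw [h1]
      rw [Finsupp.linearCombination_apply, Finsupp.sum]
      have h2 : (b.repr (coeff m p)).support ⊆ L0 :=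
        Finset.subset_biUnion_of_mem (fun m => (b.repr (coeff m p)).support) hm
      rw [Finset.sum_subset h2]
      · apply Finset.sum_congr rfl
        intro l _
        rw [Algebra.smul_def, mul_comm]
        rfl
      · intro l _ hl
        rw [Finsupp.notMem_support_iff.mp hl, zero_smul]
    · rw [notMem_support_iff.mp hm]
      simp
  · intro l _ l' _ hll
    simp only [Prod.mk.injEq] at hll
    exact b.injective hll.1

theorem eq_zero_of_cmpl {p : MvPolynomial κ F} (h : ∀ φ : F →ₗ[k] k, cmpl φ p = 0) : p = 0 := by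
  obtain ⟨L, hL⟩ := exists_expansion (k := k) p
  rw [hL]
  apply Finset.sum_eq_zero
  intro l _
  rw [h l.2, map_zero, mul_zero]

theorem aeval_eq_zero_of_cmpl {p : MvPolynomial κ F} {x : κ → F}
    (h : ∀ φ : F →ₗ[k] k, aeval x (cmpl φ p) = 0) : aeval x p = 0 := by
  obtain ⟨L, hL⟩ := exists_expansion (k := k) p
  rw [hL, map_sum]
  apply Finset.sum_eq_zero
  intro l _
  rw [map_mul, aeval_map_algebraMap, h l.2, mul_zero]

variable [Finite κ] [IsAlgClosed F] [IsAlgClosed k]

/-- The ideal of the `k`-closure consists of the polynomials all of whose components vanish. -/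
theorem mem_vI_cl {X : Set (κ → Fˣ)} (hX : PIrr X) {p : MvPolynomial κ F} :
    p ∈ vI F (cl k X) ↔ ∀ φ : F →ₗ[k] k, cmpl φ p ∈ vI k X := by
  have hP := vI_isPrime (k := k) hX
  constructor
  · intro hp φ
    have hv := vI_zl (F := k) (k := k) (vI k X) (X_not_mem_vI hX.nonempty)
    rw [← hv, mem_vI]
    intro y hy
    have h1 : (fun i => Units.map (algebraMap k F).toMonoidHom (y i)) ∈ cl k X := by
      intro q hq
      have h2 : co (fun i => Units.map (algebraMap k F).toMonoidHom (y i))
          = fun i => algebraMap k F (co y i) := rfl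
      rw [h2]
      have h3 := hy q hq
      have h4 : aeval (fun i => algebraMap k F (co y i)) q = algebraMap k F (aeval (co y) q) := by
        exact MvPolynomial.aeval_algebraMap_apply F (co y) q
      rw [h4, h3, map_zero]
    have h5 := mem_vI.mp hp _ h1
    rw [aeval_cmpl]
    have h6 : co (fun i => Units.map (algebraMap k F).toMonoidHom (y i))
          = fun i => algebraMap k F (co y i) := rfl
    rw [h6] at h5
    rw [h5, map_zero]
  · intro h
    rw [mem_vI]
    intro x hx
    apply aeval_eq_zero_of_cmpl (k := k)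
    intro φ
    exact hx _ (h φ)

/-- Over an algebraically closed subfield, closures of irreducible sets stay irreducible. -/
theorem irr_cl {X : Set (κ → Fˣ)} (hX : PIrr X) : Irr (cl k X) := by
  have hP := vI_isPrime (k := k) hX
  have hv := vI_zl (F := k) (k := k) (vI k X) (X_not_mem_vI hX.nonempty)
  refine ⟨zclosed_cl X, ?_, ?_⟩
  · obtain ⟨x, hx⟩ := hX.nonempty
    exact ⟨x, subset_cl X hx⟩
  · intro A B hA hB hAB
    by_contra hcon
    push Not at hcon
    obtain ⟨h1, h2⟩ := hcon
    rw [← zclosed_iff.mp hA, subset_zl_iff, Set.not_subset] at h1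
    rw [← zclosed_iff.mp hB, subset_zl_iff, Set.not_subset] at h2
    obtain ⟨p, hp, hp'⟩ := h1
    obtain ⟨q, hq, hq'⟩ := h2
    rw [SetLike.mem_coe, mem_vI_cl hX] at hp' hq'
    push Not at hp' hq'
    obtain ⟨φ, hφ⟩ := hp'
    obtain ⟨ψ, hψ⟩ := hq'
    have h3 : cmpl φ p * cmpl ψ q ∈ vI k X := by
      rw [← hv, mem_vI]
      intro y hy
      have h1 : (fun i => Units.map (algebraMap k F).toMonoidHom (y i)) ∈ cl k X := by
        intro q hq
        have h2 : co (fun i => Units.map (algebraMap k F).toMonoidHom (y i))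
            = fun i => algebraMap k F (co y i) := rfl
        rw [h2]
        have h3 := hy q hq
        have h4 : aeval (fun i => algebraMap k F (co y i)) q = algebraMap k F (aeval (co y) q) := by
          exact MvPolynomial.aeval_algebraMap_apply F (co y) q
        rw [h4, h3, map_zero]
      have h6 : co (fun i => Units.map (algebraMap k F).toMonoidHom (y i))
            = fun i => algebraMap k F (co y i) := rfl
      rw [map_mul, aeval_cmpl, aeval_cmpl]
      rcases hAB h1 with h | h
      · have h5 := mem_vI.mp hp _ h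
        rw [h6] at h5
        rw [h5, map_zero, zero_mul]
      · have h5 := mem_vI.mp hq _ h
        rw [h6] at h5
        rw [h5, map_zero, mul_zero]
    rcases hP.mem_or_mem h3 with h | h
    · exact hφ h
    · exact hψ h

theorem indF_cl_iff {X : Set (κ → Fˣ)} (hX : PIrr X) {ι : Type} {f : ι → κ} :
    IndF F (cl k X) f ↔ IndF k X f := by
  constructor
  · intro h p hp
    have h1 := h (MvPolynomial.map (algebraMap k F) p) (by
      intro x hx
      rw [aeval_map_algebraMap]
      have h2 : rename f p ∈ vI k X := by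
        rw [mem_vI]
        intro x hx
        rw [aeval_rename]
        exact hp x hx
      have h3 := hx (rename f p) h2
      rw [aeval_rename] at h3
      exact h3)
    exact (MvPolynomial.map_injective _ (algebraMap k F).injective) (by rw [h1, map_zero])
  · intro h p hp
    apply eq_zero_of_cmpl (k := k)
    intro φ
    apply h
    have h1 : rename f p ∈ vI F (cl k X) := by
      rw [mem_vI]
      intro x hx
      rw [aeval_rename]
      exact hp x hx
    rw [mem_vI_cl hX] at h1
    have h2 : cmpl φ (rename f p) = rename f (cmpl φ p) := cmpl_rename φ f p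
    intro x hx
    have h3 := mem_vI.mp (h1 φ) x hx
    rw [h2, aeval_rename] at h3
    exact h3

/-- dimension of the `k`-closure -/
theorem td_cl_eq {X : Set (κ → Fˣ)} (hX : PIrr X) : td F (cl k X) = td k X := by
  apply le_antisymm
  · obtain ⟨s, hs, hc⟩ := exists_basis' (k := F) (irr_cl (k := k) hX).pirr
    rw [← hc]
    rw [ind_iff_indF, indF_cl_iff hX] at hs
    have := hs.card_le hX
    rwa [Nat.card_coe_set_eq] at this
  · obtain ⟨s, hs, hc⟩ := exists_basis' (k := k) hX
    rw [← hc]
    rw [ind_iff_indF, ← indF_cl_iff hX] at hs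
    have := hs.card_le (irr_cl (k := k) hX).pirr
    rwa [Nat.card_coe_set_eq] at this

end Ext

end Pool.Agent.MP_dd1803_nt
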