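import Mathlib
import Pool.Agent.MP_dd1803_nt.Ext

open MvPolynomial

namespace Pool.Agent.MP_dd1803_nt

section RankNullity

theorem finrank_le_ker_add {R M M' : Type} [CommRing R] [IsDomain R] [IsNoetherianRing R]
    [AddCommGroup M] [AddCommGroup M'] [Module R M]
    [Module R M'] [Module.Finite R M] [Module.Finite R M'] (f : M →ₗ[R] M') :
    Module.finrank R M ≤ Module.finrank R (LinearMap.ker f) + Module.finrank R (LinearMap.range f) := by
  have h1 := Submodule.finrank_quotient_add_finrank (LinearMap.ker f)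
  have h2 := LinearEquiv.finrank_eq f.quotKerEquivRange
  omega

theorem finrank_lt_of_mem {R M : Type} [CommRing R] [IsDomain R] [IsNoetherianRing R]
    [AddCommGroup M] [Module R M] [Module.Finite R M]
    (N N' : Submodule R M) (h : N ≤ N') (m : M) (hm : m ∈ N') (hN : ∀ n : R, n ≠ 0 → n • m ∉ N) :
    Module.finrank R N + 1 ≤ Module.finrank R N' := by
  let N1 : Submodule R N' := N.comap N'.subtype
  have e : N1 ≃ₗ[R] N := Submodule.comapSubtypeEquivOfLe h
  have h1 := Submodule.finrank_quotient_add_finrank N1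
  rw [e.finrank_eq] at h1
  let g : R →ₗ[R] (N' ⧸ N1) := LinearMap.toSpanSingleton R _ (Submodule.Quotient.mk ⟨m, hm⟩)
  have hg : Function.Injective g := by
    rw [injective_iff_map_eq_zero]
    intro n hn
    by_contra h0
    apply hN n h0
    have h2 : n • (Submodule.Quotient.mk ⟨m, hm⟩ : N' ⧸ N1) = 0 := hn
    rw [← Submodule.Quotient.mk_smul, Submodule.Quotient.mk_eq_zero] at h2
    exact h2
  have h3 := LinearMap.finrank_le_finrank_of_injective hg
  rw [Module.finrank_self] at h3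
  omega

end RankNullity

section Lattice

variable {F : Type} [Field F] {κ κ' : Type} [Fintype κ] [Fintype κ'] {k : Type} [Field k]
  [Algebra k F]

/-- The character of the torus with exponent vector `m`. -/
def ch (m : κ → ℤ) (x : κ → Fˣ) : Fˣ := ∏ i, x i ^ m i

omit [Fintype κ'] in
theorem ch_zero (x : κ → Fˣ) : ch 0 x = 1 := by simp [ch]

theorem ch_add (m n : κ → ℤ) (x : κ → Fˣ) : ch (m + n) x = ch m x * ch n x := by
  simp [ch, zpow_add, Finset.prod_mul_distrib]

theorem ch_neg (m : κ → ℤ) (x : κ → Fˣ) : ch (-m) x = (ch m x)⁻¹ := by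
  simp [ch, zpow_neg, Finset.prod_inv_distrib]

theorem ch_zsmul (n : ℤ) (m : κ → ℤ) (x : κ → Fˣ) : ch (n • m) x = ch m x ^ n := by
  simp only [ch, Pi.smul_apply, smul_eq_mul, ← Finset.prod_zpow]
  apply Finset.prod_congr rfl
  intro i _
  rw [mul_comm, zpow_mul]

theorem ch_mul (m : κ → ℤ) (x y : κ → Fˣ) : ch m (x * y) = ch m x * ch m y := by
  simp [ch, mul_zpow, Finset.prod_mul_distrib]

theorem ch_one (m : κ → ℤ) : ch m (1 : κ → Fˣ) = 1 := by simp [ch]

theorem ch_single [DecidableEq κ] (i : κ) (n : ℤ) (x : κ → Fˣ) : ch (Pi.single i n) x = x i ^ n := by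
  unfold ch
  rw [Finset.prod_eq_single i]
  · rw [Pi.single_eq_same]
  · intro j _ hj
    rw [Pi.single_eq_of_ne hj, zpow_zero]
  · intro h
    exact absurd (Finset.mem_univ i) h

/-- The binomial cutting out the kernel of a character. -/
noncomputable def bn (k : Type) [Field k] (m : κ → ℤ) : MvPolynomial κ k :=
  ∏ i, X i ^ (m i).toNat - ∏ i, X i ^ (-m i).toNat

theorem aeval_bn (m : κ → ℤ) (x : κ → Fˣ) : aeval (co x) (bn k m) = 0 ↔ ch m x = 1 := by
  unfold bn ch
  rw [map_sub, map_prod, map_prod, sub_eq_zero]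
  simp only [map_pow, aeval_X]
  have h1 : ∀ i, x i ^ m i = x i ^ (m i).toNat * (x i ^ (-m i).toNat)⁻¹ := by
    intro i
    rw [← zpow_natCast, ← zpow_natCast, ← zpow_neg, ← zpow_add]
    congr 1
    rw [Int.toNat_eq_max, Int.toNat_eq_max]
    omega
  have h2 : ∏ i, x i ^ m i = (∏ i, x i ^ (m i).toNat) * (∏ i, x i ^ (-m i).toNat)⁻¹ := by
    rw [← Finset.prod_inv_distrib, ← Finset.prod_mul_distrib]
    exact Finset.prod_congr rfl fun i _ => h1 i
  rw [h2, mul_inv_eq_one]
  constructor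
  · intro h
    apply Units.ext
    push_cast
    exact h
  · intro h
    have := congrArg (Units.val) h
    push_cast at this
    exact this

theorem bn_eq_zero {m : κ → ℤ} (h : bn k m = 0) : m = 0 := by
  classical
  unfold bn at h
  have h1 : ∀ f : κ → ℕ, (∏ i, (X i : MvPolynomial κ k) ^ f i) =
      monomial (Finsupp.equivFunOnFinite.symm f) 1 := by
    intro f
    rw [monomial_eq, map_one, one_mul, Finsupp.prod_fintype _ _ (fun i => pow_zero _)]
    rfl
  rw [h1, h1, sub_eq_zero] at h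
  have h2 := monomial_left_injective (R := k) one_ne_zero h
  have h3 := Finsupp.equivFunOnFinite.symm.injective h2
  funext i
  have h4 := congrFun h3 i
  simp only [Pi.zero_apply]
  omega

theorem ratOn_ch (S : Set (κ → Fˣ)) (m : κ → ℤ) : RatOn S (fun x => (ch m x : F)) := by
  have h : ∀ i, RatOn S (fun x => ((x i ^ m i : Fˣ) : F)) := by
    intro i
    rcases Int.eq_nat_or_neg (m i) with ⟨n, hn | hn⟩
    · rw [hn]
      simp only [zpow_natCast, Units.val_pow_eq_pow_val]
      exact (ratOn_coord S i).pow n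
    · rw [hn]
      simp only [zpow_neg, zpow_natCast, Units.val_inv_eq_inv_val, Units.val_pow_eq_pow_val]
      exact ((ratOn_coord S i).pow n).inv fun x _ => pow_ne_zero _ (x i).ne_zero
  have h2 := RatOn.finset_prod (F := F) Finset.univ (f := fun i x => ((x i ^ m i : Fˣ) : F))
    (fun i _ => h i)
  unfold ch
  simpa using h2

/-- The set where a character takes a given value is the zero set of a polynomial. -/
theorem exists_zp_ch (m : κ → ℤ) (c : Fˣ) :
    ∃ a : MvPolynomial κ F, {x : κ → Fˣ | ch m x = c} = zp a := by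
  obtain ⟨a, ha⟩ := ((ratOn_ch (F := F) Set.univ m).sub (ratOn_const _ (c : F))).zero_set
  refine ⟨a, ?_⟩
  ext x
  rw [← ha x trivial, sub_eq_zero]
  constructor
  · intro h
    rw [Set.mem_ofPred_eq] at h
    rw [h]
  · intro h
    exact Units.ext h

theorem zclosed_ch (m : κ → ℤ) (c : Fˣ) : ZClosed {x : κ → Fˣ | ch m x = c} := by
  obtain ⟨a, ha⟩ := exists_zp_ch m c
  rw [ha]
  exact zclosed_zp a

/-- The lattice of characters taking torsion values on `X`. -/
def Lam (X : Set (κ → Fˣ)) : Submodule ℤ (κ → ℤ) where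
  carrier := {m | ∃ N : ℕ, 0 < N ∧ ∀ x ∈ X, ch m x ^ N = 1}
  zero_mem' := ⟨1, one_pos, fun x _ => by rw [ch_zero, one_pow]⟩
  add_mem' := by
    rintro m n ⟨N, hN, h⟩ ⟨N', hN', h'⟩
    refine ⟨N * N', Nat.mul_pos hN hN', fun x hx => ?_⟩
    rw [ch_add, mul_pow, pow_mul, h x hx, one_pow, one_mul, mul_comm, pow_mul, h' x hx, one_pow]
  smul_mem' := by
    rintro n m ⟨N, hN, h⟩
    refine ⟨N, hN, fun x hx => ?_⟩
    rw [ch_zsmul, ← zpow_natCast, ← zpow_mul, mul_comm, zpow_mul, zpow_natCast, h x hx, one_zpow]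

theorem mem_Lam {X : Set (κ → Fˣ)} {m : κ → ℤ} :
    m ∈ Lam X ↔ ∃ N : ℕ, 0 < N ∧ ∀ x ∈ X, ch m x ^ N = 1 := Iff.rfl

theorem Lam_anti {X Y : Set (κ → Fˣ)} (h : X ⊆ Y) : Lam Y ≤ Lam X := by
  rintro m ⟨N, hN, hm⟩
  exact ⟨N, hN, fun x hx => hm x (h hx)⟩

theorem Lam_cl (X : Set (κ → Fˣ)) : Lam (cl k X) = Lam X := by
  apply le_antisymm
  · exact Lam_anti (subset_cl X)
  · rintro m ⟨N, hN, hm⟩
    refine ⟨N, hN, fun x hx => ?_⟩
    rw [← zpow_natCast, ← ch_zsmul, ← aeval_bn (k := k)]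
    apply hx
    rw [SetLike.mem_coe, mem_vI]
    intro y hy
    rw [aeval_bn, ch_zsmul, zpow_natCast]
    exact hm y hy

theorem Lam_sat {X : Set (κ → Fˣ)} {m : κ → ℤ} {n : ℤ} (hn : n ≠ 0) (h : n • m ∈ Lam X) :
    m ∈ Lam X := by
  obtain ⟨N, hN, hm⟩ := h
  refine ⟨n.natAbs * N, Nat.mul_pos (Int.natAbs_pos.mpr hn) hN, fun x hx => ?_⟩
  have h1 := hm x hx
  rw [ch_zsmul] at h1
  rcases Int.natAbs_eq n with h2 | h2
  · rw [h2, zpow_natCast, ← pow_mul] at h1
    exact h1
  · rw [h2, zpow_neg, zpow_natCast, inv_pow, inv_eq_one, ← pow_mul] at h1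
    exact h1

/-- On an irreducible set, torsion valued characters are constant. -/
theorem Lam_const {X : Set (κ → Fˣ)} (hX : PIrr X) {m : κ → ℤ} (hm : m ∈ Lam X) :
    ∃ c : Fˣ, (∃ N : ℕ, 0 < N ∧ c ^ N = 1) ∧ ∀ x ∈ X, ch m x = c := by
  classical
  obtain ⟨N, hN, h⟩ := hm
  have hne : NeZero N := ⟨hN.ne'⟩
  have hfin : (rootsOfUnity N F : Set Fˣ).Finite := by
    have : Finite (rootsOfUnity N F) := inferInstance
    exact this
  let R : Finset Fˣ := hfin.toFinset
  obtain ⟨Z, hZ, hXZ⟩ := hX.subset_of_finset (R.image fun c => {x : κ → Fˣ | ch m x = c}) (by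
    intro Z hZ
    rw [Finset.mem_image] at hZ
    obtain ⟨c, _, rfl⟩ := hZ
    exact zclosed_ch m c) (by
    intro x hx
    simp only [Set.mem_iUnion]
    refine ⟨{y : κ → Fˣ | ch m y = ch m x}, ?_, rfl⟩
    rw [Finset.mem_image]
    refine ⟨ch m x, ?_, rfl⟩
    show _ ∈ hfin.toFinset
    rw [Set.Finite.mem_toFinset, SetLike.mem_coe, mem_rootsOfUnity]
    exact h x hx)
  rw [Finset.mem_image] at hZ
  obtain ⟨c, hc, rfl⟩ := hZ
  change _ ∈ hfin.toFinset at hc
  rw [Set.Finite.mem_toFinset, SetLike.mem_coe, mem_rootsOfUnity] at hc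
  exact ⟨c, ⟨N, hN, hc⟩, fun x hx => hXZ hx⟩

/-- The rank of the lattice of torsion valued characters. -/
noncomputable def rk (X : Set (κ → Fˣ)) : ℕ := Module.finrank ℤ (Lam X)

theorem rk_anti {X Y : Set (κ → Fˣ)} (h : X ⊆ Y) : rk Y ≤ rk X :=
  Submodule.finrank_mono (Lam_anti h)

theorem rk_cl (X : Set (κ → Fˣ)) : rk (cl k X) = rk X := by
  unfold rk
  rw [Lam_cl]

/-- rank plus dimension -/
noncomputable def cd (X : Set (κ → Fˣ)) : ℕ := rk X + td F X

theorem cd_cl (X : Set (κ → Fˣ)) : cd (cl F X) = cd X := by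
  unfold cd
  rw [rk_cl, td_cl]

/-- The dimension is at most the number of coordinates minus the number of independent
multiplicative relations. -/
theorem cd_le_card {X : Set (κ → Fˣ)} (hX : PIrr X) : cd X ≤ Fintype.card κ := by
  classical
  obtain ⟨s, hs, hc⟩ := exists_basis' (k := F) hX
  let f : Lam X →ₗ[ℤ] (↥(sᶜ : Set κ) → ℤ) :=
    (LinearMap.funLeft ℤ ℤ (Subtype.val : ↥(sᶜ : Set κ) → κ)).comp (Lam X).subtype
  have hf : Function.Injective f := by
    rw [injective_iff_map_eq_zero]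
    rintro ⟨m, hm⟩ hfm
    have h0 : ∀ i, i ∉ s → m i = 0 := by
      intro i hi
      exact congrFun hfm ⟨i, hi⟩
    obtain ⟨N, hN, h⟩ := hm
    -- the binomial in the variables of s
    let m' : s → ℤ := fun i => N * m i
    have h1 : bn F m' = 0 := by
      apply hs
      intro x hx
      have h2 : (fun i : s => co x i) = co (fun i : s => x i) := rfl
      rw [h2, aeval_bn]
      have h3 := h x hx
      rw [← zpow_natCast, ← ch_zsmul] at h3
      rw [← h3]
      unfold ch
      simp only [m', Pi.smul_apply, smul_eq_mul]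
      rw [Finset.prod_set_coe (f := fun i => x i ^ ((N : ℤ) * m i)) s]
      rw [← Finset.prod_subset (Finset.subset_univ s.toFinset)]
      intro i _ hi
      rw [Set.mem_toFinset] at hi
      rw [h0 i hi, mul_zero, zpow_zero]
    have h5 := bn_eq_zero h1
    apply Subtype.ext
    funext i
    by_cases hi : i ∈ s
    · have h6 : (N : ℤ) * m i = 0 := congrFun h5 ⟨i, hi⟩
      rcases mul_eq_zero.mp h6 with h7 | h7
      · omega
      · exact h7
    · exact h0 i hi
  have h1 := LinearMap.finrank_le_finrank_of_injective hf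
  rw [Module.finrank_fintype_fun_eq_card] at h1
  have h2 : Fintype.card ↥(sᶜ : Set κ) + s.ncard = Fintype.card κ := by
    rw [← Nat.card_eq_fintype_card, ← Nat.card_eq_fintype_card, Nat.card_coe_set_eq, add_comm]
    exact Set.ncard_add_ncard_compl s
  unfold cd
  unfold rk
  omega

end Lattice

end Pool.Agent.MP_dd1803_nt
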