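import Mathlib
import Pool.Agent.MP_dd1803_nt.Lattice

open MvPolynomial

namespace Pool.Agent.MP_dd1803_nt

section Comp

variable {F : Type} [Field F] {κ : Type}

theorem Comp.split [Finite κ] {Z A B Y : Set (κ → Fˣ)} (hZ : ZClosed Z) (hA : ZClosed A)
    (h : Comp (Z ∩ A ∩ B) Y) : ∃ Z1, Comp (Z ∩ A) Z1 ∧ Comp (Z1 ∩ B) Y := by
  obtain ⟨Z1, hZ1, hY⟩ := exists_comp (hZ.inter hA) h.irr (h.subset.trans Set.inter_subset_left)
  refine ⟨Z1, hZ1, ⟨⟨h.irr, Set.subset_inter hY (h.subset.trans Set.inter_subset_right)⟩, ?_⟩⟩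
  rintro W ⟨hW, hWZ⟩ hYW
  have h1 : W ⊆ Z ∩ A ∩ B :=
    Set.subset_inter ((hWZ.trans Set.inter_subset_left).trans hZ1.subset)
      (hWZ.trans Set.inter_subset_right)
  exact (h.eq_of_subset hW h1 hYW).ge

variable [IsAlgClosed F]

theorem krull_list [Finite κ] {ι : Type} (s : Finset ι) (p : ι → MvPolynomial κ F) :
    ∀ {Z Y : Set (κ → Fˣ)}, Irr Z → Comp (Z ∩ {x | ∀ i ∈ s, aeval (co x) (p i) = 0}) Y →
      td F Z ≤ td F Y + s.card := by
  classical
  induction s using Finset.induction_on with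
  | empty =>
    intro Z Y hZ h
    have h1 : Z ∩ {x | ∀ i ∈ (∅ : Finset ι), aeval (co x) (p i) = 0} = Z := by
      ext x
      simp
    rw [h1] at h
    have := h.eq_of_subset hZ le_rfl h.subset
    rw [this]
    simp
  | insert a s ha ih =>
    intro Z Y hZ h
    have h1 : Z ∩ {x | ∀ i ∈ insert a s, aeval (co x) (p i) = 0} =
        Z ∩ zp (p a) ∩ {x | ∀ i ∈ s, aeval (co x) (p i) = 0} := by
      ext x
      simp only [Set.mem_inter_iff, Set.mem_ofPred_eq, Finset.mem_insert, forall_eq_or_imp, mem_zp]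
      tauto
    rw [h1] at h
    obtain ⟨Z1, h2, h3⟩ := Comp.split hZ.closed (zclosed_zp _) h
    have h4 := ih h2.irr h3
    have h5 := krull hZ (p a) h2
    rw [Finset.card_insert_of_notMem ha]
    omega

end Comp

section Cut

variable {F : Type} [Field F] [IsAlgClosed F] {κ : Type} [Fintype κ]

theorem mem_Lam_of_subset {Y : Set (κ → Fˣ)} {m : κ → ℤ} {c : Fˣ} (hc : ∃ N : ℕ, 0 < N ∧ c ^ N = 1)
    (h : ∀ x ∈ Y, ch m x = c) : m ∈ Lam Y := by
  obtain ⟨N, hN, hc⟩ := hc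
  exact ⟨N, hN, fun x hx => by rw [h x hx, hc]⟩

theorem cut_one {Z Y : Set (κ → Fˣ)} (hZ : Irr Z) {m : κ → ℤ} {c : Fˣ}
    (hc : ∃ N : ℕ, 0 < N ∧ c ^ N = 1) (h : Comp (Z ∩ {x | ch m x = c}) Y) : cd Z ≤ cd Y := by
  have hYZ : Y ⊆ Z := h.subset.trans Set.inter_subset_left
  have hYc : ∀ x ∈ Y, ch m x = c := fun x hx => (h.subset hx).2
  by_cases hm : m ∈ Lam Z
  · obtain ⟨c', _, h2⟩ := Lam_const hZ.pirr hm
    obtain ⟨y, hy⟩ := h.irr.nonempty
    have h3 : c' = c := by rw [← h2 y (hYZ hy), hYc y hy]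
    have h4 : Z ⊆ Z ∩ {x | ch m x = c} := by
      intro x hx
      exact ⟨hx, by rw [← h3]; exact h2 x hx⟩
    have h5 := h.eq_of_subset hZ h4 hYZ
    rw [h5]
  · have h1 : rk Z + 1 ≤ rk Y := by
      apply finrank_lt_of_mem (Lam Z) (Lam Y) (Lam_anti hYZ) m (mem_Lam_of_subset hc hYc)
      intro n hn h2
      exact hm (Lam_sat hn h2)
    obtain ⟨a, ha⟩ := exists_zp_ch (F := F) m c
    rw [ha] at h
    have h2 := krull hZ a h
    unfold cd
    omega

theorem cut {ι : Type} (s : Finset ι) (m : ι → κ → ℤ) (c : ι → Fˣ)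
    (hc : ∀ i ∈ s, ∃ N : ℕ, 0 < N ∧ c i ^ N = 1) :
    ∀ {Z Y : Set (κ → Fˣ)}, Irr Z → Comp (Z ∩ {x | ∀ i ∈ s, ch (m i) x = c i}) Y →
      cd Z ≤ cd Y := by
  classical
  induction s using Finset.induction_on with
  | empty =>
    intro Z Y hZ h
    have h1 : Z ∩ {x | ∀ i ∈ (∅ : Finset ι), ch (m i) x = c i} = Z := by
      ext x
      simp
    rw [h1] at h
    have := h.eq_of_subset hZ le_rfl h.subset
    rw [this]
  | insert a s ha ih =>
    intro Z Y hZ h
    have h1 : Z ∩ {x | ∀ i ∈ insert a s, ch (m i) x = c i} =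
        Z ∩ {x | ch (m a) x = c a} ∩ {x | ∀ i ∈ s, ch (m i) x = c i} := by
      ext x
      simp only [Set.mem_inter_iff, Set.mem_ofPred_eq, Finset.mem_insert, forall_eq_or_imp]
      tauto
    rw [h1] at h
    obtain ⟨Z1, h2, h3⟩ := Comp.split hZ.closed (zclosed_ch _ _) h
    have h4 := ih (fun i hi => hc i (Finset.mem_insert_of_mem hi)) h2.irr h3
    have h5 := cut_one hZ (hc a (Finset.mem_insert_self _ _)) h2
    omega

theorem td_univ : td F (Set.univ : Set (κ → Fˣ)) = Fintype.card κ := by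
  apply le_antisymm
  · rw [← Nat.card_eq_fintype_card]
    exact td_le_card (irr_univ (F := F)).pirr
  · have h1 : IndF F (Set.univ : Set (κ → Fˣ)) (id : κ → κ) := by
      intro p hp
      have h2 : p ∈ vI F (Set.univ : Set (κ → Fˣ)) := by
        rw [mem_vI]
        exact hp
      rw [vI_univ] at h2
      exact h2
    have h2 := h1.card_le (irr_univ (F := F)).pirr
    rwa [Nat.card_eq_fintype_card] at h2

theorem cd_univ : cd (Set.univ : Set (κ → Fˣ)) = Fintype.card κ := by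
  apply le_antisymm
  · exact cd_le_card (irr_univ (F := F)).pirr
  · unfold cd
    rw [td_univ]
    omega

theorem Lam_univ : Lam (Set.univ : Set (κ → Fˣ)) = ⊥ := by
  rw [eq_bot_iff]
  rintro m ⟨N, hN, h⟩
  have h1 : bn F ((N : ℤ) • m) ∈ vI F (Set.univ : Set (κ → Fˣ)) := by
    rw [mem_vI]
    intro x hx
    rw [aeval_bn, ch_zsmul, zpow_natCast]
    exact h x hx
  rw [vI_univ] at h1
  have h2 := bn_eq_zero (Ideal.mem_bot.mp h1)
  rw [smul_eq_zero] at h2
  rcases h2 with h3 | h3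
  · omega
  · exact h3

end Cut

end Pool.Agent.MP_dd1803_nt
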