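import Mathlib
import Pool.Agent.MP_dd1803_nt.Defect

open MvPolynomial

namespace Pool.Agent.MP_dd1803_nt

section IndProd

variable {F : Type} [Field F] {κ κ' : Type} {k : Type} [Field k] [Algebra k F]

/-- Partial evaluation of a polynomial in two groups of variables. -/
theorem aeval_sum_eq {ι ι' : Type} (p : MvPolynomial (ι ⊕ ι') k) (x : ι → F) (y : ι' → F) :
    aeval (Sum.elim x y) p = aeval x (MvPolynomial.map (aeval y : MvPolynomial ι' k →ₐ[k] F).toRingHom
      (sumAlgEquiv k ι ι' p)) := by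
  induction p using MvPolynomial.induction_on with
  | C c =>
    simp
  | add p q hp hq => simp only [map_add, hp, hq]
  | mul_X p i hp =>
    simp only [map_mul, hp]
    rcases i with i | i
    · simp
    · simp

theorem IndF.prod {A : Set (κ → Fˣ)} {B : Set (κ' → Fˣ)} {ι ι' : Type} {f : ι → κ} {g : ι' → κ'}
    (hA : IndF F A f) (hB : IndF k B g) : IndF k (prodSet A B) (Sum.map f g) := by
  intro p hp
  have h1 : sumAlgEquiv k ι ι' p = 0 := by
    ext m : 1
    rw [coeff_zero]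
    apply hB
    intro b hb
    have h2 : MvPolynomial.map (aeval (fun i : ι' => co b (g i)) : MvPolynomial ι' k →ₐ[k] F).toRingHom
      (sumAlgEquiv k ι ι' p) = 0 := by
      apply hA
      intro a ha
      rw [← aeval_sum_eq]
      have h3 := hp (Sum.elim a b) (elim_mem_prodSet.mpr ⟨ha, hb⟩)
      have h4 : (fun i => co (Sum.elim a b) (Sum.map f g i)) =
          Sum.elim (fun i => co a (f i)) (fun i => co b (g i)) := by
        funext i
        rcases i with i | i <;> rfl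
      rw [h4] at h3
      exact h3
    have h5 := congrArg (coeff m) h2
    rw [coeff_map, coeff_zero] at h5
    exact h5
  exact (map_eq_zero_iff _ (sumAlgEquiv k ι ι').injective).mp h1

theorem IndF.image {S : Set (κ → Fˣ)} {Φ : (κ → Fˣ) → (κ' → Fˣ)} {ι : Type} {f : ι → κ}
    {g : ι → κ'} (h : IndF k S f) (hΦ : ∀ x ∈ S, ∀ i, Φ x (g i) = x (f i)) :
    IndF k (Φ '' S) g := by
  intro p hp
  apply h
  intro x hx
  have h1 := hp (Φ x) ⟨x, hx, rfl⟩
  have h2 : (fun i => co (Φ x) (g i)) = fun i => co x (f i) := by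
    funext i
    rw [co_apply, co_apply, hΦ x hx i]
  rw [h2] at h1
  exact h1

end IndProd

section CdProd

variable {F : Type} [Field F] {κ κ' : Type} [Fintype κ] [Fintype κ']

theorem td_prod_ge {k : Type} [Field k] [Algebra k F] {A : Set (κ → Fˣ)} {B : Set (κ' → Fˣ)}
    (hA : PIrr A) (hB : PIrr B) : td F A + td k B ≤ td k (prodSet A B) := by
  obtain ⟨s, hs, hc⟩ := exists_basis' (k := F) hA
  obtain ⟨t, ht, hd⟩ := exists_basis' (k := k) hB
  rw [ind_iff_indF] at hs ht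
  have h1 := (hs.prod ht).card_le (hA.prodSet hB)
  rw [Nat.card_sum, Nat.card_coe_set_eq, Nat.card_coe_set_eq, hc, hd] at h1
  exact h1

/-- extension of exponent vectors by zero -/
def inlM : (κ → ℤ) →ₗ[ℤ] (κ ⊕ κ' → ℤ) where
  toFun m := Sum.elim m 0
  map_add' m n := by
    funext i
    rcases i with i | i <;> simp
  map_smul' a m := by
    funext i
    rcases i with i | i <;> simp

def inrM : (κ' → ℤ) →ₗ[ℤ] (κ ⊕ κ' → ℤ) where
  toFun m := Sum.elim 0 m
  map_add' m n := by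
    funext i
    rcases i with i | i <;> simp
  map_smul' a m := by
    funext i
    rcases i with i | i <;> simp

theorem ch_sum (m : κ ⊕ κ' → ℤ) (x : κ ⊕ κ' → Fˣ) :
    ch m x = ch (m ∘ Sum.inl) (x ∘ Sum.inl) * ch (m ∘ Sum.inr) (x ∘ Sum.inr) := by
  unfold ch
  rw [Fintype.prod_sum_type]
  rfl

theorem ch_inlM (m : κ → ℤ) (x : κ ⊕ κ' → Fˣ) : ch (inlM m) x = ch m (x ∘ Sum.inl) := by
  rw [ch_sum]
  have h1 : (inlM m : κ ⊕ κ' → ℤ) ∘ Sum.inr = 0 := rfl
  have h2 : (inlM m : κ ⊕ κ' → ℤ) ∘ Sum.inl = m := rfl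
  rw [h1, h2, ch_zero, mul_one]

theorem ch_inrM (m : κ' → ℤ) (x : κ ⊕ κ' → Fˣ) : ch (inrM m) x = ch m (x ∘ Sum.inr) := by
  rw [ch_sum]
  have h1 : (inrM m : κ ⊕ κ' → ℤ) ∘ Sum.inr = m := rfl
  have h2 : (inrM m : κ ⊕ κ' → ℤ) ∘ Sum.inl = 0 := rfl
  rw [h1, h2, ch_zero, one_mul]

theorem finrank_prod_le {A : Submodule ℤ (κ → ℤ)} {B : Submodule ℤ (κ' → ℤ)}
    {C : Submodule ℤ (κ ⊕ κ' → ℤ)}
    (f : (A × B) →ₗ[ℤ] C) (hf : Function.Injective f) :
    Module.finrank ℤ A + Module.finrank ℤ B ≤ Module.finrank ℤ C := by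
  have h1 := LinearMap.finrank_le_finrank_of_injective hf
  rwa [Module.finrank_prod] at h1

theorem rk_prod_ge (A : Set (κ → Fˣ)) (B : Set (κ' → Fˣ)) : rk A + rk B ≤ rk (prodSet A B) := by
  let f : (Lam A × Lam B) →ₗ[ℤ] Lam (prodSet A B) :=
    LinearMap.codRestrict (Lam (prodSet A B))
      ((inlM (κ' := κ')).comp ((Lam A).subtype.comp (LinearMap.fst ℤ _ _)) +
        (inrM (κ := κ)).comp ((Lam B).subtype.comp (LinearMap.snd ℤ _ _))) (by
      rintro ⟨⟨m, hm⟩, ⟨n, hn⟩⟩
      apply Submodule.add_mem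
      · obtain ⟨N, hN, h⟩ := hm
        exact ⟨N, hN, fun x hx => by
          simp only [LinearMap.comp_apply, LinearMap.fst_apply, Submodule.subtype_apply]
          rw [ch_inlM]
          exact h _ hx.1⟩
      · obtain ⟨N, hN, h⟩ := hn
        exact ⟨N, hN, fun x hx => by
          simp only [LinearMap.comp_apply, LinearMap.snd_apply, Submodule.subtype_apply]
          rw [ch_inrM]
          exact h _ hx.2⟩)
  apply finrank_prod_le f
  rintro ⟨⟨m, hm⟩, ⟨n, hn⟩⟩ ⟨⟨m', hm'⟩, ⟨n', hn'⟩⟩ h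
  have h1 : (inlM m + inrM n : κ ⊕ κ' → ℤ) = inlM m' + inrM n' := congrArg Subtype.val h
  have h2 : m = m' := by
    funext i
    have := congrFun h1 (Sum.inl i)
    simpa [inlM, inrM] using this
  have h3 : n = n' := by
    funext i
    have := congrFun h1 (Sum.inr i)
    simpa [inlM, inrM] using this
  subst h2
  subst h3
  rfl

theorem cd_prod_ge {A : Set (κ → Fˣ)} {B : Set (κ' → Fˣ)} (hA : PIrr A) (hB : PIrr B) :
    cd A + cd B ≤ cd (prodSet A B) := by
  have h1 := rk_prod_ge A B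
  have h2 := td_prod_ge (k := F) hA hB
  unfold cd
  omega

end CdProd

end Pool.Agent.MP_dd1803_nt
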