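import Mathlib
import Pool.Agent.MP_dd1803_nt.Prod

open MvPolynomial

namespace Pool.Agent.MP_dd1803_nt

section Push

variable {F : Type} [Field F] {κ κ' : Type}

theorem PIrr.pull {X : Set (κ → Fˣ)} (hX : PIrr X) (e : κ' → κ) : PIrr (pull e '' X) :=
  hX.image (ratMap_pull _ _)

theorem zpow_sum' {G ι : Type} [CommGroup G] (s : Finset ι) (x : G) (f : ι → ℤ) :
    x ^ (∑ j ∈ s, f j) = ∏ j ∈ s, x ^ f j := by
  classical
  induction s using Finset.induction_on with
  | empty => simp
  | insert a s ha ih => rw [Finset.sum_insert ha, Finset.prod_insert ha, zpow_add, ih]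

variable [Fintype κ] [Fintype κ']

open Classical in
/-- extension of exponent vectors by zero along a map -/
noncomputable def extM (e : κ' → κ) : (κ' → ℤ) →ₗ[ℤ] (κ → ℤ) where
  toFun m := fun i => ∑ j, if e j = i then m j else 0
  map_add' m n := by
    funext i
    simp only [Pi.add_apply]
    rw [← Finset.sum_add_distrib]
    apply Finset.sum_congr rfl
    intro j _
    split_ifs <;> simp
  map_smul' a m := by
    funext i
    simp only [Pi.smul_apply, smul_eq_mul, RingHom.id_apply]
    rw [Finset.mul_sum]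
    apply Finset.sum_congr rfl
    intro j _
    split_ifs <;> simp

omit [Fintype κ] in
open Classical in
theorem extM_apply (e : κ' → κ) (m : κ' → ℤ) (i : κ) :
    extM e m i = ∑ j, if e j = i then m j else 0 := rfl

omit [Fintype κ] in
theorem extM_apply_self {e : κ' → κ} (he : Function.Injective e) (m : κ' → ℤ) (j : κ') :
    extM e m (e j) = m j := by
  classical
  rw [extM_apply, Finset.sum_eq_single j]
  · simp
  · intro j' _ hj'
    rw [if_neg]
    intro h
    exact hj' (he h)
  · intro h
    exact absurd (Finset.mem_univ j) h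

omit [Fintype κ] in
theorem extM_apply_notMem {e : κ' → κ} (m : κ' → ℤ) {i : κ} (hi : i ∉ Set.range e) :
    extM e m i = 0 := by
  classical
  rw [extM_apply]
  apply Finset.sum_eq_zero
  intro j _
  rw [if_neg]
  intro h
  exact hi ⟨j, h⟩

omit [Fintype κ] in
theorem extM_comp {e : κ' → κ} (he : Function.Injective e) (m : κ → ℤ)
    (hm : ∀ i, i ∉ Set.range e → m i = 0) : extM e (m ∘ e) = m := by
  funext i
  by_cases hi : i ∈ Set.range e
  · obtain ⟨j, rfl⟩ := hi
    rw [extM_apply_self he]
    rfl
  · rw [extM_apply_notMem _ hi, hm i hi]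

theorem ch_pull (e : κ' → κ) (m : κ' → ℤ) (x : κ → Fˣ) : ch m (pull e x) = ch (extM e m) x := by
  classical
  unfold ch pull
  simp only [Function.comp_apply, extM_apply]
  have h1 : ∀ i, x i ^ (∑ j, if e j = i then m j else 0) = ∏ j, (if e j = i then x i ^ m j else 1) := by
    intro i
    rw [zpow_sum']
    apply Finset.prod_congr rfl
    intro j _
    split_ifs <;> simp
  simp only [h1]
  rw [Finset.prod_comm]
  apply Finset.prod_congr rfl
  intro j _
  rw [Finset.prod_ite_eq]
  simp

theorem extM_mem_Lam {X : Set (κ → Fˣ)} {e : κ' → κ} {m : κ' → ℤ} :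
    extM e m ∈ Lam X ↔ m ∈ Lam (pull e '' X) := by
  rw [mem_Lam, mem_Lam]
  apply exists_congr
  intro N
  apply and_congr_right
  intro _
  rw [Set.forall_mem_image]
  simp only [ch_pull]

/-- Characters supported on the image of `e`. -/
theorem comp_mem_Lam {X : Set (κ → Fˣ)} {e : κ' → κ} (he : Function.Injective e) {m : κ → ℤ}
    (hm : m ∈ Lam X) (h0 : ∀ i, i ∉ Set.range e → m i = 0) : m ∘ e ∈ Lam (pull e '' X) := by
  rw [← extM_mem_Lam, extM_comp he m h0]
  exact hm

/-- If all characters in `Lam X` are supported on the image of `e`, the rank is not larger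
than the rank of the projection. -/
theorem rk_le_of_supp {X : Set (κ → Fˣ)} {e : κ' → κ} (he : Function.Injective e)
    (h0 : ∀ m ∈ Lam X, ∀ i, i ∉ Set.range e → m i = 0) : rk X ≤ rk (pull e '' X) := by
  let f : Lam X →ₗ[ℤ] Lam (pull e '' X) :=
    LinearMap.codRestrict _ ((LinearMap.funLeft ℤ ℤ e).comp (Lam X).subtype) (by
      rintro ⟨m, hm⟩
      exact comp_mem_Lam he hm (h0 m hm))
  apply LinearMap.finrank_le_finrank_of_injective (f := f)
  rw [injective_iff_map_eq_zero]
  rintro ⟨m, hm⟩ hf
  apply Subtype.ext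
  funext i
  by_cases hi : i ∈ Set.range e
  · obtain ⟨j, rfl⟩ := hi
    exact congrFun (congrArg Subtype.val hf) j
  · exact h0 m hm i hi

theorem rk_le_add_one {X : Set (κ → Fˣ)} {e : κ' → κ} (he : Function.Injective e) {i0 : κ}
    (hR : ∀ j, j ∈ Set.range e ∨ j = i0) : rk X ≤ rk (pull e '' X) + 1 := by
  let f : Lam X →ₗ[ℤ] ℤ := (LinearMap.proj i0).comp (Lam X).subtype
  have h1 := finrank_le_ker_add f
  have h2 : Module.finrank ℤ (LinearMap.range f) ≤ 1 := by
    have := Submodule.finrank_le (LinearMap.range f)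
    rwa [Module.finrank_self] at this
  have h3 : Module.finrank ℤ (LinearMap.ker f) ≤ rk (pull e '' X) := by
    let g : LinearMap.ker f →ₗ[ℤ] Lam (pull e '' X) :=
      LinearMap.codRestrict _ (((LinearMap.funLeft ℤ ℤ e).comp (Lam X).subtype).comp
        (LinearMap.ker f).subtype) (by
        rintro ⟨⟨m, hm⟩, hm0⟩
        apply comp_mem_Lam he hm
        intro i hi
        rcases hR i with h | h
        · exact absurd h hi
        · rw [h]
          exact hm0)
    apply LinearMap.finrank_le_finrank_of_injective (f := g)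
    rw [injective_iff_map_eq_zero]
    rintro ⟨⟨m, hm⟩, hm0⟩ hf
    apply Subtype.ext
    apply Subtype.ext
    funext i
    rcases hR i with h | h
    · obtain ⟨j, rfl⟩ := h
      exact congrFun (congrArg Subtype.val hf) j
    · rw [h]
      exact hm0
  unfold rk at *
  omega

end Push

section TdPull

variable {F : Type} [Field F] {κ κ' : Type} {k : Type} [Field k] [Algebra k F]

theorem IndF.comp {X : Set (κ → Fˣ)} {ι ι' : Type} {f : ι → κ} (h : IndF k X f) (g : ι' → ι)
    (hg : Function.Injective g) : IndF k X (f ∘ g) := by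
  rw [indF_iff] at *
  exact AlgebraicIndependent.comp h g hg

theorem td_le_pull [Finite κ] [Finite κ'] {X : Set (κ → Fˣ)} (hX : PIrr X) {e : κ' → κ}
    (he : Function.Injective e) (s0 : Set κ)
    (halg : ∀ i, IsAlgebraic (Algebra.adjoin k (gen k X '' s0)) (gen k X i)) :
    td k X ≤ td k (pull e '' X) + (s0 \ Set.range e).ncard := by
  obtain ⟨s, hs0, hs, hc⟩ := exists_basis hX s0 halg
  have h1 : (s ∩ Set.range e).ncard ≤ td k (pull e '' X) := by
    rw [ind_iff_indF] at hs
    have h2 := hs.comp (fun j : (e ⁻¹' s : Set κ') => (⟨e j.1, j.2⟩ : s)) (by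
      intro a b hab
      exact Subtype.ext (he (Subtype.ext_iff.mp hab)))
    have h3 : IndF k (pull e '' X) (Subtype.val : (e ⁻¹' s : Set κ') → κ') :=
      h2.image (Φ := pull e) (fun x _ i => rfl)
    have h4 := h3.card_le (hX.pull e)
    rw [Nat.card_coe_set_eq] at h4
    have h5 : s ∩ Set.range e = e '' (e ⁻¹' s) := by
      rw [Set.image_preimage_eq_inter_range]
    rw [h5, Set.ncard_image_of_injective _ he]
    exact h4
  have h2 : (s \ Set.range e).ncard ≤ (s0 \ Set.range e).ncard :=
    Set.ncard_le_ncard (Set.sdiff_subset_sdiff_left hs0) (Set.toFinite _)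
  have h3 : s.ncard = (s ∩ Set.range e).ncard + (s \ Set.range e).ncard :=
    (Set.ncard_inter_add_ncard_sdiff_eq_ncard s _ (Set.toFinite _)).symm
  omega

theorem td_le_pull' [Finite κ] [Finite κ'] {X : Set (κ → Fˣ)} (hX : PIrr X) {e : κ' → κ}
    (he : Function.Injective e) : td k X ≤ td k (pull e '' X) + (Set.range e)ᶜ.ncard := by
  have hP := vI_isPrime (k := k) hX
  have hne : Nontrivial (MvPolynomial κ k ⧸ vI k X) := inferInstance
  have h1 := td_le_pull (k := k) hX he Set.univ (fun i =>
    isAlgebraic_algebraMap (⟨gen k X i, Algebra.subset_adjoin ⟨i, trivial, rfl⟩⟩ :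
      Algebra.adjoin k (gen k X '' Set.univ)))
  rwa [← Set.compl_eq_univ_sdiff] at h1

end TdPull

end Pool.Agent.MP_dd1803_nt
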