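import Mathlib
import Pool.Agent.MP_dd1803_nt.Push

open MvPolynomial

namespace Pool.Agent.MP_dd1803_nt

section Alg

theorem isAlgebraic_of_mul_pow {A B : Type} [CommRing A] [CommRing B] [Algebra A B] [Nontrivial A]
    {y : B} {a b : A} (ha : a ≠ 0) {d : ℕ} (hd : d ≠ 0)
    (h : algebraMap A B a * y ^ d = algebraMap A B b) : IsAlgebraic A y := by
  refine ⟨Polynomial.C a * Polynomial.X ^ d - Polynomial.C b, ?_, ?_⟩
  · intro h0
    have h1 := congrArg (fun p => Polynomial.coeff p d) h0
    simp only [Polynomial.coeff_sub, Polynomial.coeff_C_mul, Polynomial.coeff_X_pow, if_true,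
      mul_one, Polynomial.coeff_zero, Polynomial.coeff_C, if_neg hd, sub_zero] at h1
    exact ha h1
  · simp [h]

end Alg

section Gen

variable {F : Type} [Field F] {κ : Type} [Fintype κ] {k : Type} [Field k] [Algebra k F]

theorem gen_ne_zero {X : Set (κ → Fˣ)} (hX : PIrr X) (i : κ) : gen k X i ≠ 0 := by
  intro h
  have h1 : (MvPolynomial.X i : MvPolynomial κ k) ∈ vI k X := Ideal.Quotient.eq_zero_iff_mem.mp h
  exact X_not_mem_vI hX.nonempty i h1

theorem gen_alg_of_torsion {X : Set (κ → Fˣ)} (hX : PIrr X) {m : κ → ℤ} (hm : m ∈ Lam X) {i0 : κ}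
    (h0 : m i0 ≠ 0) (s0 : Set κ) (hs0 : ∀ i, i ≠ i0 → m i ≠ 0 → i ∈ s0) :
    IsAlgebraic (Algebra.adjoin k (gen k X '' s0)) (gen k X i0) := by
  classical
  have hP := vI_isPrime (k := k) hX
  -- reduce to positive exponent
  have key : ∀ m : κ → ℤ, m ∈ Lam X → 0 < m i0 → (∀ i, i ≠ i0 → m i ≠ 0 → i ∈ s0) →
      IsAlgebraic (Algebra.adjoin k (gen k X '' s0)) (gen k X i0) := by
    rintro m ⟨N, hN, hm⟩ hpos hs0
    let n : κ → ℤ := (N : ℤ) • m
    have hn0 : 0 < n i0 := by
      simp only [n, Pi.smul_apply, smul_eq_mul]
      positivity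
    have hn : ∀ i, i ≠ i0 → n i ≠ 0 → i ∈ s0 := by
      intro i hi hni
      apply hs0 i hi
      intro h
      apply hni
      simp [n, h]
    have h1 : bn k n ∈ vI k X := by
      rw [mem_vI]
      intro x hx
      rw [aeval_bn, ch_zsmul, zpow_natCast]
      exact hm x hx
    have h2 : ∏ i, gen k X i ^ (n i).toNat = ∏ i, gen k X i ^ (-n i).toNat := by
      have h3 : Ideal.Quotient.mk (vI k X) (bn k n) = 0 := Ideal.Quotient.eq_zero_iff_mem.mpr h1
      unfold bn at h3
      rw [map_sub, map_prod, map_prod, sub_eq_zero] at h3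
      simp only [map_pow] at h3
      exact h3
    have hmem : ∀ f : κ → ℕ, (∀ i, i ≠ i0 → f i ≠ 0 → i ∈ s0) →
        ∏ i ∈ Finset.univ.erase i0, gen k X i ^ f i ∈ Algebra.adjoin k (gen k X '' s0) := by
      intro f hf
      apply Subalgebra.prod_mem
      intro i hi
      by_cases hfi : f i = 0
      · rw [hfi, pow_zero]
        exact Subalgebra.one_mem _
      · apply Subalgebra.pow_mem
        apply Algebra.subset_adjoin
        exact ⟨i, hf i (Finset.ne_of_mem_erase hi) hfi, rfl⟩
    let a : Algebra.adjoin k (gen k X '' s0) := ⟨_, hmem (fun i => (n i).toNat) (by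
      intro i hi hfi
      apply hn i hi
      intro h
      apply hfi
      simp [h])⟩
    let b : Algebra.adjoin k (gen k X '' s0) := ⟨_, hmem (fun i => (-n i).toNat) (by
      intro i hi hfi
      apply hn i hi
      intro h
      apply hfi
      simp [h])⟩
    apply isAlgebraic_of_mul_pow (a := a) (b := b) (d := (n i0).toNat)
    · intro h
      have h3 : (∏ i ∈ Finset.univ.erase i0, gen k X i ^ (n i).toNat) = 0 := congrArg Subtype.val h
      rw [Finset.prod_eq_zero_iff] at h3
      obtain ⟨i, _, hi⟩ := h3
      exact pow_ne_zero _ (gen_ne_zero hX i) hi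
    · omega
    · have h3 : (-n i0).toNat = 0 := by omega
      have h4 := h2
      rw [← Finset.mul_prod_erase Finset.univ (fun i => gen k X i ^ (n i).toNat)
        (Finset.mem_univ i0), ← Finset.mul_prod_erase Finset.univ
        (fun i => gen k X i ^ (-n i).toNat) (Finset.mem_univ i0), h3, pow_zero, one_mul,
        mul_comm] at h4
      exact h4
  rcases lt_or_gt_of_ne h0 with h | h
  · apply key (-m) ((Lam X).neg_mem hm)
    · simp only [Pi.neg_apply]
      omega
    · intro i hi hmi
      apply hs0 i hi
      intro h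
      apply hmi
      simp [h]
  · exact key m hm h hs0

end Gen

section LFour

variable {F : Type} [Field F] {κ κ' : Type} [Fintype κ] [Fintype κ']

theorem cd_pull_one {X : Set (κ → Fˣ)} (hX : PIrr X) {e : κ' → κ} (he : Function.Injective e)
    {i0 : κ} (hR : ∀ j, j ∈ Set.range e ∨ j = i0) :
    cd X ≤ cd (pull e '' X) + 1 := by
  by_cases h : ∀ m ∈ Lam X, m i0 = 0
  · have h1 : rk X ≤ rk (pull e '' X) := by
      apply rk_le_of_supp he
      intro m hm i hi
      rcases hR i with h2 | h2
      · exact absurd h2 hi
      · rw [h2]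
        exact h m hm
    have h2 := td_le_pull' (k := F) hX he
    have h3 : (Set.range e)ᶜ.ncard ≤ 1 := by
      have h4 : (Set.range e)ᶜ ⊆ {i0} := by
        intro j hj
        rcases hR j with h5 | h5
        · exact absurd h5 hj
        · exact h5
      have h5 := Set.ncard_le_ncard h4 (Set.toFinite _)
      rwa [Set.ncard_singleton] at h5
    unfold cd
    omega
  · push Not at h
    obtain ⟨m, hm, hmi⟩ := h
    have h1 := rk_le_add_one (X := X) he hR
    have h2 := td_le_pull (k := F) hX he (Set.range e) (by
      intro i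
      have hP := vI_isPrime (k := F) hX
      have hne : Nontrivial (MvPolynomial κ F ⧸ vI F X) := inferInstance
      rcases hR i with h3 | h3
      · exact isAlgebraic_algebraMap (⟨gen F X i, Algebra.subset_adjoin ⟨i, h3, rfl⟩⟩ :
          Algebra.adjoin F (gen F X '' Set.range e))
      · rw [h3]
        apply gen_alg_of_torsion hX hm hmi
        intro j hj _
        rcases hR j with h4 | h4
        · exact h4
        · exact absurd h4 hj)
    rw [Set.sdiff_self, Set.ncard_empty] at h2
    unfold cd
    omega

end LFour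

section LFourGen

variable {F : Type} [Field F]

theorem pull_pull {κ κ' κ'' : Type} (e : κ' → κ) (e' : κ'' → κ') (X : Set (κ → Fˣ)) :
    pull e' '' (pull e '' X) = pull (e ∘ e') '' X := by
  rw [Set.image_image]
  rfl

theorem cd_pull {κ κ' : Type} [Fintype κ] [Fintype κ'] {X : Set (κ → Fˣ)} (hX : PIrr X)
    {e : κ' → κ} (he : Function.Injective e) :
    cd X + Fintype.card κ' ≤ cd (pull e '' X) + Fintype.card κ := by
  classical
  have key : ∀ n : ℕ, ∀ (κ : Type) [Fintype κ] (X : Set (κ → Fˣ)) (_ : PIrr X) (e : κ' → κ)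
      (_ : Function.Injective e), Fintype.card κ = Fintype.card κ' + n →
      cd X ≤ cd (pull e '' X) + n := by
    intro n
    induction n with
    | zero =>
      intro κ _ X hX e he hc
      have hb : Function.Bijective e := (Fintype.bijective_iff_injective_and_card e).mpr
        ⟨he, by omega⟩
      have h1 := rk_le_of_supp (X := X) he (by
        intro m _ i hi
        exact absurd (hb.surjective i) hi)
      have h2 := td_le_pull' (k := F) hX he
      rw [Set.range_eq_univ.mpr hb.surjective, Set.compl_univ, Set.ncard_empty] at h2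
      unfold cd
      omega
    | succ n ih =>
      intro κ _ X hX e he hc
      have h1 : ¬ Function.Surjective e := by
        intro h2
        have := Fintype.card_le_of_surjective e h2
        omega
      rw [Function.Surjective] at h1
      push Not at h1
      obtain ⟨i0, hi0⟩ := h1
      let e1 : {j : κ // j ≠ i0} → κ := Subtype.val
      let e2 : κ' → {j : κ // j ≠ i0} := fun j => ⟨e j, hi0 j⟩
      have h3 : e = e1 ∘ e2 := rfl
      have h4 := cd_pull_one hX (e := e1) Subtype.val_injective (i0 := i0) (by
        intro j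
        by_cases hj : j = i0
        · exact Or.inr hj
        · exact Or.inl ⟨⟨j, hj⟩, rfl⟩)
      have h5 := ih {j : κ // j ≠ i0} (pull e1 '' X) (hX.pull e1) e2 (by
        intro a b hab
        exact he (Subtype.ext_iff.mp hab)) (by
        have h6 : Fintype.card {j : κ // j ≠ i0} = Fintype.card κ - 1 := by
          simp [Fintype.card_subtype_compl]
        omega)
      rw [pull_pull, ← h3] at h5
      omega
  have h1 := Fintype.card_le_of_injective e he
  have h2 := key (Fintype.card κ - Fintype.card κ') κ X hX e he (by omega)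
  omega

end LFourGen

end Pool.Agent.MP_dd1803_nt
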