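import Mathlib
import Pool.Agent.MP_dd1803_nt.Image

open MvPolynomial

namespace Pool.Agent.MP_dd1803_nt

section Mono

variable {F : Type} [Field F] {κ κ' : Type} [Fintype κ] [Fintype κ']

/-- elements of finite order -/
def Tor (c : Fˣ) : Prop := ∃ N : ℕ, 0 < N ∧ c ^ N = 1

theorem Tor.one : Tor (1 : Fˣ) := ⟨1, one_pos, one_pow 1⟩

theorem Tor.neg_one : Tor (-1 : Fˣ) := ⟨2, two_pos, by simp⟩

theorem Tor.mul {a b : Fˣ} (ha : Tor a) (hb : Tor b) : Tor (a * b) := by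
  obtain ⟨N, hN, h⟩ := ha
  obtain ⟨M, hM, h'⟩ := hb
  refine ⟨N * M, Nat.mul_pos hN hM, ?_⟩
  rw [mul_pow, pow_mul, h, one_pow, one_mul, mul_comm N, pow_mul, h', one_pow]

theorem Tor.zpow {a : Fˣ} (ha : Tor a) (n : ℤ) : Tor (a ^ n) := by
  obtain ⟨N, hN, h⟩ := ha
  refine ⟨N, hN, ?_⟩
  rw [← zpow_natCast, ← zpow_mul, mul_comm, zpow_mul, zpow_natCast, h, one_zpow]

theorem Tor.inv {a : Fˣ} (ha : Tor a) : Tor (a⁻¹) := by
  have := ha.zpow (-1)
  simpa using this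

theorem Tor.prod {ι : Type} (s : Finset ι) {f : ι → Fˣ} (h : ∀ i ∈ s, Tor (f i)) :
    Tor (∏ i ∈ s, f i) := by
  classical
  induction s using Finset.induction_on with
  | empty => simpa using Tor.one
  | insert a s ha ih =>
    rw [Finset.prod_insert ha]
    exact (h a (Finset.mem_insert_self _ _)).mul (ih fun i hi => h i (Finset.mem_insert_of_mem hi))

/-- Monomial maps, twisted by constants. -/
def mono (a : κ' → κ → ℤ) (c : κ' → Fˣ) (x : κ → Fˣ) : κ' → Fˣ := fun j => c j * ch (a j) x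

theorem ratMap_mono (S : Set (κ → Fˣ)) (a : κ' → κ → ℤ) (c : κ' → Fˣ) : RatMap S (mono a c) := by
  intro j
  have := (ratOn_const S (c j : F)).mul (ratOn_ch S (a j))
  simpa [mono] using this

theorem ch_finset_sum {ι : Type} (s : Finset ι) (f : ι → κ → ℤ) (x : κ → Fˣ) :
    ch (∑ j ∈ s, f j) x = ∏ j ∈ s, ch (f j) x := by
  classical
  induction s using Finset.induction_on with
  | empty => simp [ch_zero]
  | insert a s ha ih => rw [Finset.sum_insert ha, Finset.prod_insert ha, ch_add, ih]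

/-- the graph map -/
def gr (u : (κ → Fˣ) → (κ' → Fˣ)) (x : κ → Fˣ) : κ ⊕ κ' → Fˣ := Sum.elim x (u x)

theorem RatMap.gr {S : Set (κ → Fˣ)} {u : (κ → Fˣ) → (κ' → Fˣ)} (h : RatMap S u) :
    RatMap S (gr u) := by
  rintro (i | i)
  · exact ratOn_coord S i
  · exact h i

theorem pull_inl_gr (u : (κ → Fˣ) → (κ' → Fˣ)) (X : Set (κ → Fˣ)) :
    pull Sum.inl '' (gr u '' X) = X := by
  rw [Set.image_image]
  have : (fun x => pull Sum.inl (gr u x)) = id := rfl
  rw [this, Set.image_id]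

theorem pull_inr_gr (u : (κ → Fˣ) → (κ' → Fˣ)) (X : Set (κ → Fˣ)) :
    pull Sum.inr '' (gr u '' X) = u '' X := by
  rw [Set.image_image]
  rfl

theorem rk_graph {X : Set (κ → Fˣ)} (a : κ' → κ → ℤ) (c : κ' → Fˣ) (hc : ∀ j, Tor (c j)) :
    rk X + Fintype.card κ' ≤ rk (gr (mono a c) '' X) := by
  let g : (κ' → ℤ) →ₗ[ℤ] (κ → ℤ) := Fintype.linearCombination ℤ a
  have hg : ∀ (n : κ' → ℤ) (x : κ → Fˣ), ch (g n) x = ∏ j, ch (a j) x ^ n j := by
    intro n x
    rw [Fintype.linearCombination_apply, ch_finset_sum]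
    exact Finset.prod_congr rfl fun j _ => ch_zsmul _ _ _
  let f : (Lam X × (⊤ : Submodule ℤ (κ' → ℤ))) →ₗ[ℤ] Lam (gr (mono a c) '' X) :=
    LinearMap.codRestrict (Lam (gr (mono a c) '' X))
      ((inlM (κ' := κ')).comp ((Lam X).subtype.comp (LinearMap.fst ℤ _ _)) +
        ((inrM (κ := κ)) - (inlM (κ' := κ')).comp g).comp
          ((Submodule.subtype _).comp (LinearMap.snd ℤ _ _))) (by
      rintro ⟨⟨m, hm⟩, ⟨n, hn⟩⟩
      apply Submodule.add_mem
      · obtain ⟨N, hN, h⟩ := hm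
        refine ⟨N, hN, ?_⟩
        rintro _ ⟨x, hx, rfl⟩
        simp only [LinearMap.comp_apply, LinearMap.fst_apply, Submodule.subtype_apply]
        rw [ch_inlM]
        exact h _ hx
      · obtain ⟨N, hN, h⟩ := Tor.prod (F := F) Finset.univ (f := fun j => c j ^ n j)
          (fun j _ => (hc j).zpow _)
        refine ⟨N, hN, ?_⟩
        rintro _ ⟨x, hx, rfl⟩
        simp only [LinearMap.comp_apply, LinearMap.snd_apply, Submodule.subtype_apply,
          LinearMap.sub_apply]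
        rw [sub_eq_add_neg, ch_add, ch_neg, ch_inlM, ch_inrM, hg]
        have h1 : (gr (mono a c) x) ∘ Sum.inl = x := rfl
        have h2 : (gr (mono a c) x) ∘ Sum.inr = mono a c x := rfl
        rw [h1, h2]
        have h3 : ch n (mono a c x) = (∏ j, c j ^ n j) * ∏ j, ch (a j) x ^ n j := by
          unfold ch mono
          rw [← Finset.prod_mul_distrib]
          exact Finset.prod_congr rfl fun j _ => mul_zpow _ _ _
        rw [h3, mul_inv_cancel_right, h])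
  have h1 := finrank_prod_le f (by
    rintro ⟨⟨m, hm⟩, ⟨n, hn⟩⟩ ⟨⟨m', hm'⟩, ⟨n', hn'⟩⟩ h
    have h1 : (inlM m + (inrM n - inlM (g n)) : κ ⊕ κ' → ℤ) = inlM m' + (inrM n' - inlM (g n')) :=
      congrArg Subtype.val h
    have h3 : n = n' := by
      funext i
      have := congrFun h1 (Sum.inr i)
      simpa [inlM, inrM] using this
    subst h3
    have h2 : m = m' := by
      funext i
      have := congrFun h1 (Sum.inl i)
      simpa [inlM, inrM] using this
    subst h2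
    rfl)
  rw [finrank_top, Module.finrank_fintype_fun_eq_card] at h1
  exact h1

theorem cd_graph {X : Set (κ → Fˣ)} (hX : PIrr X) (a : κ' → κ → ℤ) (c : κ' → Fˣ)
    (hc : ∀ j, Tor (c j)) : cd X + Fintype.card κ' ≤ cd (gr (mono a c) '' X) := by
  have h1 := rk_graph (X := X) a c hc
  have h2 : td F X ≤ td F (gr (mono a c) '' X) := by
    obtain ⟨s, hs, hd⟩ := exists_basis' (k := F) hX
    rw [ind_iff_indF] at hs
    have h3 : IndF F (gr (mono a c) '' X) (fun i : s => (Sum.inl i.1 : κ ⊕ κ')) :=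
      hs.image (fun x _ i => rfl)
    have h4 := h3.card_le (hX.image (ratMap_mono X a c).gr)
    rw [Nat.card_coe_set_eq, hd] at h4
    exact h4
  unfold cd
  omega

/-- The defect does not increase under monomial maps. -/
theorem cd_image_mono {X : Set (κ → Fˣ)} (hX : PIrr X) (a : κ' → κ → ℤ) (c : κ' → Fˣ)
    (hc : ∀ j, Tor (c j)) :
    cd X + Fintype.card κ' ≤ cd (mono a c '' X) + Fintype.card κ := by
  have h1 := cd_graph hX a c hc
  have h2 := cd_pull (hX.image (ratMap_mono X a c).gr) (e := (Sum.inr : κ' → κ ⊕ κ'))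
    Sum.inr_injective
  rw [pull_inr_gr, Fintype.card_sum] at h2
  omega

/-- The defect does not increase under pullback by monomial maps. -/
theorem cd_preimage_mono [IsAlgClosed F] {Z' : Set (κ' → Fˣ)} (hZ' : Irr Z') (a : κ' → κ → ℤ)
    (c : κ' → Fˣ) (hc : ∀ j, Tor (c j)) {Y : Set (κ → Fˣ)} (hY : Comp (mono a c ⁻¹' Z') Y) :
    cd Z' + Fintype.card κ ≤ cd Y + Fintype.card κ' := by
  classical
  let Z0 : Set (κ ⊕ κ' → Fˣ) := prodSet Set.univ Z'
  have hZ0 : Irr Z0 := (irr_univ (F := F)).prodSet hZ'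
  let M : κ' → (κ ⊕ κ' → ℤ) := fun j => inrM (Pi.single j 1) - inlM (a j)
  have hM : ∀ y : κ ⊕ κ' → Fˣ, (∀ j ∈ (Finset.univ : Finset κ'), ch (M j) y = c j) ↔
      y ∘ Sum.inr = mono a c (y ∘ Sum.inl) := by
    intro y
    simp only [Finset.mem_univ, true_implies]
    rw [funext_iff]
    apply forall_congr'
    intro j
    simp only [M]
    rw [sub_eq_add_neg, ch_add, ch_neg, ch_inlM, ch_inrM, ch_single, zpow_one,
      mul_inv_eq_iff_eq_mul]
    rfl
  have hcl : ZClosed (Z0 ∩ {y | ∀ j ∈ (Finset.univ : Finset κ'), ch (M j) y = c j}) := by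
    apply hZ0.closed.inter
    have : {y : κ ⊕ κ' → Fˣ | ∀ j ∈ (Finset.univ : Finset κ'), ch (M j) y = c j} =
        ⋂ j, {y | ch (M j) y = c j} := by
      ext y
      simp
    rw [this]
    exact ZClosed.iInter fun j => zclosed_ch _ _
  have hgr : PIrr (gr (mono a c) '' Y) := hY.irr.pirr.image (ratMap_mono Y a c).gr
  obtain ⟨Y2, hY2, hsub⟩ := exists_comp hcl hgr.cl (cl_subset (by
    rintro _ ⟨x, hx, rfl⟩
    refine ⟨⟨trivial, hY.subset hx⟩, ?_⟩
    rw [Set.mem_ofPred_eq, hM]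
    rfl) hcl)
  have h1 := cut (F := F) Finset.univ M c (fun j _ => hc j) hZ0 hY2
  have h2 : cd (Set.univ : Set (κ → Fˣ)) + cd Z' ≤ cd Z0 :=
    cd_prod_ge (irr_univ (F := F)).pirr hZ'.pirr
  rw [cd_univ] at h2
  have h3 := cd_pull hY2.irr.pirr (e := (Sum.inl : κ → κ ⊕ κ')) Sum.inl_injective
  have h4 : cl F (pull Sum.inl '' Y2) = Y := by
    symm
    apply hY.eq_of_subset (hY2.irr.pirr.pull _).cl
    · apply cl_subset _ ((ratMap_mono Set.univ a c).preimage_closed hZ'.closed)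
      rintro _ ⟨y, hy, rfl⟩
      have h5 := hY2.subset hy
      have h6 := (hM y).mp h5.2
      have h7 : y ∘ Sum.inr ∈ Z' := h5.1.2
      rw [h6] at h7
      exact h7
    · rw [← pull_inl_gr (mono a c) Y]
      exact (Set.image_mono ((subset_cl (k := F) _).trans hsub)).trans (subset_cl _)
  rw [← cd_cl (pull Sum.inl '' Y2), h4, Fintype.card_sum] at h3
  omega

end Mono

section Max

variable {F : Type} [Field F] {κ κ' : Type} [Fintype κ] [Fintype κ']

/-- The maximal irreducible closed subsets of `V` of defect less than `e`. -/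
def MaxE (e : ℕ) (V : Set (κ → Fˣ)) : Set (Set (κ → Fˣ)) :=
  {X | Maximal (fun X => Irr X ∧ X ⊆ V ∧ Fintype.card κ < cd X + e) X}

theorem mem_maxE {e : ℕ} {V X : Set (κ → Fˣ)} :
    X ∈ MaxE e V ↔ Maximal (fun X => Irr X ∧ X ⊆ V ∧ Fintype.card κ < cd X + e) X := by
  unfold MaxE
  rw [Set.mem_ofPred_eq]

theorem exists_maxE [IsAlgClosed F] {e : ℕ} {V X : Set (κ → Fˣ)} (hX : Irr X) (hXV : X ⊆ V)
    (hd : Fintype.card κ < cd X + e) : ∃ Y ∈ MaxE e V, X ⊆ Y := by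
  classical
  -- choose one of maximal dimension
  have h1 : ∃ n : ℕ, ∃ Y, (Irr Y ∧ Y ⊆ V ∧ Fintype.card κ < cd Y + e) ∧ X ⊆ Y ∧
      Nat.card κ - td F Y = n := ⟨_, X, ⟨hX, hXV, hd⟩, le_rfl, rfl⟩
  obtain ⟨Y, hY, hXY, hn⟩ := Nat.find_spec h1
  refine ⟨Y, mem_maxE.mpr ⟨hY, ?_⟩, hXY⟩
  intro Z hZ hYZ
  have h2 : td F Z ≤ td F Y := by
    by_contra hcon
    push Not at hcon
    have h3 := td_le_card (k := F) hZ.1.pirr
    have h4 := Nat.find_min' h1 ⟨Z, hZ, hXY.trans hYZ, rfl⟩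
    rw [← hn] at h4
    omega
  exact (eq_of_td_le hY.1 hZ.1 hYZ h2).ge

theorem MaxE.irr {e : ℕ} {V X : Set (κ → Fˣ)} (h : X ∈ MaxE e V) : Irr X := (mem_maxE.mp h).prop.1

theorem MaxE.subset {e : ℕ} {V X : Set (κ → Fˣ)} (h : X ∈ MaxE e V) : X ⊆ V :=
  (mem_maxE.mp h).prop.2.1

theorem MaxE.lt {e : ℕ} {V X : Set (κ → Fˣ)} (h : X ∈ MaxE e V) :
    Fintype.card κ < cd X + e := (mem_maxE.mp h).prop.2.2

theorem MaxE.eq {e : ℕ} {V X Y : Set (κ → Fˣ)} (h : X ∈ MaxE e V) (hY : Irr Y) (hYV : Y ⊆ V)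
    (hd : Fintype.card κ < cd Y + e) (hXY : X ⊆ Y) : X = Y :=
  Maximal.eq_of_subset (mem_maxE.mp h) ⟨hY, hYV, hd⟩ hXY

/-- Finiteness passes to preimages under monomial maps. -/
theorem finite_maxE_preimage [IsAlgClosed F] {e : ℕ} {V : Set (κ' → Fˣ)} (hV : ZClosed V)
    (a : κ' → κ → ℤ) (c : κ' → Fˣ) (hc : ∀ j, Tor (c j)) (hfin : (MaxE e V).Finite) :
    (MaxE e (mono a c ⁻¹' V)).Finite := by
  have h1 : (⋃ Z ∈ MaxE e V, {Y | Comp (mono a c ⁻¹' Z) Y}).Finite := by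
    apply hfin.biUnion
    intro Z hZ
    exact finite_comp ((ratMap_mono Set.univ a c).preimage_closed (MaxE.irr hZ).closed)
  apply h1.subset
  intro X hX
  have hXi := MaxE.irr hX
  have hu : PIrr (mono a c '' X) := hXi.pirr.image (ratMap_mono X a c)
  obtain ⟨Z, hZ, hsub⟩ := exists_maxE (e := e) hu.cl (cl_subset (by
    rintro _ ⟨x, hx, rfl⟩
    exact MaxE.subset hX hx) hV) (by
    rw [cd_cl]
    have h2 := cd_image_mono hXi.pirr a c hc
    have h3 := MaxE.lt hX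
    omega)
  have hcl := (ratMap_mono Set.univ a c).preimage_closed (MaxE.irr hZ).closed
  obtain ⟨Y, hY, hXY⟩ := exists_comp hcl hXi (by
    intro x hx
    exact hsub (subset_cl _ ⟨x, hx, rfl⟩))
  have h2 := cd_preimage_mono (MaxE.irr hZ) a c hc hY
  have h3 := MaxE.lt hZ
  have h4 : X = Y := by
    apply MaxE.eq hX hY.irr
    · intro y hy
      exact MaxE.subset hZ (hY.subset hy)
    · omega
    · exact hXY
  rw [Set.mem_iUnion₂]
  exact ⟨Z, hZ, h4 ▸ hY⟩

/-- The abstract extension lemma. -/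
theorem finite_maxE_of_ext [IsAlgClosed F] {e e' D : ℕ} {V : Set (κ → Fˣ)} (hV : ZClosed V)
    {V' : Set (κ' → Fˣ)}
    (j : κ → κ') (hj : Function.Injective j) (he : e' + Fintype.card κ + D = e + Fintype.card κ')
    (hfin : (MaxE e' V').Finite)
    (H : ∀ X ∈ MaxE e V, ∃ X' : Set (κ' → Fˣ), Irr X' ∧ X' ⊆ V' ∧ X ⊆ cl F (pull j '' X') ∧
      rk X ≤ rk X' ∧ td F X + D ≤ td F X' ∧ (∀ m ∈ Lam X', ∀ i, i ∉ Set.range j → m i = 0) ∧
      ∀ Y : Set (κ' → Fˣ), Irr Y → Y ⊆ V' → X' ⊆ Y → Fintype.card κ' < cd Y + e' →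
        pull j '' Y ⊆ V ∧ td F Y ≤ td F (pull j '' Y) + D) :
    (MaxE e V).Finite := by
  apply (hfin.image fun Y => cl F (pull j '' Y)).subset
  intro X hX
  obtain ⟨X', h1, h2, h3, h4, h5, h6, h7⟩ := H X hX
  have h8 := MaxE.lt hX
  obtain ⟨Y, hY, hXY⟩ := exists_maxE (e := e') h1 h2 (by
    unfold cd at *
    omega)
  obtain ⟨h9, h10⟩ := h7 Y (MaxE.irr hY) (MaxE.subset hY) hXY (MaxE.lt hY)
  refine ⟨Y, hY, ?_⟩
  symm
  apply MaxE.eq hX ((MaxE.irr hY).pirr.pull j).cl (cl_subset h9 hV)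
  · have h11 : rk Y ≤ rk (pull j '' Y) := by
      apply rk_le_of_supp hj
      intro m hm
      exact h6 m (Lam_anti hXY hm)
    have h12 := MaxE.lt hY
    rw [cd_cl]
    unfold cd at *
    omega
  · exact h3.trans (cl_mono (Set.image_mono hXY))

end Max

end Pool.Agent.MP_dd1803_nt
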