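import Mathlib
import Pool.Agent.MP_dd1803_nt.Mono

open MvPolynomial

namespace Pool.Agent.MP_dd1803_nt

section Dimension

variable {F : Type} [Field F] [IsAlgClosed F] {κ : Type} [Fintype κ]

theorem exists_codim_one {X : Set (κ → Fˣ)} (hX : Irr X) (h : td F X ≠ 0) :
    ∃ Y, Irr Y ∧ Y ⊂ X ∧ td F X = td F Y + 1 := by
  classical
  obtain ⟨x0, hx0⟩ := hX.nonempty
  by_cases hc : ∀ i, ∀ x ∈ X, x i = x0 i
  · exfalso
    apply h
    obtain ⟨s, hs, hcard⟩ := exists_basis' (k := F) hX.pirr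
    rw [← hcard, Set.ncard_eq_zero (Set.toFinite s)]
    by_contra hne
    obtain ⟨i, hi⟩ := Set.nonempty_iff_ne_empty.mpr hne
    have h1 := hs (MvPolynomial.X ⟨i, hi⟩ - C (x0 i : F)) (by
      intro x hx
      rw [map_sub, aeval_X, aeval_C, sub_eq_zero, co_apply, hc i x hx]
      rfl)
    have h2 := congrArg (aeval (fun _ : s => (x0 i : F) + 1)) h1
    rw [map_sub, aeval_X, aeval_C, map_zero] at h2
    simp at h2
  · push Not at hc
    obtain ⟨i, x1, hx1, hne⟩ := hc
    obtain ⟨Y, hY, hx0Y⟩ := exists_comp (hX.closed.inter (zclosed_zp (MvPolynomial.X i - C (x0 i : F))))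
      (irr_singleton x0) (by
      rintro x hx
      rw [Set.mem_singleton_iff.mp hx]
      refine ⟨hx0, ?_⟩
      rw [mem_zp]
      simp [co])
    have h1 := krull hX _ hY
    have h2 : Y ⊆ X := hY.subset.trans Set.inter_subset_left
    have h3 : Y ⊂ X := by
      refine ⟨h2, ?_⟩
      intro h4
      have h5 := (hY.subset (h4 hx1)).2
      rw [mem_zp, map_sub, aeval_X, aeval_C, sub_eq_zero] at h5
      exact hne (Units.ext h5)
    have h4 := td_lt hY.irr hX h3
    exact ⟨Y, hY.irr, h3, by omega⟩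

theorem height_eq {V : Set (κ → Fˣ)} (Y : {Y : Set (κ → Fˣ) // Irr Y ∧ Y ⊆ V}) :
    Order.height Y = (td F Y.1 : ℕ∞) := by
  have hle : ∀ n : ℕ, ∀ Y : {Y : Set (κ → Fˣ) // Irr Y ∧ Y ⊆ V}, td F Y.1 = n →
      Order.height Y ≤ (n : ℕ∞) := by
    intro n
    induction n using Nat.strong_induction_on with
    | _ n ih =>
      intro Y hn
      rw [Order.height_le_coe_iff]
      intro Z hZ
      have h1 : td F Z.1 < n := by
        rw [← hn]
        exact td_lt Z.2.1 Y.2.1 hZ
      exact lt_of_le_of_lt (ih _ h1 Z rfl) (by exact_mod_cast h1)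
  have hge : ∀ n : ℕ, ∀ Y : {Y : Set (κ → Fˣ) // Irr Y ∧ Y ⊆ V}, td F Y.1 = n →
      (n : ℕ∞) ≤ Order.height Y := by
    intro n
    induction n with
    | zero =>
      intro Y _
      simp
    | succ n ih =>
      intro Y hn
      obtain ⟨Z, hZ, hZY, hd⟩ := exists_codim_one Y.2.1 (by omega)
      have h1 := ih ⟨Z, hZ, hZY.subset.trans Y.2.2⟩ (by simp only; omega)
      have h2 : (⟨Z, hZ, hZY.subset.trans Y.2.2⟩ : {Y : Set (κ → Fˣ) // Irr Y ∧ Y ⊆ V}) < Y := hZY
      have h3 := Order.height_add_one_le h2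
      push_cast
      exact (add_le_add_left h1 1).trans h3
  exact le_antisymm (hle _ Y rfl) (hge _ Y rfl)

/-- The dimension of a nonempty closed set is the maximal transcendence degree of its
irreducible closed subsets. -/
theorem exists_dm {V : Set (κ → Fˣ)} (hne : V.Nonempty) :
    ∃ d : ℕ, dm V = (d : WithBot ℕ∞) ∧ d ≤ Fintype.card κ ∧ (∀ Z, Irr Z → Z ⊆ V → td F Z ≤ d) ∧
      ∃ Z, Irr Z ∧ Z ⊆ V ∧ td F Z = d := by
  classical
  obtain ⟨x0, hx0⟩ := hne
  have hbdd : ∀ n, n ∈ {n | ∃ Z : Set (κ → Fˣ), Irr Z ∧ Z ⊆ V ∧ td F Z = n} →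
      n ≤ Fintype.card κ := by
    rintro n ⟨Z, hZ, _, rfl⟩
    rw [← Nat.card_eq_fintype_card]
    exact td_le_card hZ.pirr
  have hex : ∃ n, n ∈ {n | ∃ Z : Set (κ → Fˣ), Irr Z ∧ Z ⊆ V ∧ td F Z = n} :=
    ⟨_, {x0}, irr_singleton x0, Set.singleton_subset_iff.mpr hx0, rfl⟩
  have hmem := Nat.sSup_mem hex ⟨_, hbdd⟩
  have hmax : ∀ Z : Set (κ → Fˣ), Irr Z → Z ⊆ V →
      td F Z ≤ sSup {n | ∃ Z : Set (κ → Fˣ), Irr Z ∧ Z ⊆ V ∧ td F Z = n} := by
    intro Z hZ hZV
    exact le_csSup ⟨_, hbdd⟩ ⟨Z, hZ, hZV, rfl⟩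
  refine ⟨sSup {n | ∃ Z : Set (κ → Fˣ), Irr Z ∧ Z ⊆ V ∧ td F Z = n}, ?_, hbdd _ hmem, hmax, hmem⟩
  unfold dm
  apply le_antisymm
  · rw [Order.krullDim_eq_iSup_height]
    apply iSup_le
    intro Z
    rw [height_eq]
    have h1 := hmax Z.1 Z.2.1 Z.2.2
    exact_mod_cast h1
  · obtain ⟨Z, hZ, hZV, hd⟩ := hmem
    have h1 := Order.height_le_krullDim (⟨Z, hZ, hZV⟩ : {Y : Set (κ → Fˣ) // Irr Y ∧ Y ⊆ V})
    rw [height_eq] at h1
    rw [← hd]
    exact h1

theorem dm_irr {X : Set (κ → Fˣ)} (hX : Irr X) : dm X = (td F X : WithBot ℕ∞) := by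
  obtain ⟨d, hd, _, h1, Z, hZ, hZX, h2⟩ := exists_dm hX.nonempty
  rw [hd]
  have h3 := td_mono (k := F) hZ.pirr hX.pirr hZX
  have h4 := h1 X hX le_rfl
  have h5 : d = td F X := by omega
  rw [h5]

theorem dm_univ : dm (Set.univ : Set (κ → Fˣ)) = (Fintype.card κ : WithBot ℕ∞) := by
  rw [dm_irr irr_univ, td_univ]

end Dimension

section Artin

variable {F : Type} [Field F] {κ : Type} [Fintype κ]

/-- Closed subgroups are cut out by characters. -/
theorem closed_subgroup (H : Subgroup (κ → Fˣ)) (hH : ZClosed (H : Set (κ → Fˣ))) :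
    ∃ s : Finset (κ → ℤ), (H : Set (κ → Fˣ)) = {x | ∀ m ∈ s, ch m x = 1} := by
  classical
  let M : Submodule ℤ (κ → ℤ) :=
    { carrier := {m | ∀ h ∈ H, ch m h = 1}
      zero_mem' := fun h _ => ch_zero h
      add_mem' := fun {m n} hm hn h hh => by rw [ch_add, hm h hh, hn h hh, one_mul]
      smul_mem' := fun n m hm h hh => by rw [ch_zsmul, hm h hh, one_zpow] }
  have hM : ∀ m, m ∈ M ↔ ∀ h ∈ H, ch m h = 1 := fun m => Iff.rfl
  obtain ⟨s, hs⟩ := (inferInstance : IsNoetherian ℤ (κ → ℤ)).noetherian M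
  refine ⟨s, ?_⟩
  apply Set.Subset.antisymm
  · intro h hh m hm
    have h1 : m ∈ M := by
      rw [← hs]
      exact Submodule.subset_span hm
    exact (hM m).mp h1 h hh
  · intro x hx
    have hx' : ∀ m ∈ M, ch m x = 1 := by
      intro m hm
      rw [← hs] at hm
      induction hm using Submodule.span_induction with
      | mem m hm => exact hx m hm
      | zero => exact ch_zero x
      | add m n _ _ hm hn => rw [ch_add, hm, hn, one_mul]
      | smul a m _ hm => rw [ch_zsmul, hm, one_zpow]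
    rw [← zclosed_iff.mp hH]
    intro p hp
    rw [SetLike.mem_coe, mem_vI] at hp
    -- the characters
    let χ : (κ →₀ ℕ) → (H →* F) := fun d =>
      { toFun := fun h => ∏ i, ((h : κ → Fˣ) i : F) ^ d i
        map_one' := by simp
        map_mul' := fun a b => by
          simp only [Subgroup.coe_mul, Pi.mul_apply, Units.val_mul, mul_pow, Finset.prod_mul_distrib] }
    have hχ : ∀ d d', χ d = χ d' → ∏ i, (x i : F) ^ d i = ∏ i, (x i : F) ^ d' i := by
      intro d d' hdd
      have h1 : (fun i => ((d i : ℤ) - (d' i : ℤ))) ∈ M := by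
        rw [hM]
        intro h hh
        have h2 := DFunLike.congr_fun hdd ⟨h, hh⟩
        have h3 : ∏ i, (h i : F) ^ d i = ∏ i, (h i : F) ^ d' i := h2
        have h4 : ∏ i, h i ^ d i = ∏ i, h i ^ d' i := by
          apply Units.ext
          push_cast
          exact h3
        have h5 : ch (fun i => ((d i : ℤ) - (d' i : ℤ))) h = (∏ i, h i ^ d i) * (∏ i, h i ^ d' i)⁻¹ := by
          unfold ch
          rw [← Finset.prod_inv_distrib, ← Finset.prod_mul_distrib]
          apply Finset.prod_congr rfl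
          intro i _
          rw [zpow_sub, zpow_natCast, zpow_natCast]
        rw [h5, h4, mul_inv_cancel]
      have h2 := hx' _ h1
      have h5 : ch (fun i => ((d i : ℤ) - (d' i : ℤ))) x = (∏ i, x i ^ d i) * (∏ i, x i ^ d' i)⁻¹ := by
        unfold ch
        rw [← Finset.prod_inv_distrib, ← Finset.prod_mul_distrib]
        apply Finset.prod_congr rfl
        intro i _
        rw [zpow_sub, zpow_natCast, zpow_natCast]
      rw [h5, mul_inv_eq_one] at h2
      have h3 := congrArg Units.val h2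
      push_cast at h3
      exact h3
    have heval : ∀ y : κ → Fˣ, aeval (co y) p =
        ∑ d ∈ p.support, coeff d p * ∏ i, (y i : F) ^ d i := by
      intro y
      rw [aeval_def, eval₂_eq']
      rfl
    have hlin := linearIndependent_iff'.mp (linearIndependent_monoidHom H F)
      (p.support.image χ) (fun c => ∑ d ∈ p.support with χ d = c, coeff d p) (by
      funext h
      rw [Finset.sum_apply]
      have h1 : ∀ c : H →* F, ((∑ d ∈ p.support with χ d = c, coeff d p) • (c : H → F)) h =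
          ∑ d ∈ p.support with χ d = c, coeff d p * χ d h := by
        intro c
        rw [Pi.smul_apply, smul_eq_mul, Finset.sum_mul]
        apply Finset.sum_congr rfl
        intro d hd
        rw [(Finset.mem_filter.mp hd).2]
      simp only [h1]
      rw [Finset.sum_fiberwise_of_maps_to (s := p.support) (t := p.support.image χ) (g := χ)
        (fun d hd => Finset.mem_image_of_mem χ hd) (fun d => coeff d p * χ d h)]
      have h2 := hp h h.2
      rw [heval] at h2
      exact h2)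
    rw [heval]
    rw [← Finset.sum_fiberwise_of_maps_to (s := p.support) (t := p.support.image χ) (g := χ)
      (fun d hd => Finset.mem_image_of_mem χ hd) (fun d => coeff d p * ∏ i, (x i : F) ^ d i)]
    apply Finset.sum_eq_zero
    intro c hc
    obtain ⟨d0, hd0, hcd0⟩ := Finset.mem_image.mp hc
    have h1 := hlin c hc
    have h2 : ∑ d ∈ p.support with χ d = c, coeff d p * ∏ i, (x i : F) ^ d i =
        (∑ d ∈ p.support with χ d = c, coeff d p) * ∏ i, (x i : F) ^ d0 i := by
      rw [Finset.sum_mul]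
      apply Finset.sum_congr rfl
      intro d hd
      rw [hχ d d0 ((Finset.mem_filter.mp hd).2.trans hcd0.symm)]
    rw [h2, h1, zero_mul]

end Artin

section Special

variable {F : Type} [Field F] [IsAlgClosed F] {κ : Type} [Fintype κ]

theorem Special.irr {T : Set (κ → Fˣ)} (h : Special T) : Irr T := by
  obtain ⟨H, _, hT⟩ := h
  exact hT.irr

/-- Special subvarieties have defect zero. -/
theorem Special.cd {T : Set (κ → Fˣ)} (h : Special T) : cd T = Fintype.card κ := by
  apply le_antisymm (cd_le_card h.irr.pirr)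
  obtain ⟨H, hH, hT⟩ := h
  obtain ⟨s, hs⟩ := closed_subgroup H hH
  rw [hs] at hT
  have h1 : Comp ((Set.univ : Set (κ → Fˣ)) ∩ {x | ∀ m ∈ s, ch m x = 1}) T := by
    rw [Set.univ_inter]
    exact hT
  have h2 := cut (F := F) s id (fun _ => 1) (fun _ _ => Tor.one) irr_univ h1
  rwa [cd_univ] at h2

/-- Every irreducible set is contained in a special subvariety of the right dimension. -/
theorem exists_special {X : Set (κ → Fˣ)} (hX : Irr X) :
    ∃ T, Special T ∧ X ⊆ T ∧ td F T + rk X ≤ Fintype.card κ := by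
  classical
  obtain ⟨s, hs⟩ := (inferInstance : IsNoetherian ℤ (κ → ℤ)).noetherian (Lam X)
  have hmem : ∀ m ∈ s, m ∈ Lam X := fun m hm => hs ▸ Submodule.subset_span hm
  choose! N hN h using hmem
  let H : Subgroup (κ → Fˣ) :=
    { carrier := {x | ∀ m ∈ s, ch m x ^ N m = 1}
      one_mem' := fun m _ => by rw [ch_one, one_pow]
      mul_mem' := fun {a b} ha hb m hm => by rw [ch_mul, mul_pow, ha m hm, hb m hm, one_mul]
      inv_mem' := fun {a} ha m hm => by
        have h1 : ch m (a⁻¹) = (ch m a)⁻¹ := by simp [ch]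
        rw [h1, inv_pow, ha m hm, inv_one] }
  have hHcl : ZClosed (H : Set (κ → Fˣ)) := by
    have h1 : (H : Set (κ → Fˣ)) = ⋂ m : s, {x | ch ((N m.1 : ℤ) • m.1) x = 1} := by
      ext x
      simp only [Set.mem_iInter, Set.mem_ofPred_eq]
      constructor
      · intro hx m
        rw [ch_zsmul, zpow_natCast]
        exact hx m.1 m.2
      · intro hx m hm
        have := hx ⟨m, hm⟩
        rw [ch_zsmul, zpow_natCast] at this
        exact this
    rw [h1]
    exact ZClosed.iInter fun m => zclosed_ch _ _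
  obtain ⟨T, hT, hXT⟩ := exists_comp hHcl hX (fun x hx m hm => h m hm x hx)
  refine ⟨T, ⟨H, hHcl, hT⟩, hXT, ?_⟩
  have h1 : rk X ≤ rk T := by
    apply Submodule.finrank_mono
    rw [← hs, Submodule.span_le]
    intro m hm
    exact ⟨N m, hN m hm, fun x hx => hT.subset hx m hm⟩
  have h2 := cd_le_card (F := F) hT.irr.pirr
  unfold Pool.Agent.MP_dd1803_nt.cd at h2
  omega

end Special

section Bridge

variable {F : Type} [Field F] [IsAlgClosed F] {κ : Type} [Fintype κ]

/-- Maximal atypical subvarieties are the maximal subsets of small defect. -/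
theorem maximal_atypical_iff {V : Set (κ → Fˣ)} (hV : ZClosed V) {d : ℕ}
    (hd : dm V = (d : WithBot ℕ∞)) (hdle : d ≤ Fintype.card κ) (X : Set (κ → Fˣ)) :
    Maximal (Atypical V) X ↔ X ∈ MaxE (Fintype.card κ - d) V := by
  have h1 : ∀ X, Atypical V X →
      (Irr X ∧ X ⊆ V ∧ Fintype.card κ < cd X + (Fintype.card κ - d)) := by
    rintro X ⟨T, hT, hX, hlt⟩
    refine ⟨hX.irr, hX.subset.trans Set.inter_subset_left, ?_⟩
    rw [hd, dm_irr hT.irr, dm_irr hX.irr, dm_univ] at hlt
    have h2 : d + td F T < td F X + Fintype.card κ := by exact_mod_cast hlt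
    have h3 := hT.cd
    have h4 : rk T ≤ rk X := rk_anti (hX.subset.trans Set.inter_subset_right)
    unfold Pool.Agent.MP_dd1803_nt.cd at *
    omega
  have h2 : ∀ X, (Irr X ∧ X ⊆ V ∧ Fintype.card κ < cd X + (Fintype.card κ - d)) →
      ∃ Y, Atypical V Y ∧ X ⊆ Y := by
    rintro X ⟨hX, hXV, hlt⟩
    obtain ⟨T, hT, hXT, hle⟩ := exists_special hX
    obtain ⟨Y, hY, hXY⟩ := exists_comp (hV.inter hT.irr.closed) hX (Set.subset_inter hXV hXT)
    refine ⟨Y, ⟨T, hT, hY, ?_⟩, hXY⟩
    rw [hd, dm_irr hT.irr, dm_irr hY.irr, dm_univ]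
    have h3 := td_mono (k := F) hX.pirr hY.irr.pirr hXY
    unfold cd at hlt
    have h4 : d + td F T < td F Y + Fintype.card κ := by omega
    exact_mod_cast h4
  rw [mem_maxE]
  constructor
  · intro hX
    refine ⟨h1 X hX.prop, ?_⟩
    intro Y hY hXY
    obtain ⟨Z, hZ, hYZ⟩ := h2 Y hY
    exact Set.Subset.trans hYZ (hX.le_of_ge hZ (Set.Subset.trans hXY hYZ))
  · intro hX
    obtain ⟨Z, hZ, hXZ⟩ := h2 X hX.prop
    have h3 : X = Z := Set.Subset.antisymm hXZ (hX.le_of_ge (h1 Z hZ) hXZ)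
    rw [← h3] at hZ
    exact ⟨hZ, fun Y hY hXY => hX.le_of_ge (h1 Y hY) hXY⟩

theorem zp_of_finite {V : Set (κ → Fˣ)} (hV : ZClosed V) (h : ∀ e, (MaxE e V).Finite) : ZP V := by
  by_cases hne : V.Nonempty
  · obtain ⟨d, hd, hdle, _, _⟩ := exists_dm hne
    have h1 : {X | Maximal (Atypical V) X} = MaxE (Fintype.card κ - d) V := by
      ext X
      exact maximal_atypical_iff hV hd hdle X
    unfold ZP
    rw [h1]
    exact h _
  · unfold ZP
    convert Set.finite_empty
    ext X
    simp only [Set.mem_ofPred_eq, Set.mem_empty_iff_false, iff_false]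
    intro hX
    obtain ⟨T, _, hX', _⟩ := hX.prop
    obtain ⟨x, hx⟩ := hX'.irr.nonempty
    exact hne ⟨x, (hX'.subset hx).1⟩

theorem finite_of_zp {V : Set (κ → Fˣ)} (hV : ZClosed V) {d : ℕ}
    (hd : dm V = (d : WithBot ℕ∞)) (hdle : d ≤ Fintype.card κ) (h : ZP V) :
    (MaxE (Fintype.card κ - d) V).Finite := by
  have h1 : {X | Maximal (Atypical V) X} = MaxE (Fintype.card κ - d) V := by
    ext X
    exact maximal_atypical_iff hV hd hdle X
  rw [← h1]
  exact h

end Bridge

end Pool.Agent.MP_dd1803_nt
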