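import Mathlib
import Pool.Agent.MP_dd1803_nt.Mono

open MvPolynomial

namespace Pool.Agent.MP_dd1803_nt

section Terms

variable {F : Type} [Field F] {κ : Type} [Fintype κ]

/-- Every integer polynomial is a sum of monomials with torsion coefficients. -/
theorem exists_terms (f : MvPolynomial κ ℤ) :
    ∃ (N : ℕ) (c : Fin N → Fˣ) (m : Fin N → κ → ℤ), (∀ l, Tor (c l)) ∧
      ∀ x : κ → Fˣ, aeval (co x) f = ∑ l, ((c l * ch (m l) x : Fˣ) : F) := by
  classical
  have hadd : ∀ f g : MvPolynomial κ ℤ,
      (∃ (N : ℕ) (c : Fin N → Fˣ) (m : Fin N → κ → ℤ), (∀ l, Tor (c l)) ∧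
        ∀ x : κ → Fˣ, aeval (co x) f = ∑ l, ((c l * ch (m l) x : Fˣ) : F)) →
      (∃ (N : ℕ) (c : Fin N → Fˣ) (m : Fin N → κ → ℤ), (∀ l, Tor (c l)) ∧
        ∀ x : κ → Fˣ, aeval (co x) g = ∑ l, ((c l * ch (m l) x : Fˣ) : F)) →
      (∃ (N : ℕ) (c : Fin N → Fˣ) (m : Fin N → κ → ℤ), (∀ l, Tor (c l)) ∧
        ∀ x : κ → Fˣ, aeval (co x) (f + g) = ∑ l, ((c l * ch (m l) x : Fˣ) : F)) := by
    rintro f g ⟨N, c, m, hc, h⟩ ⟨N', c', m', hc', h'⟩
    refine ⟨N + N', Fin.append c c', Fin.append m m', ?_, ?_⟩
    · intro l
      refine Fin.addCases (fun i => ?_) (fun i => ?_) l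
      · rw [Fin.append_left]
        exact hc i
      · rw [Fin.append_right]
        exact hc' i
    · intro x
      rw [map_add, h x, h' x, Fin.sum_univ_add]
      simp only [Fin.append_left, Fin.append_right]
  induction f using MvPolynomial.induction_on with
  | C a =>
    induction a using Int.induction_on with
    | zero => exact ⟨0, Fin.elim0, Fin.elim0, fun l => l.elim0, fun x => by simp⟩
    | succ a ih =>
      rw [C_add]
      apply hadd _ _ ih
      exact ⟨1, fun _ => 1, fun _ => 0, fun _ => Tor.one, fun x => by simp [ch_zero]⟩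
    | pred a ih =>
      rw [sub_eq_add_neg, C_add]
      apply hadd _ _ ih
      exact ⟨1, fun _ => -1, fun _ => 0, fun _ => Tor.neg_one, fun x => by simp [ch_zero]⟩
  | add p q hp hq => exact hadd p q hp hq
  | mul_X p i hp =>
    obtain ⟨N, c, m, hc, h⟩ := hp
    refine ⟨N, c, fun l => m l + Pi.single i 1, hc, fun x => ?_⟩
    rw [map_mul, aeval_X, h x, Finset.sum_mul]
    apply Finset.sum_congr rfl
    intro l _
    rw [ch_add, ch_single, zpow_one, ← mul_assoc]
    push_cast
    rfl

end Terms

section PS

variable {F : Type} [Field F]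

/-- The set of `e`-tuples of vanishing sums of `N` terms. -/
def PS (F : Type) [Field F] (e N : ℕ) : Set (Fin e × Fin N → Fˣ) :=
  {z | ∀ i, ∑ l, (z (i, l) : F) = 0}

theorem mem_PS {e N : ℕ} {z : Fin e × Fin N → Fˣ} :
    z ∈ PS F e N ↔ ∀ i, ∑ l, (z (i, l) : F) = 0 := Iff.rfl

theorem zclosed_PS (e N : ℕ) : ZClosed (PS F e N) := by
  have h1 : PS F e N = ⋂ i : Fin e, zp (∑ l : Fin N, X (i, l)) := by
    ext z
    rw [mem_PS, Set.mem_iInter]
    apply forall_congr'
    intro i
    rw [mem_zp, map_sum]
    simp only [aeval_X]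
    rfl
  rw [h1]
  exact ZClosed.iInter fun i => zclosed_zp _

end PS

section StepA

variable {F : Type} [Field F] [IsAlgClosed F] {κ : Type} [Fintype κ]

/-- Common zeros of integer polynomials. -/
def zlZ (F : Type) [Field F] {κ : Type} {q : ℕ} (f : Fin q → MvPolynomial κ ℤ) :
    Set (κ → Fˣ) := {x | ∀ j, aeval (co x) (f j) = 0}

omit [IsAlgClosed F] [Fintype κ] in
theorem mem_zlZ {q : ℕ} {f : Fin q → MvPolynomial κ ℤ} {x : κ → Fˣ} :
    x ∈ zlZ F f ↔ ∀ j, aeval (co x) (f j) = 0 := Iff.rfl

omit [IsAlgClosed F] [Fintype κ] in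
theorem zclosed_zlZ {q : ℕ} (f : Fin q → MvPolynomial κ ℤ) : ZClosed (zlZ F f) := by
  have h1 : zlZ F f = ⋂ j, zp (MvPolynomial.map (Int.castRingHom F) (f j)) := by
    ext z
    rw [mem_zlZ, Set.mem_iInter]
    apply forall_congr'
    intro i
    rw [mem_zp]
    have : (Int.castRingHom F) = algebraMap ℤ F := rfl
    rw [this, aeval_map_algebraMap]
  rw [h1]
  exact ZClosed.iInter fun i => zclosed_zp _

/-- The variety of generic linear combinations of the equations. -/
def genV (F : Type) [Field F] {κ : Type} {q : ℕ} (f : Fin q → MvPolynomial κ ℤ) (e : ℕ) :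
    Set (κ ⊕ (Fin e × Fin q) → Fˣ) :=
  {y | ∀ i, ∑ j, (y (Sum.inr (i, j)) : F) * aeval (co (y ∘ Sum.inl)) (f j) = 0}

omit [IsAlgClosed F] [Fintype κ] in
theorem mem_genV {q : ℕ} {f : Fin q → MvPolynomial κ ℤ} {e : ℕ}
    {y : κ ⊕ (Fin e × Fin q) → Fˣ} : y ∈ genV F f e ↔
      ∀ i, ∑ j, (y (Sum.inr (i, j)) : F) * aeval (co (y ∘ Sum.inl)) (f j) = 0 := Iff.rfl

theorem finite_maxE_genV (e : ℕ) (hP : ∀ N : ℕ, (MaxE e (PS F e N)).Finite) {q : ℕ}
    (f : Fin q → MvPolynomial κ ℤ) : (MaxE e (genV F f e)).Finite := by
  classical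
  choose N c m hc h using fun j => exists_terms (F := F) (f j)
  let I := Σ j : Fin q, Fin (N j)
  let φ : Fin (Fintype.card I) ≃ I := (Fintype.equivFin I).symm
  let a : Fin e × Fin (Fintype.card I) → (κ ⊕ (Fin e × Fin q) → ℤ) := fun p =>
    Sum.elim (m (φ p.2).1 (φ p.2).2) (Pi.single (p.1, (φ p.2).1) 1)
  let b : Fin e × Fin (Fintype.card I) → Fˣ := fun p => c (φ p.2).1 (φ p.2).2
  have h1 : genV F f e = mono a b ⁻¹' (PS F e (Fintype.card I)) := by
    ext y
    rw [Set.mem_preimage, mem_PS, mem_genV]
    apply forall_congr'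
    intro i
    have h2 : ∑ l, (mono a b y (i, l) : F) =
        ∑ p : I, (y (Sum.inr (i, p.1)) : F) * ((c p.1 p.2 * ch (m p.1 p.2) (y ∘ Sum.inl) : Fˣ) : F) := by
      rw [← φ.sum_comp]
      apply Finset.sum_congr rfl
      intro l _
      simp only [mono, a, b]
      rw [ch_sum, Sum.elim_comp_inl, Sum.elim_comp_inr, ch_single, zpow_one]
      push_cast
      simp only [Function.comp_apply]
      ring
    rw [h2, Fintype.sum_sigma]
    simp only [h, Finset.mul_sum]
  rw [h1]
  exact finite_maxE_preimage (zclosed_PS e _) a b (fun p => hc _ _) (hP _)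

theorem finite_maxE_zlZ (e : ℕ) (hP : ∀ N : ℕ, (MaxE e (PS F e N)).Finite) {q : ℕ}
    (f : Fin q → MvPolynomial κ ℤ) : (MaxE e (zlZ F f)).Finite := by
  classical
  apply finite_maxE_of_ext (zclosed_zlZ f) (V' := genV F f e) (Sum.inl : κ → κ ⊕ (Fin e × Fin q))
    Sum.inl_injective (e' := e) (D := e * q) (by simp [Fintype.card_sum]; ring)
    (finite_maxE_genV e hP f)
  intro X hX
  have hXi := MaxE.irr hX
  have hXW := MaxE.subset hX
  have hU : Irr (Set.univ : Set (Fin e × Fin q → Fˣ)) := irr_univ
  have hsupp : ∀ m ∈ Lam (prodSet X (Set.univ : Set (Fin e × Fin q → Fˣ))),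
      ∀ i, i ∉ Set.range (Sum.inl : κ → κ ⊕ (Fin e × Fin q)) → m i = 0 := by
    rintro m ⟨N, hN, hm⟩ i hi
    obtain ⟨x, hx⟩ := hXi.nonempty
    have h1 : m ∘ Sum.inr ∈ Lam (Set.univ : Set (Fin e × Fin q → Fˣ)) := by
      refine ⟨N, hN, ?_⟩
      intro t _
      have h2 := hm (Sum.elim x 1) (elim_mem_prodSet.mpr ⟨hx, trivial⟩)
      have h3 := hm (Sum.elim x t) (elim_mem_prodSet.mpr ⟨hx, trivial⟩)
      rw [ch_sum, Sum.elim_comp_inl, Sum.elim_comp_inr, ch_one, mul_one] at h2
      rw [ch_sum, Sum.elim_comp_inl, Sum.elim_comp_inr, mul_pow, h2, one_mul] at h3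
      exact h3
    rw [Lam_univ, Submodule.mem_bot] at h1
    rcases i with i | i
    · exact absurd ⟨i, rfl⟩ hi
    · exact congrFun h1 i
  refine ⟨prodSet X Set.univ, hXi.prodSet hU, ?_, ?_, ?_, ?_, hsupp, ?_⟩
  · intro y hy i
    apply Finset.sum_eq_zero
    intro j _
    rw [hXW hy.1 j, mul_zero]
  · refine Set.Subset.trans ?_ (subset_cl _)
    intro x hx
    exact ⟨Sum.elim x 1, elim_mem_prodSet.mpr ⟨hx, trivial⟩, rfl⟩
  · have := rk_prod_ge X (Set.univ : Set (Fin e × Fin q → Fˣ))
    omega
  · have := td_prod_ge (k := F) hXi.pirr hU.pirr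
    rw [td_univ] at this
    simpa using this
  · intro Y hY hYV hXY hlt
    refine ⟨?_, ?_⟩
    · by_contra hcon
      rw [Set.not_subset] at hcon
      obtain ⟨_, ⟨y0, hy0, rfl⟩, hy⟩ := hcon
      rw [mem_zlZ] at hy
      push Not at hy
      obtain ⟨j0, hj0⟩ := hy
      -- forget the coordinates (i, j0)
      let p : κ ⊕ (Fin e × Fin q) → Prop := fun i => ∀ i', i ≠ Sum.inr (i', j0)
      let π : {i // p i} → κ ⊕ (Fin e × Fin q) := Subtype.val
      have hP' := vI_isPrime (k := F) hY.pirr
      have hne : Nontrivial (MvPolynomial (κ ⊕ (Fin e × Fin q)) F ⧸ vI F Y) := inferInstance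
      have h1 := td_le_pull (k := F) hY.pirr (e := π) Subtype.val_injective (Set.range π) (by
        intro i
        by_cases hi : p i
        · exact isAlgebraic_algebraMap (⟨gen F Y i, Algebra.subset_adjoin ⟨i, ⟨⟨i, hi⟩, rfl⟩, rfl⟩⟩ :
            Algebra.adjoin F (gen F Y '' Set.range π))
        · simp only [p] at hi
          push Not at hi
          obtain ⟨i', rfl⟩ := hi
          have hmem : ∀ g : MvPolynomial κ ℤ, aeval (fun l : κ => gen F Y (Sum.inl l)) g ∈
              Algebra.adjoin F (gen F Y '' Set.range π) := by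
            intro g
            induction g using MvPolynomial.induction_on with
            | C a =>
              rw [aeval_C]
              exact Subalgebra.intCast_mem _ _
            | add p q hp hq =>
              rw [map_add]
              exact Subalgebra.add_mem _ hp hq
            | mul_X p i hp =>
              rw [map_mul, aeval_X]
              apply Subalgebra.mul_mem _ hp
              apply Algebra.subset_adjoin
              exact ⟨Sum.inl i, ⟨⟨Sum.inl i, fun i' h => by simp at h⟩, rfl⟩, rfl⟩
          have hmem2 : -∑ j ∈ Finset.univ.erase j0, gen F Y (Sum.inr (i', j)) *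
              aeval (fun l : κ => gen F Y (Sum.inl l)) (f j) ∈
              Algebra.adjoin F (gen F Y '' Set.range π) := by
            apply Subalgebra.neg_mem
            apply Subalgebra.sum_mem
            intro j hj
            apply Subalgebra.mul_mem _ _ (hmem _)
            apply Algebra.subset_adjoin
            refine ⟨Sum.inr (i', j), ⟨⟨Sum.inr (i', j), ?_⟩, rfl⟩, rfl⟩
            intro i'' h
            simp only [Sum.inr.injEq, Prod.mk.injEq] at h
            exact (Finset.ne_of_mem_erase hj) h.2
          apply isAlgebraic_of_mul_pow (a := ⟨_, hmem (f j0)⟩) (b := ⟨_, hmem2⟩) (d := 1)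
          · intro h
            have h2 : aeval (fun l : κ => gen F Y (Sum.inl l)) (f j0) = 0 := congrArg Subtype.val h
            have h3 : aeval (fun l : κ => gen F Y (Sum.inl l)) (f j0) =
                Ideal.Quotient.mk (vI F Y) (rename Sum.inl (MvPolynomial.map (algebraMap ℤ F) (f j0))) := by
              generalize f j0 = g
              induction g using MvPolynomial.induction_on with
              | C a => simp
              | add p q hp hq => simp only [map_add, hp, hq]
              | mul_X p i hp =>
                simp only [map_mul, hp, aeval_X, map_X, rename_X]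
                rfl
            rw [h3, Ideal.Quotient.eq_zero_iff_mem, mem_vI] at h2
            have h4 := h2 y0 hy0
            rw [aeval_rename, aeval_map_algebraMap] at h4
            exact hj0 h4
          · exact one_ne_zero
          · have h2 : ∑ j, gen F Y (Sum.inr (i', j)) *
                aeval (fun l : κ => gen F Y (Sum.inl l)) (f j) = 0 := by
              have h3 : ∀ g : MvPolynomial κ ℤ, aeval (fun l : κ => gen F Y (Sum.inl l)) g =
                  Ideal.Quotient.mk (vI F Y) (rename Sum.inl (MvPolynomial.map (algebraMap ℤ F) g)) := by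
                intro g
                induction g using MvPolynomial.induction_on with
                | C a => simp
                | add p q hp hq => simp only [map_add, hp, hq]
                | mul_X p i hp =>
                  simp only [map_mul, hp, aeval_X, map_X, rename_X]
                  rfl
              simp only [h3]
              have h4 : (∑ j, gen F Y (Sum.inr (i', j)) * Ideal.Quotient.mk (vI F Y)
                  (rename Sum.inl (MvPolynomial.map (algebraMap ℤ F) (f j)))) =
                  Ideal.Quotient.mk (vI F Y) (∑ j, MvPolynomial.X (Sum.inr (i', j)) *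
                    rename Sum.inl (MvPolynomial.map (algebraMap ℤ F) (f j))) := by
                rw [map_sum]
                apply Finset.sum_congr rfl
                intro j _
                rw [map_mul]
                rfl
              rw [h4, Ideal.Quotient.eq_zero_iff_mem, mem_vI]
              intro y hy
              rw [map_sum]
              have h5 := hYV hy i'
              rw [← h5]
              apply Finset.sum_congr rfl
              intro j _
              rw [map_mul, aeval_X, aeval_rename, aeval_map_algebraMap]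
              rfl
            rw [← Finset.add_sum_erase _ _ (Finset.mem_univ j0)] at h2
            rw [pow_one]
            show aeval (fun l : κ => gen F Y (Sum.inl l)) (f j0) * gen F Y (Sum.inr (i', j0)) = _
            rw [mul_comm]
            exact eq_neg_of_add_eq_zero_left h2)
      rw [Set.sdiff_self, Set.ncard_empty] at h1
      have h2 : rk Y ≤ rk (pull π '' Y) := by
        apply rk_le_of_supp Subtype.val_injective
        intro m hm i hi
        apply hsupp m (Lam_anti hXY hm) i
        rintro ⟨l, rfl⟩
        apply hi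
        exact ⟨⟨Sum.inl l, fun i' h => by simp at h⟩, rfl⟩
      have h3 := cd_le_card (F := F) (hY.pirr.pull π)
      have h4 : Fintype.card {i // p i} + e ≤ Fintype.card (κ ⊕ (Fin e × Fin q)) := by
        have h5 := Fintype.card_le_of_injective
          (Sum.elim Subtype.val (fun i' => Sum.inr (i', j0)) :
            {i // p i} ⊕ Fin e → κ ⊕ (Fin e × Fin q)) (by
          rintro (⟨a, ha⟩ | a) (⟨b, hb⟩ | b) hab
          · simp only [Sum.elim_inl] at hab
            subst hab
            rfl
          · exact absurd hab (ha b)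
          · exact absurd hab.symm (hb a)
          · simp only [Sum.elim_inr, Sum.inr.injEq, Prod.mk.injEq] at hab
            rw [hab.1])
        rwa [Fintype.card_sum, Fintype.card_fin] at h5
      unfold cd at *
      omega
    · have h1 := td_le_pull' (k := F) hY.pirr (e := (Sum.inl : κ → κ ⊕ (Fin e × Fin q)))
        Sum.inl_injective
      have h2 : (Set.range (Sum.inl : κ → κ ⊕ (Fin e × Fin q)))ᶜ.ncard = e * q := by
        rw [Set.compl_range_inl, ← Set.image_univ, Set.ncard_image_of_injective _ Sum.inr_injective,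
          Set.ncard_univ, Nat.card_eq_fintype_card]
        simp
      rw [h2] at h1
      exact h1

end StepA

end Pool.Agent.MP_dd1803_nt
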