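import Mathlib
import Pool.Agent.MP_dd1803_nt.StepA

open MvPolynomial

namespace Pool.Agent.MP_dd1803_nt

section LL

variable {F : Type} [Field F]

theorem mem_LL {k : ℕ} {x : Fin k ⊕ Fin k → Fˣ} :
    x ∈ LL F k ↔ ∀ i, (x (Sum.inl i) : F) + (x (Sum.inr i) : F) = 1 := Iff.rfl

theorem zclosed_LL (k : ℕ) : ZClosed (LL F k) := by
  have h1 : LL F k = ⋂ i : Fin k, zp (X (Sum.inl i) + X (Sum.inr i) - 1) := by
    ext z
    rw [mem_LL, Set.mem_iInter]
    apply forall_congr'
    intro i
    rw [mem_zp]
    simp only [map_sub, map_add, aeval_X, map_one, sub_eq_zero]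
    rfl
  rw [h1]
  exact ZClosed.iInter fun i => zclosed_zp _

/-- Systems of three-term equations between coordinates. -/
def T3 (F : Type) [Field F] {ι μ : Type} (A B C : ι → μ) : Set (μ → Fˣ) :=
  {y | ∀ r, (y (B r) : F) + (y (C r) : F) = (y (A r) : F)}

theorem mem_T3 {ι μ : Type} {A B C : ι → μ} {y : μ → Fˣ} :
    y ∈ T3 F A B C ↔ ∀ r, (y (B r) : F) + (y (C r) : F) = (y (A r) : F) := Iff.rfl

theorem zclosed_T3 {ι μ : Type} (A B C : ι → μ) : ZClosed (T3 F A B C) := by
  have h1 : T3 F A B C = ⋂ r : ι, zp (X (B r) + X (C r) - X (A r)) := by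
    ext z
    rw [mem_T3, Set.mem_iInter]
    apply forall_congr'
    intro i
    rw [mem_zp]
    simp only [map_sub, map_add, aeval_X, sub_eq_zero]
    rfl
  rw [h1]
  exact ZClosed.iInter fun i => zclosed_zp _

theorem finite_maxE_T3 [IsAlgClosed F] (hL : ∀ k, (MaxE k (LL F k)).Finite) {ι μ : Type}
    [Fintype ι] [Fintype μ] (A B C : ι → μ) : (MaxE (Fintype.card ι) (T3 F A B C)).Finite := by
  classical
  let φ : Fin (Fintype.card ι) ≃ ι := (Fintype.equivFin ι).symm
  let a : Fin (Fintype.card ι) ⊕ Fin (Fintype.card ι) → (μ → ℤ) :=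
    Sum.elim (fun i => Pi.single (B (φ i)) 1 - Pi.single (A (φ i)) 1)
      (fun i => Pi.single (C (φ i)) 1 - Pi.single (A (φ i)) 1)
  have h1 : T3 F A B C = mono a (fun _ => 1) ⁻¹' (LL F (Fintype.card ι)) := by
    ext y
    rw [Set.mem_preimage, mem_LL, mem_T3]
    rw [← φ.forall_congr_right]
    apply forall_congr'
    intro i
    simp only [mono, a, Sum.elim_inl, Sum.elim_inr]
    rw [sub_eq_add_neg, sub_eq_add_neg, ch_add, ch_add, ch_neg, ch_single, ch_single, ch_single,
      zpow_one, zpow_one, zpow_one, one_mul, one_mul]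
    push_cast
    rw [← add_mul, mul_inv_eq_one₀ (Units.ne_zero _)]
  rw [h1]
  exact finite_maxE_preimage (zclosed_LL _) a _ (fun _ => Tor.one) (hL _)

end LL

section Linear

variable {F : Type} [Field F] {φ : Type} [Fintype φ]

theorem coeff_lin [DecidableEq φ] (α : φ → F) (h : F) (p : φ) :
    coeff (Finsupp.single p 1) ((∑ q, C (α q) * X q + C h : MvPolynomial φ F)) = α p := by
  classical
  rw [coeff_add, coeff_C, if_neg, add_zero, coeff_sum, Finset.sum_eq_single p]
  · rw [coeff_C_mul, coeff_X, if_pos rfl, mul_one]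
  · intro q _ hq
    rw [coeff_C_mul, coeff_X, if_neg, mul_zero]
    intro h1
    exact hq (Finsupp.single_left_injective one_ne_zero h1)
  · intro h1
    exact absurd (Finset.mem_univ p) h1
  · intro h1
    have := DFunLike.congr_fun h1 p
    simp at this

theorem coeff_lin_zero (α : φ → F) (h : F) :
    coeff 0 ((∑ q, C (α q) * X q + C h : MvPolynomial φ F)) = h := by
  classical
  rw [coeff_add, coeff_C, if_pos rfl, coeff_sum, Finset.sum_eq_zero, zero_add]
  intro q _
  rw [coeff_C_mul, coeff_zero_X, mul_zero]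

/-- multiplicative independence via specialization -/
theorem exponent_zero {R R' B : Type} [CommRing R] [CommRing R'] [IsDomain R'] [Fintype B]
    (l : B → R) (n : B → ℤ) (heq : ∏ b, l b ^ (n b).toNat = ∏ b, l b ^ (-n b).toNat) (b0 : B)
    (θ : R →+* R') (h0 : θ (l b0) = 0) (h1 : ∀ b, b ≠ b0 → θ (l b) ≠ 0) : n b0 = 0 := by
  classical
  have key : ∀ n : B → ℤ, ∏ b, l b ^ (n b).toNat = ∏ b, l b ^ (-n b).toNat → ¬ 0 < n b0 := by
    intro n heq hpos
    have h2 := congrArg θ heq
    simp only [map_prod, map_pow] at h2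
    rw [Finset.prod_eq_zero (Finset.mem_univ b0)
      (by rw [h0, zero_pow (by omega)])] at h2
    have h3 : ∏ b, θ (l b) ^ (-n b).toNat ≠ 0 := by
      rw [Finset.prod_ne_zero_iff]
      intro b _
      by_cases hb : b = b0
      · rw [hb]
        have : (-n b0).toNat = 0 := by omega
        rw [this, pow_zero]
        exact one_ne_zero
      · exact pow_ne_zero _ (h1 b hb)
    exact h3 h2.symm
  have h2 := key n heq
  have h3 := key (-n) (by
    simp only [Pi.neg_apply, neg_neg]
    exact heq.symm)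
  simp only [Pi.neg_apply] at h3
  omega

/-- The substitution killing a linear form. -/
theorem exists_theta {B : Type} [Fintype B] (α : B → φ → F) (h : B → F)
    (n : B → ℤ) (heq : ∏ b, (∑ q, C (α b q) * X q + C (h b) : MvPolynomial φ F) ^ (n b).toNat =
      ∏ b, (∑ q, C (α b q) * X q + C (h b) : MvPolynomial φ F) ^ (-n b).toNat) (b0 : B) (p0 : φ)
    (hp0 : α b0 p0 = 1)
    (hne : ∀ b, b ≠ b0 → ¬ (α b = α b p0 • α b0 ∧ h b = α b p0 * h b0)) : n b0 = 0 := by
  classical
  let l : B → MvPolynomial φ F := fun b => ∑ q, C (α b q) * X q + C (h b)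
  let θ : MvPolynomial φ F →ₐ[F] MvPolynomial φ F :=
    aeval (fun p => if p = p0 then X p - l b0 else X p)
  have hθ : ∀ b, θ (l b) = l b - C (α b p0) * l b0 := by
    intro b
    simp only [l, map_add, map_sum, map_mul]
    have h1 : ∀ q, θ (C (α b q)) * θ (X q) = C (α b q) * X q -
        (if q = p0 then C (α b p0) * l b0 else 0) := by
      intro q
      simp only [θ, aeval_C, aeval_X]
      by_cases hq : q = p0
      · subst hq
        simp only [if_true]
        rw [mul_sub]
        rfl
      · simp only [if_neg hq, sub_zero]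
        rfl
    simp only [h1]
    rw [Finset.sum_sub_distrib, Finset.sum_ite_eq' Finset.univ p0]
    simp only [Finset.mem_univ, if_true, θ, aeval_C]
    have h2 : (algebraMap F (MvPolynomial φ F)) (h b) = C (h b) := rfl
    rw [h2]
    ring
  apply exponent_zero l n heq b0 (θ : MvPolynomial φ F →+* MvPolynomial φ F)
  · show θ (l b0) = 0
    rw [hθ, hp0, C_1, one_mul, sub_self]
  · intro b hb h1
    have h2 : θ (l b) = 0 := h1
    rw [hθ, sub_eq_zero] at h2
    apply hne b hb
    constructor
    · funext q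
      have h3 := congrArg (coeff (Finsupp.single q 1)) h2
      rw [coeff_C_mul, coeff_lin, coeff_lin] at h3
      exact h3
    · have h3 := congrArg (coeff 0) h2
      rw [coeff_C_mul, coeff_lin_zero, coeff_lin_zero] at h3
      exact h3

end Linear

end Pool.Agent.MP_dd1803_nt
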