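import Mathlib
import Pool.Agent.MP_dd1803_nt.StepB

open MvPolynomial

namespace Pool.Agent.MP_dd1803_nt

section Gadget

variable {e N : ℕ}

/-- nodes of the gadget -/
abbrev Nod (e N : ℕ) := Fin 5 × (Fin e × Fin (N + 1))

/-- free parameters of the gadget -/
abbrev Par (e N : ℕ) := (Fin e × Fin (N + 1)) ⊕ Fin e

def sg : Fin 5 → Fin (N + 1) → Fin (N + 1) → ℕ
  | 0, _, _ => 0
  | 1, l, l' => if l' = l then 1 else 0
  | 2, l, l' => if l' = l then 1 else 0
  | 3, l, l' => if l'.val < l.val then 1 else 0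
  | 4, l, l' => if l.val ≤ l'.val then 1 else 0

def et : Fin 5 → Fin (N + 1) → Fin (N + 1) → ℕ
  | 0, l, l' => if l' = l then 1 else 0
  | 1, _, _ => 0
  | 2, l, l' => if l' = l then 1 else 0
  | 3, l, l' => if l'.val < l.val then 1 else 0
  | 4, _, _ => 0

def dl : Fin 5 → ℕ
  | 0 => 0
  | 1 => 0
  | 2 => 0
  | 3 => 1
  | 4 => 1

variable {R : Type} [CommRing R]

/-- value of a node -/
def val (x : Fin e × Fin (N + 1) → R) (t : Par e N → R) (b : Nod e N) : R :=
  (dl b.1 : R) * t (Sum.inr b.2.1) + ∑ l', (sg b.1 b.2.2 l' : R) * t (Sum.inl (b.2.1, l')) +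
    ∑ l', (et b.1 b.2.2 l' : R) * x (b.2.1, l')

theorem map_val {S : Type} [CommRing S] (f : R →+* S) (x : Fin e × Fin (N + 1) → R)
    (t : Par e N → R) (b : Nod e N) :
    f (val x t b) = val (fun p => f (x p)) (fun p => f (t p)) b := by
  unfold val
  simp only [map_add, map_mul, map_sum, map_natCast]

def nD (p : Fin e × Fin (N + 1)) : Nod e N :=
  if h : p.2.val + 1 < N + 1 then (3, (p.1, ⟨p.2.val + 1, h⟩)) else (4, (p.1, 0))

def nC (p : Fin e × Fin (N + 1)) : Nod e N :=
  if h : p.2.val + 1 < N + 1 then (4, (p.1, ⟨p.2.val + 1, h⟩)) else (3, (p.1, 0))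

theorem val_zero (x : Fin e × Fin (N + 1) → R) (t : Par e N → R) (p : Fin e × Fin (N + 1)) :
    val x t (0, p) = x p := by
  simp [val, dl, sg, et]

theorem val_one (x : Fin e × Fin (N + 1) → R) (t : Par e N → R) (p : Fin e × Fin (N + 1)) :
    val x t (1, p) = t (Sum.inl p) := by
  simp [val, dl, sg, et]

theorem val_two (x : Fin e × Fin (N + 1) → R) (t : Par e N → R) (p : Fin e × Fin (N + 1)) :
    val x t (2, p) = x p + t (Sum.inl p) := by
  simp [val, dl, sg, et]
  ring

theorem val_three_zero (x : Fin e × Fin (N + 1) → R) (t : Par e N → R) (i : Fin e) :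
    val x t (3, (i, 0)) = t (Sum.inr i) := by
  simp [val, dl, sg, et]

theorem sum_lt_succ (l : Fin (N + 1)) (f : Fin (N + 1) → R) :
    ∑ l', ((if l'.val < l.val + 1 then 1 else 0 : ℕ) : R) * f l' =
      ∑ l', ((if l'.val < l.val then 1 else 0 : ℕ) : R) * f l' + f l := by
  have h1 : ∀ l', ((if l'.val < l.val + 1 then 1 else 0 : ℕ) : R) * f l' =
      ((if l'.val < l.val then 1 else 0 : ℕ) : R) * f l' + (if l' = l then f l' else 0) := by
    intro l'
    rcases lt_trichotomy l'.val l.val with h | h | h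
    · have h2 : l' ≠ l := fun h3 => by rw [h3] at h; omega
      rw [if_pos (by omega), if_pos h, if_neg h2, add_zero]
    · have h2 : l' = l := Fin.ext h
      subst h2
      simp
    · have h2 : l' ≠ l := fun h3 => by rw [h3] at h; omega
      rw [if_neg (by omega), if_neg (by omega), if_neg h2, add_zero]
  simp only [h1]
  rw [Finset.sum_add_distrib, Finset.sum_ite_eq']
  simp

theorem sum_ge_succ (l : Fin (N + 1)) (f : Fin (N + 1) → R) :
    ∑ l', ((if l.val ≤ l'.val then 1 else 0 : ℕ) : R) * f l' =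
      ∑ l', ((if l.val + 1 ≤ l'.val then 1 else 0 : ℕ) : R) * f l' + f l := by
  have h1 : ∀ l', ((if l.val ≤ l'.val then 1 else 0 : ℕ) : R) * f l' =
      ((if l.val + 1 ≤ l'.val then 1 else 0 : ℕ) : R) * f l' + (if l' = l then f l' else 0) := by
    intro l'
    rcases lt_trichotomy l'.val l.val with h | h | h
    · have h2 : l' ≠ l := fun h3 => by rw [h3] at h; omega
      rw [if_neg (by omega), if_neg (by omega), if_neg h2, add_zero]
    · have h2 : l' = l := Fin.ext h
      subst h2
      simp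
    · have h2 : l' ≠ l := fun h3 => by rw [h3] at h; omega
      rw [if_pos (by omega), if_pos (by omega), if_neg h2, add_zero]
  simp only [h1]
  rw [Finset.sum_add_distrib, Finset.sum_ite_eq']
  simp

theorem rel_D (x : Fin e × Fin (N + 1) → R) (t : Par e N → R) (p : Fin e × Fin (N + 1))
    (hx : ∑ l, x (p.1, l) = 0) :
    val x t (3, p) + val x t (2, p) = val x t (nD p) := by
  obtain ⟨i, l⟩ := p
  unfold nD
  by_cases h : l.val + 1 < N + 1
  · rw [dif_pos h, val_two]
    simp only [val, dl, sg, et]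
    rw [sum_lt_succ l (fun l' => t (Sum.inl (i, l'))), sum_lt_succ l (fun l' => x (i, l'))]
    ring
  · rw [dif_neg h, val_two]
    have hl : l.val = N := by omega
    simp only [val, dl, sg, et]
    have h1 := sum_lt_succ l (fun l' => t (Sum.inl (i, l')))
    have h2 := sum_lt_succ l (fun l' => x (i, l'))
    have h3 : ∀ f : Fin (N + 1) → R,
        ∑ l', ((if l'.val < l.val + 1 then 1 else 0 : ℕ) : R) * f l' = ∑ l', f l' := by
      intro f
      apply Finset.sum_congr rfl
      intro l' _
      rw [if_pos (by omega)]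
      simp
    rw [h3] at h1 h2
    have h4 : ∑ l' : Fin (N + 1), ((if (0 : Fin (N + 1)).val ≤ l'.val then 1 else 0 : ℕ) : R) *
        t (Sum.inl (i, l')) = ∑ l', t (Sum.inl (i, l')) := by
      apply Finset.sum_congr rfl
      intro l' _
      rw [if_pos (by simp)]
      simp
    rw [h4, h1]
    simp only at hx
    rw [hx] at h2
    have h5 : ∑ l' : Fin (N + 1), ((if l'.val < l.val then 1 else 0 : ℕ) : R) * x (i, l') =
        - x (i, l) := by
      rw [eq_comm, add_comm] at h2
      exact eq_neg_of_add_eq_zero_right h2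
    rw [h5]
    simp
    ring

theorem rel_C (x : Fin e × Fin (N + 1) → R) (t : Par e N → R) (p : Fin e × Fin (N + 1)) :
    val x t (nC p) + val x t (1, p) = val x t (4, p) := by
  obtain ⟨i, l⟩ := p
  unfold nC
  by_cases h : l.val + 1 < N + 1
  · rw [dif_pos h, val_one]
    simp only [val, dl, sg, et]
    rw [sum_ge_succ l (fun l' => t (Sum.inl (i, l')))]
    simp
    ring
  · rw [dif_neg h, val_one, val_three_zero]
    have hl : l.val = N := by omega
    simp only [val, dl, sg, et]
    rw [sum_ge_succ l (fun l' => t (Sum.inl (i, l')))]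
    have h3 : ∑ l' : Fin (N + 1), ((if l.val + 1 ≤ l'.val then 1 else 0 : ℕ) : R) *
        t (Sum.inl (i, l')) = 0 := by
      apply Finset.sum_eq_zero
      intro l' _
      rw [if_neg (by omega)]
      simp
    rw [h3]
    simp

theorem tele_up {N : ℕ} (D w : Fin (N + 1) → R) (E : R)
    (h : ∀ l : Fin (N + 1), (if h : l.val + 1 < N + 1 then D ⟨l.val + 1, h⟩ else E) = D l + w l) :
    E = D 0 + ∑ l, w l := by
  induction N with
  | zero =>
    have := h 0
    simpa using this
  | succ N ih =>
    have h1 := ih (fun l => D l.succ) (fun l => w l.succ) (by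
      intro l
      have h2 := h l.succ
      rw [← h2]
      by_cases h3 : l.val + 1 < N + 1
      · rw [dif_pos h3, dif_pos (by simp; omega)]
        rfl
      · rw [dif_neg h3, dif_neg (by simp; omega)])
    have h2 := h 0
    rw [dif_pos (by simp)] at h2
    have h3 : (⟨(0 : Fin (N + 1 + 1)).val + 1, by simp⟩ : Fin (N + 1 + 1)) = (0 : Fin (N + 1)).succ := rfl
    rw [h3] at h2
    rw [h1, h2, Fin.sum_univ_succ w]
    ring

theorem tele_down {N : ℕ} (D w : Fin (N + 1) → R) (E : R)
    (h : ∀ l : Fin (N + 1), (if h : l.val + 1 < N + 1 then D ⟨l.val + 1, h⟩ else E) + w l = D l) :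
    D 0 = E + ∑ l, w l := by
  induction N with
  | zero =>
    have := h 0
    simpa using this.symm
  | succ N ih =>
    have h1 := ih (fun l => D l.succ) (fun l => w l.succ) (by
      intro l
      have h2 := h l.succ
      rw [← h2]
      by_cases h3 : l.val + 1 < N + 1
      · rw [dif_pos h3, dif_pos (by simp; omega)]
        rfl
      · rw [dif_neg h3, dif_neg (by simp; omega)])
    have h2 := h 0
    rw [dif_pos (by simp)] at h2
    have h3 : (⟨(0 : Fin (N + 1 + 1)).val + 1, by simp⟩ : Fin (N + 1 + 1)) = (0 : Fin (N + 1)).succ := rfl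
    rw [h3] at h2
    rw [← h2, h1, Fin.sum_univ_succ w]
    ring

/-- relation indices -/
def relA : Fin 3 × (Fin e × Fin (N + 1)) → Nod e N
  | (0, p) => (2, p)
  | (1, p) => nD p
  | (2, p) => (4, p)

def relB : Fin 3 × (Fin e × Fin (N + 1)) → Nod e N
  | (0, p) => (0, p)
  | (1, p) => (3, p)
  | (2, p) => nC p

def relC : Fin 3 × (Fin e × Fin (N + 1)) → Nod e N
  | (0, p) => (1, p)
  | (1, p) => (2, p)
  | (2, p) => (1, p)

theorem forall_rel {P : Nod e N → Nod e N → Nod e N → Prop} :
    (∀ r, P (relA r) (relB r) (relC r)) ↔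
      ∀ p, P (2, p) (0, p) (1, p) ∧ P (nD p) (3, p) (2, p) ∧ P (4, p) (nC p) (1, p) := by
  constructor
  · intro h p
    exact ⟨h (0, p), h (1, p), h (2, p)⟩
  · rintro h ⟨r, p⟩
    fin_cases r
    · exact (h p).1
    · exact (h p).2.1
    · exact (h p).2.2

theorem val_rel (x : Fin e × Fin (N + 1) → R) (t : Par e N → R)
    (hx : ∀ i, ∑ l, x (i, l) = 0) (r : Fin 3 × (Fin e × Fin (N + 1))) :
    val x t (relB r) + val x t (relC r) = val x t (relA r) := by
  revert r
  rw [forall_rel (P := fun a b c => val x t b + val x t c = val x t a)]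
  intro p
  refine ⟨?_, rel_D x t p (hx p.1), rel_C x t p⟩
  rw [val_zero, val_one, val_two]

/-- The relations force the sums to vanish. -/
theorem sum_eq_zero_of_rel (y : Nod e N → R) (h : ∀ r, y (relB r) + y (relC r) = y (relA r))
    (i : Fin e) : ∑ l, y (0, (i, l)) = 0 := by
  rw [forall_rel (P := fun a b c => y b + y c = y a)] at h
  have h1 := tele_up (fun l => y (3, (i, l))) (fun l => y (2, (i, l))) (y (4, (i, 0))) (by
    intro l
    rw [(h (i, l)).2.1]
    unfold nD
    by_cases h3 : l.val + 1 < N + 1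
    · rw [dif_pos h3, dif_pos h3]
    · rw [dif_neg h3, dif_neg h3])
  have h2 := tele_down (fun l => y (4, (i, l))) (fun l => y (1, (i, l))) (y (3, (i, 0))) (by
    intro l
    rw [← (h (i, l)).2.2]
    unfold nC
    by_cases h3 : l.val + 1 < N + 1
    · rw [dif_pos h3, dif_pos h3]
    · rw [dif_neg h3, dif_neg h3])
  have h3 : ∑ l, y (2, (i, l)) = ∑ l, y (0, (i, l)) + ∑ l, y (1, (i, l)) := by
    rw [← Finset.sum_add_distrib]
    apply Finset.sum_congr rfl
    intro l _
    exact (h (i, l)).1.symm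
  rw [h2, h3] at h1
  have h4 := add_left_cancel h1
  have h5 : ∑ l, y (0, (i, l)) + ∑ l, y (1, (i, l)) = 0 + ∑ l, y (1, (i, l)) := by
    rw [zero_add]
    exact h4.symm
  exact add_right_cancel h5

/-- All node coordinates lie in the subalgebra generated by the free ones. -/
theorem mem_of_rel {S : Type} [SetLike S R] [SubringClass S R] (A0 : S) (y : Nod e N → R)
    (h : ∀ r, y (relB r) + y (relC r) = y (relA r)) (h0 : ∀ p, y (0, p) ∈ A0)
    (h1 : ∀ p, y (1, p) ∈ A0) (h3 : ∀ i, y (3, (i, 0)) ∈ A0) (b : Nod e N) : y b ∈ A0 := by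
  rw [forall_rel (P := fun a b c => y b + y c = y a)] at h
  have h2 : ∀ p, y (2, p) ∈ A0 := by
    intro p
    rw [← (h p).1]
    exact add_mem (h0 p) (h1 p)
  have h3' : ∀ n : ℕ, ∀ hn : n < N + 1, ∀ i, y (3, (i, ⟨n, hn⟩)) ∈ A0 := by
    intro n
    induction n with
    | zero => intro _ i; exact h3 i
    | succ n ih =>
      intro hn i
      have h4 := (h (i, ⟨n, by omega⟩)).2.1
      unfold nD at h4
      rw [dif_pos hn] at h4
      rw [← h4]
      exact add_mem (ih _ i) (h2 _)
  have h4' : ∀ n : ℕ, ∀ hn : n < N + 1, ∀ i, y (4, (i, ⟨N - n, by omega⟩)) ∈ A0 := by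
    intro n
    induction n with
    | zero =>
      intro _ i
      have h4 := (h (i, ⟨N, by omega⟩)).2.2
      unfold nC at h4
      rw [dif_neg (by simp)] at h4
      have h5 : (⟨N - 0, by omega⟩ : Fin (N + 1)) = ⟨N, by omega⟩ := Fin.ext (by simp)
      rw [h5, ← h4]
      exact add_mem (h3 i) (h1 _)
    | succ n ih =>
      intro hn i
      have h4 := (h (i, ⟨N - (n + 1), by omega⟩)).2.2
      unfold nC at h4
      rw [dif_pos (by simp; omega)] at h4
      rw [← h4]
      have h5 : (⟨N - (n + 1) + 1, by omega⟩ : Fin (N + 1)) = ⟨N - n, by omega⟩ :=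
        Fin.ext (by simp; omega)
      apply add_mem
      · have h6 := ih (by omega) i
        rw [← h5] at h6
        exact h6
      · exact h1 _
  obtain ⟨a, i, l⟩ := b
  fin_cases a
  · exact h0 _
  · exact h1 _
  · exact h2 _
  · exact h3' l.val l.isLt i
  · have h6 := h4' (N - l.val) (by omega) i
    have h7 : (⟨N - (N - l.val), by omega⟩ : Fin (N + 1)) = l := Fin.ext (by simp; omega)
    rw [h7] at h6
    exact h6

end Gadget

end Pool.Agent.MP_dd1803_nt
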