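import Mathlib
import Pool.Agent.MP_dd1803_nt.Gadget

open MvPolynomial

namespace Pool.Agent.MP_dd1803_nt

section Diff

variable {F : Type} [Field F] {κ κ' : Type} {k : Type} [Field k] [Algebra k F]

theorem vI_diff {S C : Set (κ → Fˣ)} (hS : PIrr S) (hC : ZClosed C) (h : ¬ S ⊆ C) :
    vI k (S \ C) = vI k S := by
  apply le_antisymm
  · intro p hp
    rw [mem_vI] at hp
    have h1 : S \ C ⊆ zl k {p} := by
      intro x hx q hq
      rw [Set.mem_singleton_iff.mp hq]
      exact hp x hx
    have h2 := hS.subset_of_diff hC h (zclosed_zl _) h1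
    rw [mem_vI]
    intro x hx
    exact h2 hx p rfl
  · exact vI_anti Set.sdiff_subset

theorem td_diff {S C : Set (κ → Fˣ)} (hS : PIrr S) (hC : ZClosed C) (h : ¬ S ⊆ C) :
    td k (S \ C) = td k S := by
  unfold td
  rw [vI_diff hS hC h]

theorem cl_diff {S C : Set (κ → Fˣ)} (hS : PIrr S) (hC : ZClosed C) (h : ¬ S ⊆ C) :
    cl k (S \ C) = cl k S := by
  unfold cl
  rw [vI_diff hS hC h]

theorem Lam_diff [Fintype κ] {S C : Set (κ → Fˣ)} (hS : PIrr S) (hC : ZClosed C) (h : ¬ S ⊆ C) :
    Lam (S \ C) = Lam S := by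
  rw [← Lam_cl (k := F), cl_diff hS hC h, Lam_cl]

theorem rk_pull_le [Fintype κ] [Fintype κ'] {X : Set (κ → Fˣ)} {e : κ' → κ}
    (he : Function.Injective e) : rk (pull e '' X) ≤ rk X := by
  let f : Lam (pull e '' X) →ₗ[ℤ] Lam X :=
    LinearMap.codRestrict _ ((extM e).comp (Lam (pull e '' X)).subtype) (by
      rintro ⟨m, hm⟩
      exact extM_mem_Lam.mpr hm)
  apply LinearMap.finrank_le_finrank_of_injective (f := f)
  rw [injective_iff_map_eq_zero]
  rintro ⟨m, hm⟩ hf
  apply Subtype.ext
  funext i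
  have h1 : extM e m = 0 := congrArg Subtype.val hf
  have h2 := congrFun h1 (e i)
  rw [extM_apply_self he] at h2
  exact h2

end Diff

section StepC

variable {F : Type} [Field F] {e N : ℕ}

/-- linear coefficients of a node -/
def alf (F : Type) [Field F] (b : Nod e N) : Par e N → F
  | Sum.inl q => if q.1 = b.2.1 then (sg b.1 b.2.2 q.2 : F) else 0
  | Sum.inr i => if i = b.2.1 then (dl b.1 : F) else 0

/-- constant coefficient of a node -/
def hh (x : Fin e × Fin (N + 1) → F) (b : Nod e N) : F :=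
  ∑ l', (et b.1 b.2.2 l' : F) * x (b.2.1, l')

theorem val_eq_lin (x : Fin e × Fin (N + 1) → F) (b : Nod e N) :
    val (fun p => (C (x p) : MvPolynomial (Par e N) F)) (fun p => X p) b =
      ∑ q, C (alf F b q) * X q + C (hh x b) := by
  classical
  unfold val hh
  rw [Fintype.sum_sum_type, map_sum]
  simp only [alf, map_mul, map_natCast]
  congr 1
  rw [add_comm]
  congr 1
  · rw [Fintype.sum_prod_type, Finset.sum_eq_single b.2.1]
    · apply Finset.sum_congr rfl
      intro l' _
      rw [if_pos rfl, map_natCast]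
    · intro i _ hi
      apply Finset.sum_eq_zero
      intro l' _
      rw [if_neg hi, map_zero, zero_mul]
    · intro h
      exact absurd (Finset.mem_univ _) h
  · rw [Finset.sum_eq_single b.2.1]
    · rw [if_pos rfl, map_natCast]
    · intro i _ hi
      rw [if_neg hi, map_zero, zero_mul]
    · intro h
      exact absurd (Finset.mem_univ _) h

/-- the pivot variable -/
def piv (b : Nod e N) : Par e N :=
  match b.1 with
  | 0 => Sum.inl b.2
  | 1 => Sum.inl b.2
  | 2 => Sum.inl b.2
  | 3 => Sum.inr b.2.1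
  | 4 => Sum.inr b.2.1

theorem alf_piv (b : Nod e N) (hb : b.1 ≠ 0) : alf F b (piv b) = 1 := by
  obtain ⟨a, i, l⟩ := b
  fin_cases a
  · exact absurd rfl hb
  · simp [alf, piv, sg]
  · simp [alf, piv, sg]
  · simp [alf, piv, dl]
  · simp [alf, piv, dl]

theorem alf_zero_or_one (b : Nod e N) (q : Par e N) : alf F b q = 0 ∨ alf F b q = 1 := by
  classical
  obtain ⟨a, i, l⟩ := b
  rcases q with q | i'
  · simp only [alf]
    split_ifs
    · fin_cases a
      · left; simp [sg]
      · simp only [sg]; split_ifs <;> simp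
      · simp only [sg]; split_ifs <;> simp
      · simp only [sg]; split_ifs <;> simp
      · simp only [sg]; split_ifs <;> simp
    · exact Or.inl rfl
  · simp only [alf]
    split_ifs
    · fin_cases a <;> simp [dl]
    · exact Or.inl rfl

theorem hh_zero (x : Fin e × Fin (N + 1) → F) (p : Fin e × Fin (N + 1)) : hh x (0, p) = x p := by
  simp [hh, et]

theorem hh_one (x : Fin e × Fin (N + 1) → F) (p : Fin e × Fin (N + 1)) : hh x (1, p) = 0 := by
  simp [hh, et]

theorem hh_two (x : Fin e × Fin (N + 1) → F) (p : Fin e × Fin (N + 1)) : hh x (2, p) = x p := by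
  simp [hh, et]

theorem node_ne_zero {x : Fin e × Fin (N + 1) → F} (hx : ∀ p, x p ≠ 0) (b : Nod e N) :
    ¬ (alf F b = 0 ∧ hh x b = 0) := by
  rintro ⟨h1, h2⟩
  by_cases hb : b.1 = 0
  · obtain ⟨a, p⟩ := b
    simp only at hb
    subst hb
    rw [hh_zero] at h2
    exact hx p h2
  · have h3 := alf_piv (F := F) b hb
    rw [h1] at h3
    exact zero_ne_one h3

theorem node_inj {x : Fin e × Fin (N + 1) → F} (hx : ∀ p, x p ≠ 0) (b b0 : Nod e N)
    (hb0 : b0.1 ≠ 0) (h1 : alf F b = alf F b0) (h2 : hh x b = hh x b0) : b = b0 := by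
  classical
  obtain ⟨a, i, l⟩ := b
  obtain ⟨a0, i0, l0⟩ := b0
  have hi : i0 = i := by
    have h3 := alf_piv (F := F) (a0, (i0, l0)) hb0
    rw [← h1] at h3
    by_contra hne
    fin_cases a0
    · exact hb0 rfl
    · simp [alf, piv, hne] at h3
    · simp [alf, piv, hne] at h3
    · simp [alf, piv, hne] at h3
    · simp [alf, piv, hne] at h3
  subst hi
  have h3 : (dl a : F) = (dl a0 : F) := by
    have := congrFun h1 (Sum.inr i0)
    simpa [alf] using this
  have h4 : ∀ l', (sg a l l' : F) = (sg a0 l0 l' : F) := by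
    intro l'
    have := congrFun h1 (Sum.inl (i0, l'))
    simpa [alf] using this
  have hinj : ∀ u v : Prop, [Decidable u] → [Decidable v] →
      (((if u then 1 else 0 : ℕ) : F) = ((if v then 1 else 0 : ℕ) : F)) → (u ↔ v) := by
    intro u v _ _ h
    by_cases hu : u <;> by_cases hv : v <;> simp_all
  have hlast : ∀ l : Fin (N + 1), l.val ≤ (Fin.last N).val := fun l => by
    simp only [Fin.val_last]; omega
  fin_cases a0
  · exact absurd rfl hb0
  · fin_cases a
    · have := h4 l0
      simp [sg] at this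
    · have := (hinj _ _ (h4 l0)).mpr rfl
      rw [this]
    · exfalso
      have := h4 l0
      have h5 : l0 = l := by
        by_contra h6
        simp [sg, h6] at this
      have h6 : hh x (2, (i0, l)) = hh x (1, (i0, l0)) := h2
      rw [hh_two, hh_one] at h6
      exact hx _ h6
    · simp [dl] at h3
    · simp [dl] at h3
  · fin_cases a
    · have := h4 l0
      simp [sg] at this
    · exfalso
      have h6 : hh x (1, (i0, l)) = hh x (2, (i0, l0)) := h2
      rw [hh_two, hh_one] at h6
      exact hx _ h6.symm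
    · have := (hinj _ _ (h4 l0)).mpr rfl
      rw [this]
    · simp [dl] at h3
    · simp [dl] at h3
  · fin_cases a
    · simp [dl] at h3
    · simp [dl] at h3
    · simp [dl] at h3
    · have h5 : l = l0 := by
        apply Fin.ext
        rcases lt_trichotomy l.val l0.val with h6 | h6 | h6
        · have := (hinj _ _ (h4 l)).mpr h6
          omega
        · exact h6
        · have := (hinj _ _ (h4 l0)).mp h6
          omega
      rw [h5]
    · exfalso
      have := (hinj _ _ (h4 (Fin.last N))).mp (hlast l)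
      have := hlast l0
      omega
  · fin_cases a
    · simp [dl] at h3
    · simp [dl] at h3
    · simp [dl] at h3
    · exfalso
      have := (hinj _ _ (h4 (Fin.last N))).mpr (hlast l0)
      have := hlast l
      omega
    · have h5 : l = l0 := by
        apply Fin.ext
        rcases lt_trichotomy l.val l0.val with h6 | h6 | h6
        · have := (hinj _ _ (h4 l)).mp le_rfl
          omega
        · exact h6
        · have := (hinj _ _ (h4 l0)).mpr le_rfl
          omega
      rw [h5]

/-- node polynomials -/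
noncomputable def G (F : Type) [Field F] (b : Nod e N) :
    MvPolynomial ((Fin e × Fin (N + 1)) ⊕ Par e N) F :=
  val (fun p => X (Sum.inl p)) (fun p => X (Sum.inr p)) b

theorem aeval_G (y : (Fin e × Fin (N + 1)) ⊕ Par e N → Fˣ) (b : Nod e N) :
    aeval (co y) (G F b) = val (fun p => co y (Sum.inl p)) (fun p => co y (Sum.inr p)) b := by
  have h1 := map_val (aeval (co y) : MvPolynomial ((Fin e × Fin (N + 1)) ⊕ Par e N) F →ₐ[F] F).toRingHom
    (fun p => X (Sum.inl p)) (fun p => X (Sum.inr p)) b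
  unfold G
  refine h1.trans ?_
  congr 1
  · funext p
    simp
  · funext p
    simp

theorem aeval_lin (x : Fin e × Fin (N + 1) → Fˣ) (t : Par e N → Fˣ) (b : Nod e N) :
    aeval (co t) (∑ q, C (alf F b q) * X q + C (hh (co x) b) : MvPolynomial (Par e N) F) =
      aeval (co (Sum.elim x t)) (G F b) := by
  rw [← val_eq_lin, aeval_G]
  have h1 := map_val (aeval (co t) : MvPolynomial (Par e N) F →ₐ[F] F).toRingHom
    (fun p => (C (co x p) : MvPolynomial (Par e N) F)) (fun p => X p) b
  refine h1.trans ?_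
  congr 1
  · funext p
    simp [co]
  · funext p
    simp [co]

open Classical in
/-- the lifting map -/
noncomputable def Ph (y : (Fin e × Fin (N + 1)) ⊕ Par e N → Fˣ) : Nod e N → Fˣ :=
  fun b => if h : aeval (co y) (G F b) = 0 then 1 else Units.mk0 _ h

/-- the locus where the lifting map is not defined -/
noncomputable def C0 (F : Type) [Field F] (e N : ℕ) : Set ((Fin e × Fin (N + 1)) ⊕ Par e N → Fˣ) :=
  zp (∏ b : Nod e N, G F b)

theorem notMem_C0 {y : (Fin e × Fin (N + 1)) ⊕ Par e N → Fˣ} :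
    y ∉ C0 F e N ↔ ∀ b, aeval (co y) (G F b) ≠ 0 := by
  unfold C0
  rw [mem_zp, map_prod, ← ne_eq, Finset.prod_ne_zero_iff]
  simp

theorem co_Ph {y : (Fin e × Fin (N + 1)) ⊕ Par e N → Fˣ} (hy : y ∉ C0 F e N) (b : Nod e N) :
    co (Ph y) b = aeval (co y) (G F b) := by
  rw [notMem_C0] at hy
  rw [co_apply]
  unfold Ph
  rw [dif_neg (hy b)]
  rfl

theorem ratMap_Ph (S : Set ((Fin e × Fin (N + 1)) ⊕ Par e N → Fˣ)) :
    RatMap (S \ C0 F e N) (Ph (F := F)) := by
  intro b
  refine ⟨G F b, 1, ?_⟩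
  intro y hy
  have h1 := co_Ph hy.2 b
  rw [co_apply] at h1
  simp [h1]

theorem Ph_zero {y : (Fin e × Fin (N + 1)) ⊕ Par e N → Fˣ} (hy : y ∉ C0 F e N)
    (p : Fin e × Fin (N + 1)) : Ph y (0, p) = y (Sum.inl p) := by
  apply Units.ext
  have h1 := co_Ph hy (0, p)
  rw [aeval_G, val_zero] at h1
  exact h1

theorem Ph_one {y : (Fin e × Fin (N + 1)) ⊕ Par e N → Fˣ} (hy : y ∉ C0 F e N)
    (p : Fin e × Fin (N + 1)) : Ph y (1, p) = y (Sum.inr (Sum.inl p)) := by
  apply Units.ext
  have h1 := co_Ph hy (1, p)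
  rw [aeval_G, val_one] at h1
  exact h1

theorem Ph_three {y : (Fin e × Fin (N + 1)) ⊕ Par e N → Fˣ} (hy : y ∉ C0 F e N)
    (i : Fin e) : Ph y (3, (i, 0)) = y (Sum.inr (Sum.inr i)) := by
  apply Units.ext
  have h1 := co_Ph hy (3, (i, 0))
  rw [aeval_G, val_three_zero] at h1
  exact h1

variable [IsAlgClosed F]

theorem lin_ne_zero {x : Fin e × Fin (N + 1) → Fˣ} (b : Nod e N) :
    (∑ q, C (alf F b q) * X q + C (hh (co x) b) : MvPolynomial (Par e N) F) ≠ 0 := by
  classical
  intro h
  apply node_ne_zero (x := co x) (fun p => co_ne_zero x p) b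
  constructor
  · funext q
    have := coeff_lin (alf F b) (hh (co x) b) q
    rw [h, coeff_zero] at this
    exact this.symm
  · have := coeff_lin_zero (alf F b) (hh (co x) b)
    rw [h, coeff_zero] at this
    exact this.symm

theorem not_subset_C0 {X : Set (Fin e × Fin (N + 1) → Fˣ)} (hX : X.Nonempty) :
    ¬ prodSet X (Set.univ : Set (Par e N → Fˣ)) ⊆ C0 F e N := by
  intro h
  obtain ⟨x, hx⟩ := hX
  have h1 : (∏ b : Nod e N, (∑ q, C (alf F b q) * MvPolynomial.X q + C (hh (co x) b) :
      MvPolynomial (Par e N) F)) ∈ vI F (Set.univ : Set (Par e N → Fˣ)) := by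
    rw [mem_vI]
    intro t _
    rw [map_prod]
    simp only [aeval_lin]
    have h2 := h (a := Sum.elim x t) (elim_mem_prodSet.mpr ⟨hx, trivial⟩)
    unfold C0 at h2
    rw [mem_zp, map_prod] at h2
    exact h2
  rw [vI_univ, Ideal.mem_bot, Finset.prod_eq_zero_iff] at h1
  obtain ⟨b, _, hb⟩ := h1
  exact lin_ne_zero b hb

theorem supp_lift {X : Set (Fin e × Fin (N + 1) → Fˣ)} (hX : X.Nonempty) {m : Nod e N → ℤ}
    (hm : m ∈ Lam (Ph '' (prodSet X (Set.univ : Set (Par e N → Fˣ)) \ C0 F e N)))
    (b0 : Nod e N) (hb0 : b0.1 ≠ 0) : m b0 = 0 := by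
  classical
  obtain ⟨x, hx⟩ := hX
  obtain ⟨M, hM, hm⟩ := hm
  let n : Nod e N → ℤ := (M : ℤ) • m
  let l : Nod e N → MvPolynomial (Par e N) F :=
    fun b => ∑ q, C (alf F b q) * MvPolynomial.X q + C (hh (co x) b)
  have heq : ∏ b, l b ^ (n b).toNat = ∏ b, l b ^ (-n b).toNat := by
    have h1 : (∏ b, l b ^ (n b).toNat - ∏ b, l b ^ (-n b).toNat) * ∏ b, l b ∈
        vI F (Set.univ : Set (Par e N → Fˣ)) := by
      rw [mem_vI]
      intro t _
      rw [map_mul, map_prod]
      by_cases h0 : ∏ b, aeval (co t) (l b) = 0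
      · rw [h0, mul_zero]
      · have h1 : Sum.elim x t ∉ C0 F e N := by
          rw [notMem_C0]
          intro b
          rw [← aeval_lin]
          exact (Finset.prod_ne_zero_iff.mp h0) b (Finset.mem_univ b)
        have h2 := hm _ ⟨Sum.elim x t, ⟨elim_mem_prodSet.mpr ⟨hx, trivial⟩, h1⟩, rfl⟩
        rw [← zpow_natCast, ← ch_zsmul, ← aeval_bn (k := F)] at h2
        unfold bn at h2
        rw [map_sub, map_prod, map_prod] at h2
        simp only [map_pow, aeval_X] at h2
        simp only [co_Ph h1, ← aeval_lin] at h2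
        rw [map_sub, map_prod, map_prod]
        simp only [map_pow]
        show (∏ b, (aeval (co t) (l b)) ^ (n b).toNat - ∏ b, (aeval (co t) (l b)) ^ (-n b).toNat) * _ = 0
        rw [h2, zero_mul]
    rw [vI_univ, Ideal.mem_bot, mul_eq_zero] at h1
    rcases h1 with h2 | h2
    · exact sub_eq_zero.mp h2
    · rw [Finset.prod_eq_zero_iff] at h2
      obtain ⟨b, _, hb⟩ := h2
      exact absurd hb (lin_ne_zero b)
  have h1 := exists_theta (alf F) (hh (co x)) n heq b0 (piv b0) (alf_piv b0 hb0) (by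
    rintro b hb ⟨h1, h2⟩
    rcases alf_zero_or_one (F := F) b (piv b0) with h3 | h3
    · rw [h3, zero_smul] at h1
      rw [h3, zero_mul] at h2
      exact node_ne_zero (x := co x) (fun p => co_ne_zero x p) b ⟨h1, h2⟩
    · rw [h3, one_smul] at h1
      rw [h3, one_mul] at h2
      exact hb (node_inj (x := co x) (fun p => co_ne_zero x p) b b0 hb0 h1 h2))
  have h2 : (M : ℤ) * m b0 = 0 := h1
  rcases mul_eq_zero.mp h2 with h3 | h3
  · omega
  · exact h3

end StepC

end Pool.Agent.MP_dd1803_nt
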