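import Mathlib
import Pool.Agent.MP_dd1803_nt.StepC

open MvPolynomial

namespace Pool.Agent.MP_dd1803_nt

section StepD

variable {F : Type} [Field F] [IsAlgClosed F] {e N : ℕ}

theorem finite_maxE_PS_succ (hL : ∀ k, (MaxE k (LL F k)).Finite) (e N : ℕ) :
    (MaxE e (PS F e (N + 1))).Finite := by
  classical
  have hT3 := finite_maxE_T3 hL (relA (e := e) (N := N)) relB relC
  let j : Fin e × Fin (N + 1) → Nod e N := fun p => (0, p)
  have hj : Function.Injective j := fun a b h => (Prod.mk.inj h).2
  refine finite_maxE_of_ext (zclosed_PS e (N + 1)) j hj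
    (D := e * (N + 1) + e) ?_ hT3 ?_
  · simp only [Fintype.card_prod, Fintype.card_fin]
    ring
  intro X hX
  have hXi := MaxE.irr hX
  have hXV := MaxE.subset hX
  have hU : Irr (Set.univ : Set (Par e N → Fˣ)) := irr_univ
  let S0 : Set ((Fin e × Fin (N + 1)) ⊕ Par e N → Fˣ) := prodSet X Set.univ
  have hS0 : PIrr S0 := hXi.pirr.prodSet hU.pirr
  have hC : ZClosed (C0 F e N) := zclosed_zp _
  have hns : ¬ S0 ⊆ C0 F e N := not_subset_C0 hXi.nonempty
  let S : Set ((Fin e × Fin (N + 1)) ⊕ Par e N → Fˣ) := S0 \ C0 F e N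
  have hS : PIrr S := hS0.diff hC hns
  have hrat : RatMap S (Ph (F := F) (e := e) (N := N)) := ratMap_Ph _
  have himg : PIrr (Ph '' S) := hS.image hrat
  have hpull : pull j '' (Ph '' S) = pull Sum.inl '' S := by
    rw [Set.image_image]
    apply Set.image_congr
    intro y hy
    funext p
    exact Ph_zero hy.2 p
  have hsub : pull j '' (Ph '' S) ⊆ X := by
    rw [hpull]
    rintro _ ⟨y, hy, rfl⟩
    exact hy.1.1
  have hsub' : pull j '' (cl F (Ph '' S)) ⊆ X := by
    rw [Set.image_subset_iff]
    apply cl_subset _ ((ratMap_pull Set.univ j).preimage_closed hXi.closed)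
    rw [← Set.image_subset_iff]
    exact hsub
  refine ⟨cl F (Ph '' S), himg.cl, ?_, ?_, ?_, ?_, ?_, ?_⟩
  · apply cl_subset _ (zclosed_T3 _ _ _)
    rintro _ ⟨y, hy, rfl⟩ r
    have h1 := co_Ph hy.2 (relB r)
    have h2 := co_Ph hy.2 (relC r)
    have h3 := co_Ph hy.2 (relA r)
    rw [co_apply] at h1 h2 h3
    rw [h1, h2, h3, aeval_G, aeval_G, aeval_G]
    apply val_rel
    intro i
    exact hXV hy.1.1 i
  · have h1 : S0 ⊆ (pull Sum.inl) ⁻¹' (cl F (pull j '' cl F (Ph '' S))) := by
      apply hS0.subset_of_diff hC hns ((ratMap_pull Set.univ Sum.inl).preimage_closed (zclosed_cl _))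
      intro y hy
      rw [Set.mem_preimage]
      apply subset_cl
      refine ⟨Ph y, subset_cl _ ⟨y, hy, rfl⟩, ?_⟩
      funext p
      exact Ph_zero hy.2 p
    intro x hx
    exact h1 (a := Sum.elim x 1) (elim_mem_prodSet.mpr ⟨hx, trivial⟩)
  · exact (rk_anti hsub').trans (rk_pull_le hj)
  · rw [td_cl]
    have h1 : td F X + (e * (N + 1) + e) ≤ td F S := by
      rw [show td F S = td F S0 from td_diff hS0 hC hns]
      have h2 := td_prod_ge (k := F) hXi.pirr hU.pirr
      rw [td_univ] at h2
      simpa using h2
    refine h1.trans ?_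
    obtain ⟨s, hs, hc⟩ := exists_basis' (k := F) hS
    rw [ind_iff_indF] at hs
    let ψ : (Fin e × Fin (N + 1)) ⊕ Par e N → Nod e N := fun q =>
      match q with
      | Sum.inl p => (0, p)
      | Sum.inr (Sum.inl p) => (1, p)
      | Sum.inr (Sum.inr i) => (3, (i, 0))
    have h3 : IndF F (Ph '' S) (fun q : s => ψ q.1) := by
      apply hs.image
      intro y hy q
      obtain ⟨q, hq⟩ := q
      rcases q with p | p | i
      · exact Ph_zero hy.2 p
      · exact Ph_one hy.2 p
      · exact Ph_three hy.2 i
    have h4 := h3.card_le himg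
    rw [Nat.card_coe_set_eq, hc] at h4
    exact h4
  · intro m hm i hi
    rw [Lam_cl] at hm
    apply supp_lift hXi.nonempty hm
    intro h0
    apply hi
    exact ⟨i.2, Prod.ext h0.symm rfl⟩
  · intro Y hY hYV _ _
    refine ⟨?_, ?_⟩
    · rintro _ ⟨y, hy, rfl⟩ i
      exact sum_eq_zero_of_rel (co y) (fun r => hYV hy r) i
    · let s0 : Set (Nod e N) := Set.range j ∪ (Set.range (fun p => ((1, p) : Nod e N)) ∪
        Set.range (fun i : Fin e => ((3, (i, 0)) : Nod e N)))
      have hP := vI_isPrime (k := F) hY.pirr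
      have hne : Nontrivial (MvPolynomial (Nod e N) F ⧸ vI F Y) := inferInstance
      have h1 := td_le_pull (k := F) hY.pirr hj s0 (by
        intro b
        have hmem : gen F Y b ∈ Algebra.adjoin F (gen F Y '' s0) := by
          apply mem_of_rel (Algebra.adjoin F (gen F Y '' s0)) (gen F Y)
          · intro r
            have h2 : (MvPolynomial.X (relB r) + MvPolynomial.X (relC r) -
                MvPolynomial.X (relA r) : MvPolynomial (Nod e N) F) ∈ vI F Y := by
              rw [mem_vI]
              intro y hy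
              simp only [map_sub, map_add, aeval_X]
              rw [sub_eq_zero]
              exact hYV hy r
            have h3 := Ideal.Quotient.eq_zero_iff_mem.mpr h2
            rw [map_sub, map_add, sub_eq_zero] at h3
            exact h3
          · intro p
            exact Algebra.subset_adjoin ⟨_, Or.inl ⟨p, rfl⟩, rfl⟩
          · intro p
            exact Algebra.subset_adjoin ⟨_, Or.inr (Or.inl ⟨p, rfl⟩), rfl⟩
          · intro i
            exact Algebra.subset_adjoin ⟨_, Or.inr (Or.inr ⟨i, rfl⟩), rfl⟩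
        exact isAlgebraic_algebraMap (⟨gen F Y b, hmem⟩ : Algebra.adjoin F (gen F Y '' s0)))
      have h2 : (s0 \ Set.range j).ncard ≤ e * (N + 1) + e := by
        have h3 : s0 \ Set.range j ⊆ Set.range (fun p => ((1, p) : Nod e N)) ∪
            Set.range (fun i : Fin e => ((3, (i, 0)) : Nod e N)) := by
          rintro b ⟨hb | hb, hb'⟩
          · exact absurd hb hb'
          · exact hb
        refine (Set.ncard_le_ncard h3 (Set.toFinite _)).trans ((Set.ncard_union_le _ _).trans ?_)
        apply add_le_add
        · rw [← Set.image_univ]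
          refine (Set.ncard_image_le (Set.toFinite _)).trans ?_
          rw [Set.ncard_univ, Nat.card_eq_fintype_card]
          simp
        · rw [← Set.image_univ]
          refine (Set.ncard_image_le (Set.toFinite _)).trans ?_
          rw [Set.ncard_univ, Nat.card_eq_fintype_card]
          simp
      omega

/-- Finiteness for the powers of the line implies finiteness for tuples of vanishing sums. -/
theorem finite_maxE_PS (hL : ∀ k, (MaxE k (LL F k)).Finite) (e N : ℕ) :
    (MaxE e (PS F e N)).Finite := by
  rcases N with _ | N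
  · have : Subsingleton (Fin e × Fin 0 → Fˣ) := by
      refine ⟨fun a b => ?_⟩
      funext p
      exact p.2.elim0
    have : Finite (Set (Fin e × Fin 0 → Fˣ)) := inferInstance
    exact Set.toFinite _
  · exact finite_maxE_PS_succ hL e N

/-- Finiteness for the powers of the line implies finiteness, at all levels, for all sets
defined by integer polynomials. -/
theorem finite_maxE_int (hL : ∀ k, (MaxE k (LL F k)).Finite) {κ : Type} [Fintype κ] {q : ℕ}
    (f : Fin q → MvPolynomial κ ℤ) (e : ℕ) : (MaxE e (zlZ F f)).Finite :=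
  finite_maxE_zlZ e (finite_maxE_PS hL e) f

end StepD

end Pool.Agent.MP_dd1803_nt
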