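import Mathlib
import Pool.Agent.MP_dd1803_nt.StepD

open MvPolynomial

namespace Pool.Agent.MP_dd1803_nt

section RankIneq

theorem finrank_ker_add {R M M' : Type} [CommRing R] [IsDomain R] [IsNoetherianRing R]
    [AddCommGroup M] [AddCommGroup M'] [Module R M]
    [Module R M'] [Module.Finite R M] [Module.Finite R M'] (f : M →ₗ[R] M') :
    Module.finrank R M = Module.finrank R (LinearMap.ker f) +
      Module.finrank R (LinearMap.range f) := by
  have h1 := Submodule.finrank_quotient_add_finrank (LinearMap.ker f)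
  have h2 := LinearEquiv.finrank_eq f.quotKerEquivRange
  omega

theorem finrank_ineq {R M M' : Type} [CommRing R] [IsDomain R] [IsNoetherianRing R]
    [AddCommGroup M] [AddCommGroup M'] [Module R M]
    [Module R M'] [Module.Finite R M] [Module.Finite R M'] (f : M →ₗ[R] M')
    (P P' : Submodule R M) (Q Q' : Submodule R M') (hQ : Q' ≤ Q)
    (h1 : ∀ m ∈ P, f m ∈ Q) (h2 : ∀ m ∈ P, f m ∈ Q' → m ∈ P') :
    Module.finrank R P + Module.finrank R Q' ≤ Module.finrank R P' + Module.finrank R Q := by
  let g : P →ₗ[R] (M' ⧸ Q') := Q'.mkQ.comp (f.comp P.subtype)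
  let h : Q →ₗ[R] (M' ⧸ Q') := Q'.mkQ.comp Q.subtype
  have e1 := finrank_ker_add g
  have e2 := finrank_ker_add h
  have e3 : Module.finrank R (LinearMap.ker g) ≤ Module.finrank R P' := by
    let i : LinearMap.ker g →ₗ[R] P' :=
      LinearMap.codRestrict P' (P.subtype.comp (LinearMap.ker g).subtype) (by
        rintro ⟨⟨m, hm⟩, hg⟩
        apply h2 m hm
        have : Q'.mkQ (f m) = 0 := hg
        rwa [Submodule.mkQ_apply, Submodule.Quotient.mk_eq_zero] at this)
    apply LinearMap.finrank_le_finrank_of_injective (f := i)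
    rintro ⟨⟨m, hm⟩, hg⟩ ⟨⟨m', hm'⟩, hg'⟩ h
    apply Subtype.ext
    apply Subtype.ext
    exact (congrArg (fun x => (x.1 : M)) h : m = m')
  have e4 : Module.finrank R Q' ≤ Module.finrank R (LinearMap.ker h) := by
    let i : Q' →ₗ[R] LinearMap.ker h :=
      LinearMap.codRestrict (LinearMap.ker h) (Submodule.inclusion hQ) (by
        rintro ⟨m, hm⟩
        rw [LinearMap.mem_ker]
        show Q'.mkQ m = 0
        rw [Submodule.mkQ_apply, Submodule.Quotient.mk_eq_zero]
        exact hm)
    apply LinearMap.finrank_le_finrank_of_injective (f := i)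
    rintro ⟨m, hm⟩ ⟨m', hm'⟩ h
    apply Subtype.ext
    exact congrArg (fun x => (x.1.1 : M')) h
  have e5 : Module.finrank R (LinearMap.range g) ≤ Module.finrank R (LinearMap.range h) := by
    apply Submodule.finrank_mono
    rintro _ ⟨⟨m, hm⟩, rfl⟩
    exact ⟨⟨f m, h1 m hm⟩, rfl⟩
  omega

end RankIneq

section Const

variable {F : Type} [Field F] {κ : Type}

theorem const_of_finite {Y : Set (κ → Fˣ)} (hY : PIrr Y) (i : κ)
    (hfin : {c : F | ∃ y ∈ Y, (y i : F) = c}.Finite) {y0 : κ → Fˣ} (hy0 : y0 ∈ Y) :
    ∀ y ∈ Y, y i = y0 i := by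
  classical
  obtain ⟨Z, hZ, hYZ⟩ := hY.subset_of_finset
    (hfin.toFinset.image fun c => zp (X i - C c : MvPolynomial κ F)) (by
    intro Z hZ
    rw [Finset.mem_image] at hZ
    obtain ⟨c, _, rfl⟩ := hZ
    exact zclosed_zp _) (by
    intro y hy
    simp only [Set.mem_iUnion]
    refine ⟨zp (X i - C (y i : F)), Finset.mem_image.mpr ⟨(y i : F), ?_, rfl⟩, ?_⟩
    · rw [Set.Finite.mem_toFinset]
      exact ⟨y, hy, rfl⟩
    · rw [mem_zp]
      simp [co])
  rw [Finset.mem_image] at hZ
  obtain ⟨c, _, rfl⟩ := hZ
  intro y hy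
  apply Units.ext
  have h1 := hYZ hy
  have h2 := hYZ hy0
  rw [mem_zp, map_sub, aeval_X, aeval_C, sub_eq_zero] at h1 h2
  exact h1.trans h2.symm

end Const

section Rel

variable {F : Type} [Field F] [CharZero F] {α : Type} [Finite α]

/-- Algebraic relations between the coordinates of a point. -/
theorem exists_rel (A : α → Fˣ) : ∃ s0 : Set α, AlgebraicIndepOn ℤ (co A) s0 ∧
    ∀ i, ∃ P : MvPolynomial α ℤ, aeval (co A) P = 0 ∧
      ({c : F | ∃ y : α → Fˣ, (∀ j ∈ s0, y j = A j) ∧ (y i : F) = c ∧ aeval (co y) P = 0}).Finite := by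
  classical
  obtain ⟨s0, hs0⟩ := (Set.toFinite {s : Set α | AlgebraicIndepOn ℤ (co A) s}).exists_maximal
    ⟨∅, by
      rw [Set.mem_ofPred_eq, AlgebraicIndepOn, algebraicIndependent_empty_type_iff]
      exact Int.cast_injective⟩
  have h0 : AlgebraicIndepOn ℤ (co A) s0 := hs0.prop
  refine ⟨s0, h0, ?_⟩
  intro i
  by_cases hi : i ∈ s0
  · refine ⟨0, by simp, ?_⟩
    apply (Set.finite_singleton (A i : F)).subset
    rintro c ⟨y, hy, hc, _⟩
    rw [Set.mem_singleton_iff, ← hc, hy i hi]
  · have halg : IsAlgebraic (Algebra.adjoin ℤ (co A '' s0)) (co A i) := by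
      by_contra htr
      have h1 : AlgebraicIndepOn ℤ (co A) (insert i s0) := h0.insert htr
      have h2 := hs0.le_of_ge h1 (Set.subset_insert i s0)
      exact hi (h2 (Set.mem_insert i s0))
    obtain ⟨g, hg0, hg⟩ := halg
    have hlift : ∀ a : Algebra.adjoin ℤ (co A '' s0), ∃ p : MvPolynomial s0 ℤ,
        aeval (fun j : s0 => co A j) p = (a : F) := by
      rintro ⟨a, ha⟩
      rw [Set.image_eq_range, Algebra.adjoin_range_eq_range_aeval] at ha
      exact ha
    choose lift hlift using hlift
    refine ⟨∑ n ∈ g.support, rename Subtype.val (lift (g.coeff n)) * X i ^ n, ?_, ?_⟩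
    · rw [map_sum]
      rw [Polynomial.aeval_eq_sum_range, ] at hg
      have h1 : ∀ n, aeval (co A) (rename Subtype.val (lift (g.coeff n)) * X i ^ n) =
          (g.coeff n) • (co A i) ^ n := by
        intro n
        rw [map_mul, aeval_rename, map_pow, aeval_X, Algebra.smul_def]
        congr 1
        exact hlift _
      simp only [h1]
      rw [← hg]
      apply Finset.sum_subset
      · exact Polynomial.supp_subset_range_natDegree_succ
      · intro n _ hn
        rw [Polynomial.notMem_support_iff.mp hn, zero_smul]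
    · have hroot : {c : F | Polynomial.aeval c g = 0}.Finite := by
        have hinj : Function.Injective (algebraMap (Algebra.adjoin ℤ (co A '' s0)) F) :=
          Subtype.val_injective
        have hg' : g.map (algebraMap (Algebra.adjoin ℤ (co A '' s0)) F) ≠ 0 := by
          rw [Ne, Polynomial.map_eq_zero_iff hinj]
          exact hg0
        apply (Polynomial.rootSet_finite (g.map (algebraMap (Algebra.adjoin ℤ (co A '' s0)) F)) F).subset
        intro c hc
        rw [Set.mem_ofPred_eq] at hc
        rw [Polynomial.mem_rootSet]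
        refine ⟨hg', ?_⟩
        rw [Polynomial.aeval_map_algebraMap]
        exact hc
      apply hroot.subset
      rintro c ⟨y, hy, hc, hP⟩
      rw [Set.mem_ofPred_eq, Polynomial.aeval_eq_sum_range]
      rw [map_sum] at hP
      have h1 : ∀ n, aeval (co y) (rename Subtype.val (lift (g.coeff n)) * X i ^ n) =
          (g.coeff n) • c ^ n := by
        intro n
        rw [map_mul, aeval_rename, map_pow, aeval_X, Algebra.smul_def]
        have h2 : co y ∘ (Subtype.val : s0 → α) = fun j : s0 => co A j := by
          funext j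
          show (y j : F) = (A j : F)
          rw [hy j j.2]
        rw [h2, hlift, co_apply, hc]
        rfl
      simp only [h1] at hP
      rw [← hP]
      symm
      apply Finset.sum_subset
      · exact Polynomial.supp_subset_range_natDegree_succ
      · intro n _ hn
        rw [Polynomial.notMem_support_iff.mp hn, zero_smul]

end Rel

end Pool.Agent.MP_dd1803_nt
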