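import Mathlib
import Pool.Agent.MP_dd1803_nt.StepTwo

open MvPolynomial

namespace Pool.Agent.MP_dd1803_nt

section Spread

variable {F : Type} [Field F] {κ : Type} [Fintype κ]

theorem exists_finset_polys {V : Set (κ → Fˣ)} (hV : ZClosed V) :
    ∃ T : Finset (MvPolynomial κ F), V = {x | ∀ p ∈ T, aeval (co x) p = 0} := by
  obtain ⟨T, hT⟩ := (inferInstance : IsNoetherianRing (MvPolynomial κ F)).noetherian (vI F V)
  refine ⟨T, ?_⟩
  apply Set.Subset.antisymm
  · intro x hx p hp
    apply mem_vI.mp _ x hx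
    rw [← hT]
    exact Submodule.subset_span hp
  · intro x hx
    rw [← zclosed_iff.mp hV]
    intro p hp
    rw [SetLike.mem_coe, ← hT] at hp
    induction hp using Submodule.span_induction with
    | mem p hp => exact hx p hp
    | zero => rw [map_zero]
    | add p q _ _ hp hq => rw [map_add, hp, hq, add_zero]
    | smul a p _ hp => rw [smul_eq_mul, map_mul, hp, mul_zero]

theorem finite_maxE_zlι [IsAlgClosed F] (H : ∀ (κ : Type) [Fintype κ] (q : ℕ) (f : Fin q → MvPolynomial κ ℤ)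
    (e : ℕ), (MaxE e (zlZ F f)).Finite) {ι : Type} [Fintype ι] (f : ι → MvPolynomial κ ℤ) (e : ℕ) :
    (MaxE e {x : κ → Fˣ | ∀ j, aeval (co x) (f j) = 0}).Finite := by
  have h1 : {x : κ → Fˣ | ∀ j, aeval (co x) (f j) = 0} = zlZ F (f ∘ (Fintype.equivFin ι).symm) := by
    ext x
    rw [mem_zlZ, Set.mem_ofPred_eq]
    exact (Equiv.forall_congr_right (q := fun j => aeval (co x) (f j) = 0)
      (Fintype.equivFin ι).symm).symm
  rw [h1]
  exact H κ _ _ e

end Spread

section SpreadMain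

variable {F : Type} [Field F] [IsAlgClosed F] [CharZero F]

theorem isAlgebraic_int_algClosure : Algebra.IsAlgebraic ℤ (algebraicClosure ℚ F) :=
  (IsFractionRing.comap_isAlgebraic_iff (A := ℤ) (K := ℚ) (C := algebraicClosure ℚ F)).mpr
    (algebraicClosure.isAlgebraic ℚ F)

theorem isAlgClosed_algClosure : IsAlgClosed (algebraicClosure ℚ F) :=
  (algebraicClosure.isAlgClosure ℚ F).isAlgClosed

theorem indF_of_algIndep {α : Type} {A : α → Fˣ} {s0 : Set α} (h0 : AlgebraicIndepOn ℤ (co A) s0) :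
    IndF (algebraicClosure ℚ F) ({A} : Set (α → Fˣ)) (Subtype.val : s0 → α) := by
  have := isAlgebraic_int_algClosure (F := F)
  have h0' : AlgebraicIndependent ℤ (fun i : s0 => co A i) := h0
  have h1 : AlgebraicIndependent (algebraicClosure ℚ F) (fun i : s0 => co A i) :=
    h0'.extendScalars _
  intro p hp
  rw [algebraicIndependent_iff] at h1
  exact h1 p (hp A rfl)

/-- Sets of integer polynomials: closures over the algebraic numbers stay inside. -/
theorem cl_subset_int {κ : Type} {ι : Type} {f : ι → MvPolynomial κ ℤ} {B : Set (κ → Fˣ)}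
    (h : B ⊆ {x : κ → Fˣ | ∀ j, aeval (co x) (f j) = 0}) :
    cl (algebraicClosure ℚ F) B ⊆ {x : κ → Fˣ | ∀ j, aeval (co x) (f j) = 0} := by
  intro x hx j
  have h1 : ∀ y : κ → Fˣ, aeval (co y) (MvPolynomial.map (algebraMap ℤ (algebraicClosure ℚ F)) (f j)) =
      aeval (co y) (f j) := fun y => aeval_map_algebraMap _ _ _
  rw [← h1]
  apply hx
  rw [SetLike.mem_coe, mem_vI]
  intro y hy
  rw [h1]
  exact h hy j

/-- From sets defined by integer polynomials to all closed sets. -/
theorem finite_maxE_closed (H : ∀ (κ : Type) [Fintype κ] (q : ℕ) (f : Fin q → MvPolynomial κ ℤ)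
    (e : ℕ), (MaxE e (zlZ F f)).Finite) {κ : Type} [Fintype κ] {V : Set (κ → Fˣ)}
    (hV : ZClosed V) (e0 : ℕ) : (MaxE e0 V).Finite := by
  classical
  have hac := isAlgClosed_algClosure (F := F)
  obtain ⟨T, hT⟩ := exists_finset_polys hV
  -- coefficients
  let α : Type := Σ p : T, p.1.support
  let A : α → Fˣ := fun q => Units.mk0 (coeff q.2.1 q.1.1) (mem_support_iff.mp q.2.2)
  let U : T → MvPolynomial (κ ⊕ α) ℤ := fun p =>
    ∑ d : p.1.support, X (Sum.inr (⟨p, d⟩ : α)) * ∏ i, X (Sum.inl i) ^ (d.1 i)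
  have hU : ∀ (p : T) (y : κ ⊕ α → Fˣ), y ∘ Sum.inr = A →
      aeval (co y) (U p) = aeval (co (y ∘ Sum.inl)) p.1 := by
    intro p y hy
    rw [aeval_def (f := co (y ∘ Sum.inl)), eval₂_eq', ← Finset.sum_coe_sort]
    simp only [U, map_sum, map_mul, map_prod, map_pow, aeval_X]
    apply Finset.sum_congr rfl
    intro d _
    congr 1
    have h1 := congrFun hy (⟨p, d⟩ : α)
    rw [co_apply]
    rw [Function.comp_apply] at h1
    rw [h1]
    rfl
  obtain ⟨s0, hs0, hrel⟩ := exists_rel A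
  choose P hPA hPfin using hrel
  -- the integral model
  let f : T ⊕ α → MvPolynomial (κ ⊕ α) ℤ := Sum.elim U (fun i => rename Sum.inr (P i))
  let W : Set (κ ⊕ α → Fˣ) := {y | ∀ j, aeval (co y) (f j) = 0}
  have hWfin : ∀ e, (MaxE e W).Finite := fun e => finite_maxE_zlι H f e
  let n := Fintype.card (κ ⊕ α)
  let cut0 : Set (κ ⊕ α → Fˣ) := {y | ∀ i ∈ s0.toFinset, aeval (co y)
    (X (Sum.inr i) - C (A i : F) : MvPolynomial (κ ⊕ α) F) = 0}
  have hcut0 : ZClosed cut0 := by
    have : cut0 = ⋂ i : s0.toFinset, zp (X (Sum.inr i.1) - C (A i.1 : F)) := by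
      ext y
      simp only [cut0, Set.mem_ofPred_eq, Set.mem_iInter, mem_zp]
      exact ⟨fun h i => h i.1 i.2, fun h i hi => h ⟨i, hi⟩⟩
    rw [this]
    exact ZClosed.iInter fun i => zclosed_zp _
  have hmem0 : ∀ y : κ ⊕ α → Fˣ, y ∈ cut0 ↔ ∀ i ∈ s0, y (Sum.inr i) = A i := by
    intro y
    simp only [cut0, Set.mem_ofPred_eq, Set.mem_toFinset]
    apply forall₂_congr
    intro i _
    rw [map_sub, aeval_X, aeval_C, sub_eq_zero]
    constructor
    · intro h
      exact Units.ext h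
    · intro h
      rw [co_apply, h]
      rfl
  have hfin : (⋃ e ∈ Finset.range (n + 2), ⋃ Z ∈ MaxE e W,
      (fun Y => cl F (pull Sum.inl '' Y)) '' {Y | Comp (Z ∩ cut0) Y}).Finite := by
    apply Set.Finite.biUnion (Finset.finite_toSet _)
    intro e _
    apply (hWfin e).biUnion
    intro Z hZ
    exact (finite_comp ((MaxE.irr hZ).closed.inter hcut0)).image _
  apply hfin.subset
  intro X hX
  have hXi := MaxE.irr hX
  have hXV := MaxE.subset hX
  have hXlt := MaxE.lt hX
  let B : Set (κ ⊕ α → Fˣ) := prodSet X {A}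
  have hB : Irr B := hXi.prodSet (irr_singleton A)
  have hBW : B ⊆ W := by
    rintro y ⟨hy1, hy2⟩ (p | i)
    · show aeval (co y) (U p) = 0
      rw [hU p y hy2]
      have h1 := hXV hy1
      rw [hT] at h1
      exact h1 p.1 p.2
    · show aeval (co y) (rename Sum.inr (P i)) = 0
      rw [aeval_rename]
      have h1 : co y ∘ Sum.inr = co A := by
        funext i
        exact congrArg (fun a : α → Fˣ => (a i : F)) hy2
      rw [h1]
      exact hPA i
  let Z : Set (κ ⊕ α → Fˣ) := cl (algebraicClosure ℚ F) B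
  have hZ : Irr Z := irr_cl hB.pirr
  have hBZ : B ⊆ Z := subset_cl B
  have hZW : Z ⊆ W := cl_subset_int hBW
  have htdZ : td F X + s0.ncard ≤ td F Z := by
    rw [show td F Z = td (algebraicClosure ℚ F) B from td_cl_eq hB.pirr]
    obtain ⟨s, hs, hc⟩ := exists_basis' (k := F) hXi.pirr
    rw [ind_iff_indF] at hs
    have h1 := (hs.prod (indF_of_algIndep hs0)).card_le hB.pirr
    rw [Nat.card_sum, Nat.card_coe_set_eq, Nat.card_coe_set_eq, hc] at h1
    exact h1
  have hrkZ : rk Z = rk B := rk_cl B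
  have hcdZ : cd Z ≤ n := cd_le_card hZ.pirr
  obtain ⟨Z', hZ', hZZ'⟩ := exists_maxE (e := n + 1 - cd Z) hZ hZW (by
    show n < _
    omega)
  have hZ'lt := MaxE.lt hZ'
  obtain ⟨Y, hY, hBY⟩ := exists_comp ((MaxE.irr hZ').closed.inter hcut0) hB (by
    intro y hy
    refine ⟨hZZ' (hBZ hy), ?_⟩
    rw [hmem0]
    intro i _
    exact congrFun hy.2 i)
  have hYZ' : Y ⊆ Z' := hY.subset.trans Set.inter_subset_left
  have hYA : ∀ y ∈ Y, y ∘ Sum.inr = A := by
    obtain ⟨x, hx⟩ := hXi.nonempty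
    have hy0 : Sum.elim x A ∈ Y := hBY (elim_mem_prodSet.mpr ⟨hx, rfl⟩)
    intro y hy
    funext i
    have h1 := const_of_finite hY.irr.pirr (Sum.inr i) (by
      apply (hPfin i).subset
      rintro c ⟨y, hy, hc⟩
      refine ⟨y ∘ Sum.inr, ?_, hc, ?_⟩
      · exact (hmem0 y).mp (hY.subset hy).2
      · have h1 := MaxE.subset hZ' (hYZ' hy) (Sum.inr i)
        have h2 : aeval (co y) (rename Sum.inr (P i)) = 0 := h1
        rw [aeval_rename] at h2
        exact h2) hy0 y hy
    exact h1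
  have hkr : td F Z' ≤ td F Y + s0.ncard := by
    have h1 := krull_list s0.toFinset (fun i => (MvPolynomial.X (Sum.inr i) - C (A i : F) :
      MvPolynomial (κ ⊕ α) F)) (MaxE.irr hZ') hY
    rwa [← Set.ncard_eq_toFinset_card'] at h1
  let X' : Set (κ → Fˣ) := cl F (pull Sum.inl '' Y)
  have hX' : Irr X' := (hY.irr.pirr.pull _).cl
  have hX'V : X' ⊆ V := by
    apply cl_subset _ hV
    rintro _ ⟨y, hy, rfl⟩
    rw [hT]
    intro p hp
    have h1 := MaxE.subset hZ' (hYZ' hy) (Sum.inl ⟨p, hp⟩)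
    have h2 : aeval (co y) (U ⟨p, hp⟩) = 0 := h1
    rw [hU ⟨p, hp⟩ y (hYA y hy)] at h2
    exact h2
  have hXX' : X ⊆ X' := by
    intro x hx
    apply subset_cl
    exact ⟨Sum.elim x A, hBY (elim_mem_prodSet.mpr ⟨hx, rfl⟩), rfl⟩
  have htdY : td F Y ≤ td F X' := by
    rw [show td F X' = td F (pull Sum.inl '' Y) from td_cl _]
    have h1 := td_le_pull (k := F) hY.irr.pirr (e := (Sum.inl : κ → κ ⊕ α)) Sum.inl_injective
      (Set.range Sum.inl) (by
      intro i
      have hP' := vI_isPrime (k := F) hY.irr.pirr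
      have hne : Nontrivial (MvPolynomial (κ ⊕ α) F ⧸ vI F Y) := inferInstance
      rcases i with i | i
      · exact isAlgebraic_algebraMap (⟨gen F Y (Sum.inl i), Algebra.subset_adjoin ⟨_, ⟨i, rfl⟩, rfl⟩⟩ :
          Algebra.adjoin F (gen F Y '' Set.range Sum.inl))
      · have h2 : gen F Y (Sum.inr i) = algebraMap F _ (A i : F) := by
          have h3 : (MvPolynomial.X (Sum.inr i) - C (A i : F) : MvPolynomial (κ ⊕ α) F) ∈ vI F Y := by
            rw [mem_vI]
            intro y hy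
            rw [map_sub, aeval_X, aeval_C, sub_eq_zero]
            have h4 := congrFun (hYA y hy) i
            rw [Function.comp_apply] at h4
            rw [co_apply, h4]
            rfl
          have h4 := Ideal.Quotient.eq_zero_iff_mem.mpr h3
          rw [map_sub, sub_eq_zero] at h4
          exact h4
        rw [h2]
        exact isAlgebraic_algebraMap (⟨algebraMap F _ (A i : F), Subalgebra.algebraMap_mem _ _⟩ :
          Algebra.adjoin F (gen F Y '' Set.range Sum.inl)))
    rw [Set.sdiff_self, Set.ncard_empty] at h1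
    exact h1
  have hrank : rk X + rk Z' ≤ rk X' + rk Z := by
    rw [hrkZ]
    apply finrank_ineq (inlM (κ' := α)) (Lam X) (Lam X') (Lam B) (Lam Z')
    · exact Lam_anti (hBZ.trans hZZ')
    · rintro m ⟨N, hN, hm⟩
      refine ⟨N, hN, ?_⟩
      intro y hy
      rw [ch_inlM]
      exact hm _ hy.1
    · rintro m _ ⟨N, hN, hm⟩
      rw [show Lam X' = Lam (pull Sum.inl '' Y) from Lam_cl _]
      refine ⟨N, hN, ?_⟩
      rintro _ ⟨y, hy, rfl⟩
      have h1 := hm y (hYZ' hy)
      rw [ch_inlM] at h1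
      exact h1
  have hcd : cd X ≤ cd X' := by
    change n < cd Z' + (n + 1 - cd Z) at hZ'lt
    unfold cd at *
    omega
  have hXeq : X = X' := MaxE.eq hX hX' hX'V (by omega) hXX'
  simp only [Set.mem_iUnion]
  refine ⟨n + 1 - cd Z, Finset.mem_range.mpr (by omega), Z', hZ', Y, hY, hXeq.symm⟩

end SpreadMain

end Pool.Agent.MP_dd1803_nt
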