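import Mathlib
import Pool.Agent.MP_dd1803_nt.Fields
import Pool.Agent.MP_dd1803_nt.StepTwoB

open MvPolynomial

namespace Pool.Agent.MP_dd1803_nt

section Acl

variable {F : Type} [Field F] [CharZero F]

/-- The algebraic closure in `F` of the field generated by a set. -/
noncomputable def acl (A : Set F) : IntermediateField ℚ F :=
  (algebraicClosure (IntermediateField.adjoin ℚ A) F).restrictScalars ℚ

theorem mem_acl {A : Set F} {x : F} : x ∈ acl A ↔ IsAlgebraic (IntermediateField.adjoin ℚ A) x := by
  unfold acl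
  rw [IntermediateField.mem_restrictScalars, mem_algebraicClosure_iff]

theorem subset_acl (A : Set F) : A ⊆ acl A := by
  intro x hx
  rw [SetLike.mem_coe, mem_acl]
  exact isAlgebraic_algebraMap (⟨x, IntermediateField.subset_adjoin ℚ A hx⟩ :
    IntermediateField.adjoin ℚ A)

theorem adjoin_le_acl (A : Set F) : IntermediateField.adjoin ℚ A ≤ acl A := by
  rw [IntermediateField.adjoin_le_iff]
  exact subset_acl A

theorem acl_mono {A B : Set F} (h : A ⊆ B) : acl A ≤ acl B := by
  intro x hx
  rw [mem_acl] at *
  let f : IntermediateField.adjoin ℚ A →+* IntermediateField.adjoin ℚ B :=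
    (IntermediateField.inclusion (IntermediateField.adjoin.mono ℚ A B h)).toRingHom
  exact hx.ringHom_of_comp_eq f (RingHom.id F) f.injective rfl

theorem isAlgClosed_acl [IsAlgClosed F] (A : Set F) : IsAlgClosed (acl A) :=
  (algebraicClosure.isAlgClosure (IntermediateField.adjoin ℚ A) F).isAlgClosed

theorem alg_of_mem_acl_insert {A : Set F} {a x : F} (hx : x ∈ acl (insert a A)) :
    IsAlgebraic (Algebra.adjoin (acl A) {a}) x := by
  rw [← IntermediateField.isAlgebraic_adjoin_iff]
  rw [mem_acl] at hx
  have hle : ∀ y ∈ IntermediateField.adjoin ℚ (insert a A), y ∈ IntermediateField.adjoin (acl A) {a} := by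
    intro y hy
    induction hy using IntermediateField.adjoin_induction with
    | mem y hy =>
      rcases hy with rfl | hy
      · exact IntermediateField.subset_adjoin _ _ rfl
      · have h1 : algebraMap (acl A) F ⟨y, subset_acl A hy⟩ ∈ IntermediateField.adjoin (acl A) {a} :=
          IntermediateField.algebraMap_mem _ _
        exact h1
    | algebraMap q =>
      rw [eq_ratCast]
      exact SubfieldClass.ratCast_mem _ q
    | add x y _ _ hx hy => exact add_mem hx hy
    | inv x _ hx => exact inv_mem hx
    | mul x y _ _ hx hy => exact mul_mem hx hy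
  let f : IntermediateField.adjoin ℚ (insert a A) →+* IntermediateField.adjoin (acl A) {a} :=
    { toFun := fun y => ⟨y.1, hle y.1 y.2⟩
      map_one' := rfl
      map_mul' := fun _ _ => rfl
      map_zero' := rfl
      map_add' := fun _ _ => rfl }
  exact hx.ringHom_of_comp_eq f (RingHom.id F) f.injective rfl

end Acl

section AlgTransfer

variable {F k k' : Type} [Field F] [Field k] [Field k'] [Algebra k F]
  [Algebra k' F] [Algebra k k'] [IsScalarTower k k' F]

theorem isAlgebraic_adjoin_of_field (a : k')
    (h : ∀ x : k', IsAlgebraic (Algebra.adjoin k {algebraMap k' F a}) (algebraMap k' F x)) :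
    Algebra.IsAlgebraic (Algebra.adjoin k {a}) k' := by
  constructor
  intro x
  let φ : k' →ₐ[k] F := IsScalarTower.toAlgHom k k' F
  have h2 : (Algebra.adjoin k {a}).map φ = Algebra.adjoin k {algebraMap k' F a} :=
    AlgHom.map_adjoin_singleton φ a
  have hmem : ∀ y ∈ Algebra.adjoin k {a}, φ y ∈ Algebra.adjoin k {algebraMap k' F a} := by
    intro y hy
    rw [← h2]
    exact ⟨y, hy, rfl⟩
  let f : Algebra.adjoin k {a} →+* Algebra.adjoin k {algebraMap k' F a} :=
    { toFun := fun y => ⟨φ y.1, hmem y.1 y.2⟩
      map_one' := Subtype.ext (map_one φ)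
      map_mul' := fun y z => Subtype.ext (map_mul φ y.1 z.1)
      map_zero' := Subtype.ext (map_zero φ)
      map_add' := fun y z => Subtype.ext (map_add φ y.1 z.1) }
  have hf : Function.Surjective f := by
    rintro ⟨z, hz⟩
    have hz' := hz
    rw [← h2] at hz'
    obtain ⟨y, hy, hyz⟩ := hz'
    exact ⟨⟨y, hy⟩, Subtype.ext hyz⟩
  exact (h x).of_ringHom_of_comp_eq f (algebraMap k' F) hf (algebraMap k' F).injective
    (RingHom.ext fun _ => rfl)

end AlgTransfer

section AclStep

/-- inclusion of intermediate fields as an algebra structure -/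
@[reducible] noncomputable def incAlgebra {F : Type} [Field F] [CharZero F]
    {K L : IntermediateField ℚ F} (h : K ≤ L) : Algebra K L :=
  (IntermediateField.inclusion h).toRingHom.toAlgebra

theorem incTower {F : Type} [Field F] [CharZero F]
    {K L : IntermediateField ℚ F} (h : K ≤ L) :
    @IsScalarTower K L F (incAlgebra h).toSMul inferInstance inferInstance := by
  let i := incAlgebra h
  exact IsScalarTower.of_algebraMap_eq fun _ => rfl

theorem incTower3 {F : Type} [Field F] [CharZero F]
    {K L M : IntermediateField ℚ F} (h : K ≤ L) (h' : L ≤ M) :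
    @IsScalarTower K L M (incAlgebra h).toSMul (incAlgebra h').toSMul
      (incAlgebra (h.trans h')).toSMul := by
  let i := incAlgebra h
  let i' := incAlgebra h'
  let i'' := incAlgebra (h.trans h')
  exact IsScalarTower.of_algebraMap_eq fun _ => rfl

theorem isAlgebraic_inc {F : Type} [Field F] [CharZero F] {K L : IntermediateField ℚ F} (h : K ≤ L)
    (a : L) (halg : ∀ x ∈ L, IsAlgebraic (Algebra.adjoin K {(a : F)}) x) :
    @Algebra.IsAlgebraic (@Algebra.adjoin K L _ _ (incAlgebra h) {a}) L _ _ _ := by
  let i := incAlgebra h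
  have hst := incTower h
  apply isAlgebraic_adjoin_of_field (F := F)
  intro x
  exact halg x.1 x.2

end AclStep

section VIle

variable {F : Type} [Field F] {κ : Type} {k k' : Type} [Field k] [Field k'] [Algebra k F]
  [Algebra k' F] [Algebra k k'] [IsScalarTower k k' F] [Finite κ]

theorem td_of_vI_le {X Y : Set (κ → Fˣ)} (hX : PIrr X) (hY : PIrr Y) (h : vI k X ≤ vI k Y) :
    td k Y ≤ td k X := by
  obtain ⟨s, hs, hc⟩ := exists_basis' (k := k) hY
  rw [← hc]
  apply Ind.ncard_le _ hX
  intro p hp
  apply hs
  intro x hx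
  have h1 : rename Subtype.val p ∈ vI k X := by
    rw [mem_vI]
    intro x hx
    rw [aeval_rename]
    exact hp x hx
  have h2 := mem_vI.mp (h h1) x hx
  rw [aeval_rename] at h2
  exact h2

theorem td_le_of_vI_le [Algebra.IsAlgebraic k k'] {X Y : Set (κ → Fˣ)} (hX : PIrr X) (hY : PIrr Y)
    (h : vI k X ≤ vI k Y) : td F Y ≤ td k' X := by
  rw [← td_tower_eq (k := k) (k' := k') hX]
  exact (td_tower_le (k := k) (k' := F) hY).trans (td_of_vI_le hX hY h)

end VIle

section Core

variable {F : Type} [Field F] {κ : Type} {k : Type} [Field k] [Algebra k F]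

/-- The largest subset of `V` defined over `k`. -/
def core (k : Type) [Field k] [Algebra k F] (V : Set (κ → Fˣ)) : Set (κ → Fˣ) :=
  zl k {q | ∃ p ∈ vI F V, ∃ φ : F →ₗ[k] k, q = cmpl φ p}

theorem core_subset {V : Set (κ → Fˣ)} (hV : ZClosed V) : core k V ⊆ V := by
  intro x hx
  rw [← zclosed_iff.mp hV]
  intro p hp
  apply aeval_eq_zero_of_cmpl (k := k)
  intro φ
  exact hx _ ⟨p, hp, φ, rfl⟩

theorem cl_zl (S : Set (MvPolynomial κ k)) : cl k (zl (F := F) k S) = zl k S := by
  apply Set.Subset.antisymm
  · apply zl_anti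
    rw [← subset_zl_iff]
  · exact subset_cl _

theorem cl_core (V : Set (κ → Fˣ)) : cl k (core k V) = core k V := cl_zl _

theorem zclosed_core (V : Set (κ → Fˣ)) : ZClosed (core k V) := zclosed_zl _

theorem subset_core [Finite κ] [IsAlgClosed F] [IsAlgClosed k] {X V : Set (κ → Fˣ)} (hX : PIrr X)
    (h : cl k X ⊆ V) : X ⊆ core k V := by
  rintro x hx q ⟨p, hp, φ, rfl⟩
  have h1 : p ∈ vI F (cl k X) := vI_anti h hp
  rw [mem_vI_cl hX] at h1
  exact mem_vI.mp (h1 φ) x hx

end Core

end Pool.Agent.MP_dd1803_nt
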