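import Mathlib
import Pool.Agent.MP_dd1803_nt.Acl

open MvPolynomial

namespace Pool.Agent.MP_dd1803_nt

section MaxB

variable {F : Type} [Field F] [IsAlgClosed F] {κ : Type} [Fintype κ]

/-- The maximal irreducible closed subsets of `V` of defect less than `e` whose closure over `k0`
has defect less than `c`. -/
def MaxB (k0 : Type) [Field k0] [Algebra k0 F] (c e : ℕ) (V : Set (κ → Fˣ)) :
    Set (Set (κ → Fˣ)) :=
  {X | Maximal (fun X => Irr X ∧ X ⊆ V ∧ Fintype.card κ < cd X + e ∧
    Fintype.card κ < cd (cl k0 X) + c) X}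

omit [IsAlgClosed F] in
theorem mem_maxB {k0 : Type} [Field k0] [Algebra k0 F] {c e : ℕ} {V X : Set (κ → Fˣ)} :
    X ∈ MaxB k0 c e V ↔ Maximal (fun X => Irr X ∧ X ⊆ V ∧ Fintype.card κ < cd X + e ∧
      Fintype.card κ < cd (cl k0 X) + c) X := by
  unfold MaxB
  rw [Set.mem_ofPred_eq]

/-- General existence of maximal elements among irreducible closed sets. -/
theorem exists_max_irr {P : Set (κ → Fˣ) → Prop} (hP : ∀ X, P X → Irr X) {X : Set (κ → Fˣ)}
    (hX : P X) : ∃ Y, Maximal P Y ∧ X ⊆ Y := by
  classical
  have h1 : ∃ n : ℕ, ∃ Y, P Y ∧ X ⊆ Y ∧ Nat.card κ - td F Y = n := ⟨_, X, hX, le_rfl, rfl⟩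
  obtain ⟨Y, hY, hXY, hn⟩ := Nat.find_spec h1
  refine ⟨Y, ⟨hY, ?_⟩, hXY⟩
  intro Z hZ hYZ
  have h2 : td F Z ≤ td F Y := by
    by_contra hcon
    push Not at hcon
    have h3 := td_le_card (k := F) (hP Z hZ).pirr
    have h4 := Nat.find_min' h1 ⟨Z, hZ, hXY.trans hYZ, rfl⟩
    rw [← hn] at h4
    omega
  exact (eq_of_td_le (hP Y hY) (hP Z hZ) hYZ h2).ge

variable {k0 : Type} [Field k0] [Algebra k0 F]

theorem exists_maxB {c e : ℕ} {V X : Set (κ → Fˣ)} (hX : Irr X) (hXV : X ⊆ V)
    (hd : Fintype.card κ < cd X + e) (hd' : Fintype.card κ < cd (cl k0 X) + c) :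
    ∃ Y ∈ MaxB k0 c e V, X ⊆ Y := by
  obtain ⟨Y, hY, hXY⟩ := exists_max_irr (P := fun X => Irr X ∧ X ⊆ V ∧ Fintype.card κ < cd X + e ∧
      Fintype.card κ < cd (cl k0 X) + c) (fun X hX => hX.1) ⟨hX, hXV, hd, hd'⟩
  exact ⟨Y, mem_maxB.mpr hY, hXY⟩

omit [IsAlgClosed F] in
theorem MaxB.irr {c e : ℕ} {V X : Set (κ → Fˣ)} (h : X ∈ MaxB k0 c e V) : Irr X :=
  (mem_maxB.mp h).prop.1

omit [IsAlgClosed F] in
theorem MaxB.subset {c e : ℕ} {V X : Set (κ → Fˣ)} (h : X ∈ MaxB k0 c e V) : X ⊆ V :=
  (mem_maxB.mp h).prop.2.1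

omit [IsAlgClosed F] in
theorem MaxB.lt {c e : ℕ} {V X : Set (κ → Fˣ)} (h : X ∈ MaxB k0 c e V) :
    Fintype.card κ < cd X + e := (mem_maxB.mp h).prop.2.2.1

omit [IsAlgClosed F] in
theorem MaxB.lt' {c e : ℕ} {V X : Set (κ → Fˣ)} (h : X ∈ MaxB k0 c e V) :
    Fintype.card κ < cd (cl k0 X) + c := (mem_maxB.mp h).prop.2.2.2

omit [IsAlgClosed F] in
theorem MaxB.eq {c e : ℕ} {V X Y : Set (κ → Fˣ)} (h : X ∈ MaxB k0 c e V) (hY : Irr Y) (hYV : Y ⊆ V)
    (hd : Fintype.card κ < cd Y + e) (hd' : Fintype.card κ < cd (cl k0 Y) + c) (hXY : X ⊆ Y) :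
    X = Y :=
  Maximal.eq_of_subset (mem_maxB.mp h) ⟨hY, hYV, hd, hd'⟩ hXY

omit [IsAlgClosed F] in
theorem MaxB.of_subset {c e : ℕ} {V W X : Set (κ → Fˣ)} (h : X ∈ MaxB k0 c e V) (hXW : X ⊆ W)
    (hWV : W ⊆ V) : X ∈ MaxB k0 c e W := by
  rw [mem_maxB]
  refine ⟨⟨MaxB.irr h, hXW, MaxB.lt h, MaxB.lt' h⟩, ?_⟩
  rintro Y ⟨hY, hYW, hd, hd'⟩ hXY
  exact (MaxB.eq h hY (hYW.trans hWV) hd hd' hXY).ge

theorem cd_cl_eq {k : Type} [Field k] [Algebra k F] [IsAlgClosed k] {X : Set (κ → Fˣ)}
    (hX : PIrr X) : cd (cl k X) = rk X + td k X := by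
  unfold cd
  rw [rk_cl, td_cl_eq hX]

theorem cd_le_cd_cl {k : Type} [Field k] [Algebra k F] [IsAlgClosed k] {X : Set (κ → Fˣ)}
    (hX : PIrr X) : cd X ≤ cd (cl k X) := by
  rw [cd_cl_eq hX]
  unfold cd
  have := td_tower_le (k := k) (k' := F) hX
  omega

/-- Maximal elements in a set defined over `k` are defined over `k`. -/
theorem MaxB.closed {k : Type} [Field k] [Algebra k F] [Algebra k0 k] [IsScalarTower k0 k F]
    [IsAlgClosed k] {c e : ℕ} {V X : Set (κ → Fˣ)} (h : X ∈ MaxB k0 c e V) (hV : cl k V = V) :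
    cl k X = X := by
  symm
  apply MaxB.eq h (irr_cl (MaxB.irr h).pirr)
  · exact cl_subset_of_closed (MaxB.subset h) hV
  · have h1 := cd_le_cd_cl (k := k) (MaxB.irr h).pirr
    have h2 := MaxB.lt h
    omega
  · rw [cl_cl k0 k]
    exact MaxB.lt' h
  · exact subset_cl X

theorem closed_of_cl {k : Type} [Field k] [Algebra k F] {V : Set (κ → Fˣ)} (h : cl k V = V) :
    ZClosed V := by
  rw [← h]
  exact zclosed_cl V

/-- Irreducible components of sets defined over `k` are defined over `k`. -/
theorem Comp.cl {k : Type} [Field k] [Algebra k F] [IsAlgClosed k] {V Y : Set (κ → Fˣ)}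
    (hV : cl k V = V) (hY : Comp V Y) : cl k Y = Y := by
  symm
  exact hY.eq_of_subset (irr_cl hY.irr.pirr) (cl_subset_of_closed hY.subset hV) (subset_cl Y)

/-- The step from `k` to an extension `k'` of transcendence degree at most one. -/
theorem maxB_step {k k' : Type} [Field k] [Field k'] [Algebra k F] [Algebra k' F] [Algebra k k']
    [IsScalarTower k k' F] [Algebra k0 k] [Algebra k0 k'] [IsScalarTower k0 k F]
    [IsScalarTower k0 k' F] [IsAlgClosed k] [IsAlgClosed k'] (a : k')
    [Algebra.IsAlgebraic (Algebra.adjoin k {a}) k'] (c : ℕ)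
    (H : ∀ V : Set (κ → Fˣ), cl k V = V → ∀ e, (MaxB k0 c e V).Finite)
    (V : Set (κ → Fˣ)) (hV : cl k' V = V) : ∀ e, (MaxB k0 c e V).Finite := by
  classical
  have key : ∀ V : Set (κ → Fˣ), ZClosed V → (cl k' V = V → ∀ e, (MaxB k0 c e V).Finite) := by
    apply closed_induction
    intro V hVc IH hV e
    by_cases hirr : Irr V
    · by_cases hcond : Fintype.card κ < cd V + e ∧ Fintype.card κ < cd (cl k0 V) + c
      · apply (Set.finite_singleton V).subset
        intro X hX
        exact MaxB.eq hX hirr le_rfl hcond.1 hcond.2 (MaxB.subset hX)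
      · by_cases hk : cl k V = V
        · exact H V hk e
        · -- the part defined over k
          have hcore : (MaxB k0 c e (core k V)).Finite := by
            have h1 : core k V ⊂ V := by
              refine ⟨core_subset hVc, ?_⟩
              intro h2
              apply hk
              have h3 : core k V = V := Set.Subset.antisymm (core_subset hVc) h2
              rw [← h3]
              exact cl_core V
            apply IH _ (zclosed_core V) h1
            apply Set.Subset.antisymm _ (subset_cl _)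
            have h4 := cl_tower k k' (core k V)
            rwa [cl_core] at h4
          have hVk : cl k (cl k V) = cl k V := cl_idem V
          have hfin : (⋃ Z ∈ MaxB k0 c (e - 1) (cl k V),
              (if V ⊆ Z then ∅ else MaxB k0 c e (V ∩ Z))).Finite := by
            apply (H (cl k V) hVk (e - 1)).biUnion
            intro Z hZ
            split_ifs with hVZ
            · exact Set.finite_empty
            · have hZk : cl k Z = Z := MaxB.closed hZ hVk
              have h1 : V ∩ Z ⊂ V := ⟨Set.inter_subset_left, fun h => hVZ (h.trans Set.inter_subset_right)⟩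
              apply IH _ (hVc.inter (MaxB.irr hZ).closed) h1
              apply Set.Subset.antisymm _ (subset_cl _)
              apply Set.subset_inter
              · exact cl_subset_of_closed Set.inter_subset_left hV
              · have h4 := (cl_tower k k' (V ∩ Z)).trans
                  (cl_subset_of_closed (k := k) Set.inter_subset_right hZk)
                exact h4
          apply (hcore.union hfin).subset
          intro X hX
          have hXi := MaxB.irr hX
          have hXk' : cl k' X = X := MaxB.closed hX hV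
          by_cases hXk : cl k X = X
          · left
            apply MaxB.of_subset hX _ (core_subset hVc)
            apply subset_core hXi.pirr
            rw [hXk]
            exact MaxB.subset hX
          · right
            have hXk2 : Irr (cl k X) := irr_cl hXi.pirr
            have hss : X ⊂ cl k X := LE.le.ssubset_of_ne (subset_cl X) (Ne.symm hXk)
            have h1 := td_lt hXi hXk2 hss
            have h2 : td F (cl k X) = td k X := td_cl_eq hXi.pirr
            have h3 : td F X = td k' X := by
              conv_lhs => rw [← hXk']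
              exact td_cl_eq hXi.pirr
            have h4 := td_tower_le_add_one (k := k) (k' := k') hXi.pirr a
            have h5 : rk (cl k X) = rk X := rk_cl X
            have h6 := MaxB.lt hX
            have h7 := cd_le_card hXi.pirr
            obtain ⟨Z, hZ, hXZ⟩ := exists_maxB (k0 := k0) (c := c) (e := e - 1) hXk2
              (cl_mono (MaxB.subset hX)) (by
              unfold cd at *
              omega) (by
              rw [cl_cl k0 k]
              exact MaxB.lt' hX)
            rw [Set.mem_iUnion₂]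
            refine ⟨Z, hZ, ?_⟩
            have hVZ : ¬ V ⊆ Z := by
              intro h
              have hZk : cl k Z = Z := MaxB.closed hZ hVk
              have h8 : cl k V = Z := by
                apply Set.Subset.antisymm _ (MaxB.subset hZ)
                exact cl_subset_of_closed h hZk
              have h9 := MaxB.lt hZ
              have h10 := MaxB.lt' hZ
              rw [← h8] at h9 h10
              rw [cl_cl k0 k] at h10
              apply hcond
              refine ⟨?_, h10⟩
              have h11 : cd (cl k V) = rk V + td k V := cd_cl_eq hirr.pirr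
              have h12 := td_tower_le_add_one (k := k) (k' := k') hirr.pirr a
              have h13 : td F V = td k' V := by
                conv_lhs => rw [← hV]
                exact td_cl_eq hirr.pirr
              unfold cd at *
              omega
            rw [if_neg hVZ]
            exact MaxB.of_subset hX (Set.subset_inter (MaxB.subset hX) ((subset_cl X).trans hXZ))
              Set.inter_subset_left
    · have hfin : (⋃ Y ∈ {Y | Comp V Y}, MaxB k0 c e Y).Finite := by
        apply (finite_comp hVc).biUnion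
        intro Y hY
        have hY' : Comp V Y := hY
        have h1 : Y ⊂ V := by
          refine LE.le.ssubset_of_ne hY'.subset ?_
          rintro rfl
          exact hirr hY'.irr
        exact IH Y hY'.irr.closed h1 (Comp.cl hV hY') e
      apply hfin.subset
      intro X hX
      obtain ⟨Y, hY, hXY⟩ := exists_comp hVc (MaxB.irr hX) (MaxB.subset hX)
      rw [Set.mem_iUnion₂]
      exact ⟨Y, hY, MaxB.of_subset hX hXY hY.subset⟩
  exact key V (closed_of_cl hV) hV

/-- The base case. -/
theorem maxB_base [IsAlgClosed k0] (c : ℕ)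
    (H : ∀ V : Set (κ → Fˣ), cl k0 V = V → ∀ c' ≤ c, (MaxE c' V).Finite)
    (V : Set (κ → Fˣ)) (hV : cl k0 V = V) (e : ℕ) : (MaxB k0 c e V).Finite := by
  apply (H V hV (min e c) (min_le_right _ _)).subset
  intro X hX
  have hXk : cl k0 X = X := MaxB.closed (k0 := k0) (k := k0) hX hV
  have h1 := MaxB.lt hX
  have h2 := MaxB.lt' hX
  rw [hXk] at h2
  rw [mem_maxE]
  refine ⟨⟨MaxB.irr hX, MaxB.subset hX, by omega⟩, ?_⟩
  rintro Y ⟨hY, hYV, hd⟩ hXY
  have h3 := cd_le_cd_cl (k := k0) hY.pirr
  exact (MaxB.eq hX hY hYV (by omega) (by omega) hXY).ge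

end MaxB

end Pool.Agent.MP_dd1803_nt
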