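import Mathlib
import Pool.Agent.MP_dd1803_nt.Transfer

open MvPolynomial

namespace Pool.Agent.MP_dd1803_nt

section Chain

variable {F : Type} [Field F] [CharZero F]

/-- Every closed set is defined over a finitely generated field. -/
theorem exists_field_of_def {κ : Type} [Fintype κ] {V : Set (κ → Fˣ)} (hV : ZClosed V) :
    ∃ A : Set F, A.Finite ∧ ∀ K : IntermediateField ℚ F, A ⊆ K → cl K V = V := by
  classical
  obtain ⟨T, hT⟩ := exists_finset_polys hV
  refine ⟨⋃ p ∈ T, (p.support.image fun d => coeff d p : Finset F), ?_, ?_⟩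
  · apply Set.Finite.biUnion (Finset.finite_toSet T)
    intro p _
    exact Finset.finite_toSet _
  · intro K hK
    apply Set.Subset.antisymm _ (subset_cl _)
    intro x hx
    rw [hT]
    intro p hp
    have hmem : ∀ d : p.support, coeff d.1 p ∈ K := by
      intro d
      apply hK
      rw [Set.mem_iUnion₂]
      exact ⟨p, hp, Finset.mem_image.mpr ⟨d.1, d.2, rfl⟩⟩
    let q : MvPolynomial κ K := ∑ d : p.support, monomial d.1 (⟨coeff d.1 p, hmem d⟩ : K)
    have hq : MvPolynomial.map (algebraMap K F) q = p := by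
      simp only [q, map_sum, map_monomial]
      conv_rhs => rw [← support_sum_monomial_coeff p]
      exact Finset.sum_coe_sort p.support (fun d => monomial d (coeff d p))
    have h1 : q ∈ vI K V := by
      rw [mem_vI]
      intro y hy
      rw [← aeval_map_algebraMap (A := F), hq]
      rw [hT] at hy
      exact hy p hp
    have h2 := hx q h1
    rwa [← aeval_map_algebraMap (A := F), hq] at h2

variable [IsAlgClosed F] {κ : Type} [Fintype κ]

theorem maxB_step_inc {K0 K L : IntermediateField ℚ F} (h0 : K0 ≤ K) (h : K ≤ L)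
    [IsAlgClosed K] [IsAlgClosed L] (a : L)
    (halg : ∀ x ∈ L, IsAlgebraic (Algebra.adjoin K {(a : F)}) x) (c : ℕ)
    (H : ∀ V : Set (κ → Fˣ), cl K V = V → ∀ e, (MaxB K0 c e V).Finite)
    (V : Set (κ → Fˣ)) (hV : cl L V = V) : ∀ e, (MaxB K0 c e V).Finite := by
  let i1 := incAlgebra h
  let i2 := incAlgebra h0
  let i3 := incAlgebra (h0.trans h)
  have t1 := incTower h
  have t2 := incTower h0
  have t3 := incTower (h0.trans h)
  have halg' := isAlgebraic_inc h a halg
  exact maxB_step (k0 := K0) (k := K) (k' := L) a c H V hV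

theorem maxB_all (c : ℕ)
    (H : ∀ V : Set (κ → Fˣ), cl (acl (∅ : Set F)) V = V → ∀ c' ≤ c, (MaxE c' V).Finite)
    {V : Set (κ → Fˣ)} (hV : ZClosed V) (e : ℕ) : (MaxB (acl (∅ : Set F)) c e V).Finite := by
  obtain ⟨A, hA, hAV⟩ := exists_field_of_def hV
  have key : ∀ V : Set (κ → Fˣ), cl (acl A) V = V → ∀ e, (MaxB (acl (∅ : Set F)) c e V).Finite := by
    clear hAV hV V e
    induction A, hA using Set.Finite.induction_on with
    | empty =>
      have := isAlgClosed_acl (∅ : Set F)
      exact fun V hV e => maxB_base c H V hV e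
    | @insert a A _ _ ih =>
      have h1 := isAlgClosed_acl A
      have h2 := isAlgClosed_acl (insert a A)
      exact maxB_step_inc (K0 := acl ∅) (K := acl A) (L := acl (insert a A))
        (acl_mono (Set.empty_subset A)) (acl_mono (Set.subset_insert a A))
        ⟨a, subset_acl _ (Set.mem_insert a A)⟩ (fun x hx => alg_of_mem_acl_insert hx) c ih
  exact key V (hAV (acl A) (subset_acl A)) e

end Chain

end Pool.Agent.MP_dd1803_nt
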