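import Mathlib
import Pool.Agent.MP_dd1803_nt.Torus

open MvPolynomial

namespace Pool.Agent.MP_dd1803_nt

/-- The image of the spectrum of a finitely generated domain over `F[T]` contains all but finitely
many of the points `T = q`. -/
theorem exists_prime_of_injective {F A : Type} [Field F] [CommRing A] [IsDomain A] [Algebra F A]
    [Algebra.FiniteType F A] (a : A)
    (hinj : Function.Injective (Polynomial.aeval (R := F) a)) (Q : Set F) (hQ : Q.Infinite) :
    ∃ q ∈ Q, ∃ p : Ideal A, p.IsPrime ∧ a - algebraMap F A q ∈ p := by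
  classical
  let g : Polynomial F →+* A := (Polynomial.aeval (R := F) a).toRingHom
  have hft : g.FiniteType := by
    apply RingHom.FiniteType.of_comp_finiteType (f := Polynomial.C)
    have h1 : g.comp Polynomial.C = algebraMap F A := by
      ext x
      simp [g]
    rw [h1]
    exact (RingHom.finiteType_algebraMap).mpr inferInstance
  have hfp : g.FinitePresentation := RingHom.FinitePresentation.of_finiteType.mp hft
  obtain ⟨S, hS⟩ := PrimeSpectrum.exists_constructibleSetData_iff.mpr
    (PrimeSpectrum.isConstructible_range_comap hfp)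
  have hbot : (⟨⊥, Ideal.isPrime_bot⟩ : PrimeSpectrum (Polynomial F)) ∈ S.toSet := by
    rw [hS]
    refine ⟨⟨⊥, Ideal.isPrime_bot⟩, ?_⟩
    apply PrimeSpectrum.ext
    rw [PrimeSpectrum.comap_asIdeal]
    show Ideal.comap g ⊥ = ⊥
    rw [← RingHom.ker_eq_comap_bot]
    exact (RingHom.injective_iff_ker_eq_bot g).mp hinj
  simp only [PrimeSpectrum.ConstructibleSetData.toSet, Set.mem_iUnion] at hbot
  obtain ⟨C, hCS, hC1, hC2⟩ := hbot
  have hf : C.f ≠ 0 := by
    intro h0
    apply hC2
    rw [PrimeSpectrum.mem_zeroLocus, Set.singleton_subset_iff]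
    show C.f ∈ (⊥ : Ideal (Polynomial F))
    rw [h0]
    exact Submodule.zero_mem _
  have hg : ∀ n, C.g n = 0 := by
    intro n
    rw [PrimeSpectrum.mem_zeroLocus] at hC1
    have h1 : C.g n ∈ (⊥ : Ideal (Polynomial F)) := hC1 ⟨n, rfl⟩
    exact h1
  obtain ⟨q, hq, hqr⟩ : ∃ q ∈ Q, q ∉ C.f.roots.toFinset := by
    by_contra hcon
    push Not at hcon
    exact hQ ((Finset.finite_toSet _).subset hcon)
  have hq0 : C.f.eval q ≠ 0 := by
    intro h0
    apply hqr
    rw [Multiset.mem_toFinset, Polynomial.mem_roots hf]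
    exact h0
  have hprime : (Ideal.span {Polynomial.X - Polynomial.C q}).IsPrime :=
    (Ideal.span_singleton_prime (Polynomial.X_sub_C_ne_zero q)).mpr (Polynomial.prime_X_sub_C q)
  have hmem : (⟨_, hprime⟩ : PrimeSpectrum (Polynomial F)) ∈ S.toSet := by
    simp only [PrimeSpectrum.ConstructibleSetData.toSet, Set.mem_iUnion]
    refine ⟨C, hCS, ?_, ?_⟩
    · rw [PrimeSpectrum.mem_zeroLocus]
      rintro _ ⟨n, rfl⟩
      rw [hg n]
      exact Submodule.zero_mem _
    · intro h1
      rw [PrimeSpectrum.mem_zeroLocus, Set.singleton_subset_iff] at h1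
      have h2 : C.f ∈ Ideal.span {Polynomial.X - Polynomial.C q} := h1
      rw [Ideal.mem_span_singleton, Polynomial.dvd_iff_isRoot] at h2
      exact hq0 h2
  rw [hS] at hmem
  obtain ⟨p, hp⟩ := hmem
  refine ⟨q, hq, p.asIdeal, p.isPrime, ?_⟩
  have h1 : (Polynomial.X - Polynomial.C q) ∈ (PrimeSpectrum.comap g p).asIdeal := by
    rw [hp]
    exact Ideal.mem_span_singleton_self _
  rw [PrimeSpectrum.comap_asIdeal, Ideal.mem_comap] at h1
  simpa [g] using h1

/-- A nonconstant coordinate on an irreducible closed set misses only finitely many values. -/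
theorem exists_fibre {F : Type} [Field F] [IsAlgClosed F] {κ : Type} [Finite κ]
    {X : Set (κ → Fˣ)} (hX : Irr X) (i : κ) (Q : Set F) (hQ : Q.Infinite)
    (h : ∀ q ∈ Q, ∀ x ∈ X, (x i : F) ≠ q) : ∃ c : Fˣ, ∀ x ∈ X, x i = c := by
  classical
  have := Fintype.ofFinite κ
  have hP := vI_isPrime (k := F) hX.pirr
  let A0 := MvPolynomial κ F ⧸ vI F X
  have hdom : IsDomain A0 := Ideal.Quotient.isDomain _
  let r : A0 := ∏ j, Ideal.Quotient.mk (vI F X) (MvPolynomial.X j)
  have hr : r ≠ 0 := by
    rw [Finset.prod_ne_zero_iff]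
    intro j _ h0
    rw [Ideal.Quotient.eq_zero_iff_mem] at h0
    exact X_not_mem_vI hX.nonempty j h0
  have hle : Submonoid.powers r ≤ nonZeroDivisors A0 :=
    powers_le_nonZeroDivisors_of_noZeroDivisors hr
  let A := Localization.Away r
  have hdomA : IsDomain A := IsLocalization.isDomain_localization hle
  have hinjA : Function.Injective (algebraMap A0 A) := IsLocalization.injective A hle
  have hftA : Algebra.FiniteType F A := by
    have : Algebra.FiniteType A0 A := IsLocalization.finiteType_of_monoid_fg (Submonoid.powers r) A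
    exact Algebra.FiniteType.trans (S := A0) inferInstance this
  let a : A := algebraMap A0 A (Ideal.Quotient.mk (vI F X) (MvPolynomial.X i))
  have hmap : ∀ p : Polynomial F, Polynomial.aeval a p =
      algebraMap A0 A (Ideal.Quotient.mk (vI F X) (Polynomial.aeval (MvPolynomial.X i) p)) := by
    intro p
    have h1 : Polynomial.aeval a p = (((IsScalarTower.toAlgHom F A0 A).comp
        (Ideal.Quotient.mkₐ F (vI F X))) (Polynomial.aeval (MvPolynomial.X i) p)) := by
      rw [← Polynomial.aeval_algHom_apply]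
      rfl
    rw [h1]
    rfl
  by_cases hinj : Function.Injective (Polynomial.aeval (R := F) a)
  · exfalso
    obtain ⟨q, hq, p, hp, hpq⟩ := exists_prime_of_injective a hinj Q hQ
    let φ : MvPolynomial κ F →+* A := (algebraMap A0 A).comp (Ideal.Quotient.mk (vI F X))
    let P : Ideal (MvPolynomial κ F) := p.comap φ
    have hPp : P.IsPrime := hp.comap φ
    have hXP : ∀ j, (MvPolynomial.X j : MvPolynomial κ F) ∉ P := by
      intro j hj
      rw [Ideal.mem_comap] at hj
      have h1 : algebraMap A0 A r ∈ p := by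
        have h2 : r = Ideal.Quotient.mk (vI F X) (MvPolynomial.X j) *
            ∏ l ∈ Finset.univ.erase j, Ideal.Quotient.mk (vI F X) (MvPolynomial.X l) :=
          (Finset.mul_prod_erase _ _ (Finset.mem_univ j)).symm
        have h3 : algebraMap A0 A r = algebraMap A0 A (Ideal.Quotient.mk (vI F X) (MvPolynomial.X j)) *
            algebraMap A0 A (∏ l ∈ Finset.univ.erase j,
              Ideal.Quotient.mk (vI F X) (MvPolynomial.X l)) := by
          rw [← map_mul]
          exact congrArg (algebraMap A0 A) h2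
        rw [h3]
        exact Ideal.mul_mem_right _ _ hj
      have h2 : IsUnit (algebraMap A0 A r) := IsLocalization.Away.algebraMap_isUnit r
      exact hp.ne_top (Ideal.eq_top_of_isUnit_mem _ h1 h2)
    have hle' : vI F X ≤ P := by
      intro f hf
      rw [Ideal.mem_comap]
      have : φ f = 0 := by
        show algebraMap A0 A (Ideal.Quotient.mk (vI F X) f) = 0
        rw [Ideal.Quotient.eq_zero_iff_mem.mpr hf, map_zero]
      rw [this]
      exact Ideal.zero_mem _
    obtain ⟨x, hx⟩ := (irr_zl P hXP).nonempty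
    have hxX : x ∈ X := by
      rw [← zclosed_iff.mp hX.closed]
      exact zl_anti hle' hx
    apply h q hq x hxX
    have h1 : (MvPolynomial.X i - MvPolynomial.C q : MvPolynomial κ F) ∈ P := by
      rw [Ideal.mem_comap]
      have h2 : φ (MvPolynomial.X i - MvPolynomial.C q) = a - algebraMap F A q := by
        rw [map_sub]
        rfl
      rw [h2]
      exact hpq
    have h2 := hx _ h1
    rw [map_sub, aeval_X, aeval_C, sub_eq_zero] at h2
    exact h2
  · -- the coordinate is algebraic
    rw [injective_iff_map_eq_zero] at hinj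
    push Not at hinj
    obtain ⟨p, hp, hp0⟩ := hinj
    rw [hmap p, map_eq_zero_iff _ hinjA, Ideal.Quotient.eq_zero_iff_mem, mem_vI] at hp
    have h1 : ∀ x ∈ X, p.eval (x i : F) = 0 := by
      intro x hx
      have h2 := hp x hx
      rw [← Polynomial.aeval_algHom_apply, aeval_X] at h2
      rw [← h2, Polynomial.aeval_def, Algebra.algebraMap_self, Polynomial.eval₂_id]
      rfl
    have hcl : ∀ c : F, ZClosed {x : κ → Fˣ | (x i : F) = c} := by
      intro c
      have h2 : {x : κ → Fˣ | (x i : F) = c} = zp (MvPolynomial.X i - MvPolynomial.C c) := by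
        ext x
        rw [mem_zp, map_sub, aeval_X, aeval_C, sub_eq_zero]
        rfl
      rw [h2]
      exact zclosed_zp _
    obtain ⟨Z, hZ, hXZ⟩ := hX.subset_of_finset
      (p.roots.toFinset.image fun c => {x : κ → Fˣ | (x i : F) = c}) (by
      intro Z hZ
      obtain ⟨c, _, rfl⟩ := Finset.mem_image.mp hZ
      exact hcl c) (by
      intro x hx
      simp only [Set.mem_iUnion]
      refine ⟨{y : κ → Fˣ | (y i : F) = (x i : F)}, ?_, rfl⟩
      rw [Finset.mem_image]
      refine ⟨(x i : F), ?_, rfl⟩
      rw [Multiset.mem_toFinset, Polynomial.mem_roots hp0]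
      exact h1 x hx)
    obtain ⟨c, _, rfl⟩ := Finset.mem_image.mp hZ
    obtain ⟨x0, hx0⟩ := hX.nonempty
    refine ⟨x0 i, fun x hx => ?_⟩
    apply Units.ext
    have h2 : (x i : F) = c := hXZ hx
    have h3 : (x0 i : F) = c := hXZ hx0
    rw [h2, h3]

end Pool.Agent.MP_dd1803_nt
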