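import Mathlib
import Pool.Agent.MP_dd1803_nt.Interface
import Pool.Agent.MP_dd1803_nt.StepTwoB

open MvPolynomial

namespace Pool.Agent.MP_dd1803_nt

section LineDim

variable {F : Type} [Field F] [IsAlgClosed F]

theorem LL_nonempty (k : ℕ) : (LL F k).Nonempty := by
  classical
  obtain ⟨c, hc⟩ := Infinite.exists_notMem_finset ({0, 1} : Finset F)
  simp only [Finset.mem_insert, Finset.mem_singleton, not_or] at hc
  refine ⟨Sum.elim (fun _ => Units.mk0 c hc.1) (fun _ => Units.mk0 (1 - c)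
    (sub_ne_zero.mpr (Ne.symm hc.2))), ?_⟩
  intro i
  simp

theorem td_LL_le {k : ℕ} {Z : Set (Fin k ⊕ Fin k → Fˣ)} (hZ : Irr Z) (h : Z ⊆ LL F k) :
    td F Z ≤ k := by
  have hP := vI_isPrime (k := F) hZ.pirr
  have hne : Nontrivial (MvPolynomial (Fin k ⊕ Fin k) F ⧸ vI F Z) := inferInstance
  have h1 := td_le_pull (k := F) hZ.pirr (e := (Sum.inl : Fin k → Fin k ⊕ Fin k)) Sum.inl_injective
    (Set.range Sum.inl) (by
    intro i
    rcases i with i | i
    · exact isAlgebraic_algebraMap (⟨gen F Z (Sum.inl i), Algebra.subset_adjoin ⟨_, ⟨i, rfl⟩, rfl⟩⟩ :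
        Algebra.adjoin F (gen F Z '' Set.range Sum.inl))
    · have h2 : gen F Z (Sum.inr i) = 1 - gen F Z (Sum.inl i) := by
        have h3 : (X (Sum.inl i) + X (Sum.inr i) - 1 : MvPolynomial (Fin k ⊕ Fin k) F) ∈ vI F Z := by
          rw [mem_vI]
          intro y hy
          rw [map_sub, map_add, aeval_X, aeval_X, map_one, sub_eq_zero]
          exact h hy i
        have h4 := Ideal.Quotient.eq_zero_iff_mem.mpr h3
        rw [map_sub, map_add, map_one, sub_eq_zero] at h4
        rw [eq_sub_iff_add_eq, add_comm]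
        exact h4
      have h3 : gen F Z (Sum.inr i) ∈ Algebra.adjoin F (gen F Z '' Set.range Sum.inl) := by
        rw [h2]
        exact Subalgebra.sub_mem _ (Subalgebra.one_mem _) (Algebra.subset_adjoin ⟨_, ⟨i, rfl⟩, rfl⟩)
      exact isAlgebraic_algebraMap (⟨_, h3⟩ : Algebra.adjoin F (gen F Z '' Set.range Sum.inl)))
  rw [Set.sdiff_self, Set.ncard_empty, add_zero] at h1
  have h2 := td_le_card (k := F) (hZ.pirr.pull Sum.inl)
  rw [Nat.card_eq_fintype_card, Fintype.card_fin] at h2
  exact h1.trans h2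

theorem dm_LL (k : ℕ) : dm (LL F k) = (k : WithBot ℕ∞) := by
  obtain ⟨d, hd, _, h1, Z, hZ, hZV, h2⟩ := exists_dm (LL_nonempty (F := F) k)
  rw [hd]
  have h3 : d ≤ k := by
    rw [← h2]
    exact td_LL_le hZ hZV
  have h4 : k ≤ d := by
    obtain ⟨x, hx⟩ := LL_nonempty (F := F) k
    have h5 : LL F k = Set.univ ∩ {x | ∀ i ∈ (Finset.univ : Finset (Fin k)),
        aeval (co x) (X (Sum.inl i) + X (Sum.inr i) - 1 : MvPolynomial (Fin k ⊕ Fin k) F) = 0} := by
      ext y
      rw [mem_LL]
      simp only [Set.mem_inter_iff, Set.mem_univ, true_and, Finset.mem_univ, true_implies,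
        Set.mem_ofPred_eq, map_sub, map_add, aeval_X, map_one, sub_eq_zero]
      rfl
    obtain ⟨Y, hY, _⟩ := exists_comp_mem (zclosed_LL k) hx
    have hY' := hY
    rw [h5] at hY'
    have h6 := krull_list Finset.univ _ irr_univ hY'
    rw [td_univ] at h6
    have h7 := h1 Y hY.irr hY.subset
    simp only [Fintype.card_sum, Fintype.card_fin, Finset.card_univ] at h6
    omega
  have h5 : d = k := le_antisymm h3 h4
  rw [h5]

theorem finite_LL_of_zp {k : ℕ} (h : ZP (LL F k)) : (MaxE k (LL F k)).Finite := by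
  have h1 := finite_of_zp (zclosed_LL k) (dm_LL k) (by simp) h
  have h2 : Fintype.card (Fin k ⊕ Fin k) - k = k := by simp
  rwa [h2] at h1

/-- The main equivalence. -/
theorem zp_iff_line [CharZero F] : (∀ k : ℕ, ZP (LL F k)) ↔
    ∀ (κ : Type) [Finite κ] (V : Set (κ → Fˣ)), ZClosed V → ZP V := by
  constructor
  · intro h κ _ V hV
    have := Fintype.ofFinite κ
    have hL : ∀ k, (MaxE k (LL F k)).Finite := fun k => finite_LL_of_zp (h k)
    exact zp_of_finite hV (fun e => finite_maxE_closed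
      (fun κ _ q f e => finite_maxE_int hL f e) hV e)
  · intro h k
    exact h _ _ (zclosed_LL k)

end LineDim

end Pool.Agent.MP_dd1803_nt
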