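import Mathlib
import Pool.Agent.MP_dd1803_nt.Defs
import Pool.Agent.Z5.HHc
import Pool.Agent.Z6.G5

namespace Pool.Agent.MP_dd1803_nt.LinePencilsOld

open Pool.Agent.MP_dd1803_nt

/-- The surface fibred in lines over a line of the complex torus of dimension `m`: the points
`(x_0, x_1, y_0, ..., y_(m-1))` with, for some `t`, `y_i = c_i (t - d_i)` and
`A(t) x_0 + B(t) x_1 = C(t)`. -/
def Pencil {m : ℕ} (A B C : Polynomial ℂ) (c d : Fin m → ℂ) : Set (Fin 2 ⊕ Fin m → ℂˣ) :=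
  {x | ∃ t : ℂ, (∀ i, (x (Sum.inr i) : ℂ) = c i * (t - d i)) ∧
    A.eval t * (x (Sum.inl 0) : ℂ) + B.eval t * (x (Sum.inl 1) : ℂ) = C.eval t}

/-- The data: `A, B, C` are nonzero and all `y_i ≠ 0` at their common zeros does not occur, the `c_i`
are not zero and the `d_i` are different. -/
def Proper {m : ℕ} (A B C : Polynomial ℂ) (c d : Fin m → ℂ) : Prop :=
  A ≠ 0 ∧ B ≠ 0 ∧ C ≠ 0 ∧
    (∀ t, (∀ i, t ≠ d i) → ¬ (A.eval t = 0 ∧ B.eval t = 0 ∧ C.eval t = 0)) ∧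
    (∀ i, c i ≠ 0) ∧ Function.Injective d

/-- Two independent real relations between the `log |c_i (t - d_i)|` hold at finitely many `t`. -/
def Indep {m : ℕ} (c d : Fin m → ℂ) : Prop :=
  ∀ u v : Fin m → ℝ, LinearIndependent ℝ ![u, v] →
    {t : ℂ | (∀ i, t ≠ d i) ∧ ∑ i, u i * Real.log ‖c i * (t - d i)‖ = 0 ∧
      ∑ i, v i * Real.log ‖c i * (t - d i)‖ = 0}.Finite

/-- (1) `m = 3`, complex coefficients: finiteness unless, for some numbering `i, j, k` of the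
coordinates, `d_j` and `d_k` are inverse points of the circle `|y_i| = 1` and `|y_j| = |y_k|` on this
circle. (2) Every `m ≥ 2`, algebraic coefficients, under condition `Indep`. -/
theorem result :
    (∀ (A B C : Polynomial ℂ) (c d : Fin 3 → ℂ), Proper A B C c d →
      (∀ i j k : Fin 3, i ≠ j → j ≠ k → k ≠ i →
        ¬ ((‖c i‖ : ℂ) ^ 2 * ((d j - d i) * (starRingEnd ℂ) (d k - d i)) = 1 ∧
          ‖c i‖ * ‖c j‖ * ‖d j - d i‖ = ‖c k‖)) →
      dm (Pencil A B C c d) = 2 ∧ {X | Maximal (Atypical (Pencil A B C c d)) X}.Finite) ∧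
    (∀ (m : ℕ) (A B C : Polynomial ℂ) (c d : Fin m → ℂ), 2 ≤ m → Proper A B C c d → Indep c d →
      (∀ k, IsAlgebraic ℚ (A.coeff k)) → (∀ k, IsAlgebraic ℚ (B.coeff k)) →
      (∀ k, IsAlgebraic ℚ (C.coeff k)) → (∀ i, IsAlgebraic ℚ (c i)) → (∀ i, IsAlgebraic ℚ (d i)) →
      dm (Pencil A B C c d) = 2 ∧ {X | Maximal (Atypical (Pencil A B C c d)) X}.Finite) := by
  have hP : ∀ {m : ℕ} (A B C : Polynomial ℂ) (c d : Fin m → ℂ),
      Pencil A B C c d = Pool.Agent.Z6.TP A B C c d := by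
    intro m A B C c d
    rfl
  refine ⟨fun A B C c d hV hrec => ?_, fun m A B C c d hm hV hI h1 h2 h3 h4 h5 => ?_⟩
  · obtain ⟨hA, hB, hC, hcop, hc, hd⟩ := hV
    have hH : Pool.Agent.Z5.HH c d := Pool.Agent.Z5.HH_of hc hd (fun i j k h1 h2 h3 h4 =>
      hrec i j k h1 h2 (Ne.symm h3) (by
        push_cast at h4
        exact h4))
    have hH6 : Pool.Agent.Z6.HH c d := hH
    rw [hP]
    exact ⟨Pool.Agent.Z6.dm_TP (by norm_num) hc hA hB hC hcop,
      Pool.Agent.Z6.zp_three hA hB hC hcop hc hd hH6⟩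
  · obtain ⟨hA, hB, hC, hcop, hc, hd⟩ := hV
    rw [hP]
    exact ⟨Pool.Agent.Z6.dm_TP (by omega) hc hA hB hC hcop,
      Pool.Agent.Z6.zp_alg hm hA hB hC hcop hc hd hI h1 h2 h3 h4 h5⟩

end Pool.Agent.MP_dd1803_nt.LinePencilsOld
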