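import Mathlib
import Pool.Agent.MP_dd1803_nt.Defs
import Pool.Agent.MP_dd1803_nt.LineDim

namespace Pool.Agent.Results.MP_dd1803_nt.LinePowers

open Pool.Agent.MP_dd1803_nt

/-- The Zilber-Pink property holds for all closed subsets of all tori over the complex numbers
if and only if it holds for all powers of the line `x + y = 1`. -/
theorem result : (∀ k : ℕ, ZP (LL ℂ k)) ↔
    ∀ (κ : Type) [Finite κ] (V : Set (κ → ℂˣ)), ZClosed V → ZP V :=
  zp_iff_line

end Pool.Agent.Results.MP_dd1803_nt.LinePowers
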