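import Mathlib
import Pool.Agent.MP_dd1803_nt.Mono

open Polynomial

namespace Pool.Agent.MP_dd1803_nt

section Mann

variable {F : Type} [Field F] [CharZero F]

/-- Galois conjugation of a vanishing sum of roots of unity. -/
theorem sum_pow_coprime {ι : Type} [Fintype ι] {n : ℕ} (hn : 0 < n) {ζ : F}
    (hζ : IsPrimitiveRoot ζ n) (a : ι → ℕ) (h : ∑ i, ζ ^ a i = 0) {u : ℕ} (hu : Nat.Coprime u n) :
    ∑ i, ζ ^ (u * a i) = 0 := by
  let P : ℚ[X] := ∑ i, X ^ a i
  have h1 : aeval ζ P = 0 := by simpa [P] using h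
  have h2 : cyclotomic n ℚ ∣ P := by
    rw [cyclotomic_eq_minpoly_rat hζ hn]
    exact minpoly.dvd ℚ ζ h1
  obtain ⟨Q, hQ⟩ := h2
  have h3 : IsPrimitiveRoot (ζ ^ u) n := hζ.pow_of_coprime u hu
  have h4 : aeval (ζ ^ u) (cyclotomic n ℚ) = 0 := by
    rw [aeval_def, eval₂_eq_eval_map, map_cyclotomic]
    exact h3.isRoot_cyclotomic hn
  have h5 : aeval (ζ ^ u) P = 0 := by rw [hQ, map_mul, h4, zero_mul]
  simpa [P, pow_mul] using h5

omit [CharZero F] in
/-- sum of the powers of a `p`-th root of unity -/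
theorem sum_pow_root {p : ℕ} {ω : F} (hω : IsPrimitiveRoot ω p) (c : ℕ) :
    ∑ j ∈ Finset.range p, ω ^ (j * c) = if p ∣ c then (p : F) else 0 := by
  split_ifs with h
  · obtain ⟨d, rfl⟩ := h
    have : ∀ j ∈ Finset.range p, ω ^ (j * (p * d)) = 1 := by
      intro j _
      rw [show j * (p * d) = p * (j * d) by ring, pow_mul, hω.pow_eq_one, one_pow]
    rw [Finset.sum_congr rfl this]
    simp
  · have h1 : ω ^ c ≠ 1 := by
      intro h2
      exact h (hω.dvd_of_pow_eq_one c h2)
    have h2 : (ω ^ c - 1) * ∑ j ∈ Finset.range p, ω ^ (j * c) = 0 := by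
      have h3 := mul_geom_sum (ω ^ c) p
      have h4 : ∑ j ∈ Finset.range p, ω ^ (j * c) = ∑ j ∈ Finset.range p, (ω ^ c) ^ j := by
        apply Finset.sum_congr rfl
        intro j _
        rw [← pow_mul, mul_comm]
      rw [h4, h3, ← pow_mul, mul_comm c, pow_mul, hω.pow_eq_one, one_pow, sub_self]
    rcases mul_eq_zero.mp h2 with h3 | h3
    · exact absurd (sub_eq_zero.mp h3) h1
    · exact h3

theorem class_sum {ι : Type} [Fintype ι] {p : ℕ} (hp : p.Prime) {ω : F} (hω : IsPrimitiveRoot ω p)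
    (z : ι → F) (a : ι → ℕ) (j₀ : ℕ)
    (hj : ∀ j < p, j ≠ j₀ → ∑ i, z i * ω ^ (j * a i) = 0)
    (h0 : (∑ i, z i * ω ^ (j₀ * a i) = 0) ∨ ∃ c, ∀ i, ¬ p ∣ a i + c) (c : ℕ) :
    ∑ i with p ∣ a i + c, z i = 0 := by
  have hp0 : (p : F) ≠ 0 := Nat.cast_ne_zero.mpr hp.ne_zero
  have key : ∀ c, (p : F) * ∑ i with p ∣ a i + c, z i =
      ∑ j ∈ Finset.range p, ω ^ (j * c) * ∑ i, z i * ω ^ (j * a i) := by
    intro c
    have h1 : ∑ j ∈ Finset.range p, ω ^ (j * c) * ∑ i, z i * ω ^ (j * a i) =
        ∑ i, z i * ∑ j ∈ Finset.range p, ω ^ (j * (a i + c)) := by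
      simp only [Finset.mul_sum]
      rw [Finset.sum_comm]
      apply Finset.sum_congr rfl
      intro i _
      apply Finset.sum_congr rfl
      intro j _
      rw [mul_add, pow_add]
      ring
    rw [h1]
    simp only [sum_pow_root hω]
    rw [Finset.sum_filter, Finset.mul_sum]
    apply Finset.sum_congr rfl
    intro i _
    split_ifs <;> ring
  have key2 : ∀ c, (p : F) * ∑ i with p ∣ a i + c, z i =
      if j₀ < p then ω ^ (j₀ * c) * ∑ i, z i * ω ^ (j₀ * a i) else 0 := by
    intro c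
    rw [key c]
    split_ifs with h
    · rw [Finset.sum_eq_single j₀]
      · intro j h1 h2
        rw [hj j (Finset.mem_range.mp h1) h2, mul_zero]
      · intro h1
        exact absurd (Finset.mem_range.mpr h) h1
    · apply Finset.sum_eq_zero
      intro j h1
      have h2 := Finset.mem_range.mp h1
      rw [hj j h2 (by omega), mul_zero]
  have h3 : (if j₀ < p then ω ^ (j₀ * c) * ∑ i, z i * ω ^ (j₀ * a i) else 0) = 0 := by
    split_ifs with h
    · rcases h0 with h0 | ⟨c0, h0⟩
      · rw [h0, mul_zero]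
      · have h4 := key2 c0
        rw [if_pos h] at h4
        have h5 : ∑ i with p ∣ a i + c0, z i = 0 := by
          apply Finset.sum_eq_zero
          intro i hi
          rw [Finset.mem_filter] at hi
          exact absurd hi.2 (h0 i)
        rw [h5, mul_zero] at h4
        have h6 : ω ^ (j₀ * c0) ≠ 0 := pow_ne_zero _ (hω.ne_zero hp.ne_zero)
        rw [(mul_eq_zero.mp h4.symm).resolve_left h6, mul_zero]
    · rfl
  have h4 := key2 c
  rw [h3] at h4
  exact (mul_eq_zero.mp h4).resolve_left hp0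

theorem mann_step [IsAlgClosed F] {ι : Type} [Fintype ι] (z : ι → F) (n : ℕ) (hn : 0 < n)
    (hz : ∀ i, z i ^ n = 1) (hs : ∑ i, z i = 0)
    (hmin : ∀ s : Finset ι, s.Nonempty → s ≠ Finset.univ → ∑ i ∈ s, z i ≠ 0) (i₀ : ι)
    (hi₀ : z i₀ = 1) (p : ℕ) (hp : p.Prime) (m : ℕ) (hnm : n = p * m)
    (h : p ∣ m ∨ Fintype.card ι < p) (i : ι) : z i ^ m = 1 := by
  classical
  have hm : 0 < m := Nat.pos_of_ne_zero (by rintro rfl; simp at hnm; omega)
  have : NeZero (n : F) := ⟨Nat.cast_ne_zero.mpr hn.ne'⟩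
  have : NeZero n := ⟨hn.ne'⟩
  obtain ⟨ζ, hζ⟩ := HasEnoughRootsOfUnity.exists_primitiveRoot F n
  choose a ha ha' using fun i => hζ.eq_pow_of_pow_eq_one (hz i)
  have hω : IsPrimitiveRoot (ζ ^ m) p := hζ.pow hn (by rw [hnm, mul_comm])
  have hS : ∑ i, ζ ^ a i = 0 := by simpa [ha'] using hs
  have hcop : ∀ j : ℕ, ¬ p ∣ 1 + j * m → ∑ i, z i * (ζ ^ m) ^ (j * a i) = 0 := by
    intro j hj
    have h1 : Nat.Coprime (1 + j * m) n := by
      rw [hnm]
      apply Nat.Coprime.mul_right
      · exact ((Nat.Prime.coprime_iff_not_dvd hp).mpr hj).symm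
      · simp
    have h2 := sum_pow_coprime hn hζ a hS h1
    rw [← h2]
    apply Finset.sum_congr rfl
    intro i _
    rw [← ha' i, ← pow_mul, ← pow_add]
    congr 1
    ring
  have hall : ∀ c, ∑ i with p ∣ a i + c, z i = 0 := by
    by_cases hpm : p ∣ m
    · apply class_sum hp hω z a 0
      · intro j _ _
        apply hcop
        intro h1
        have h2 : p ∣ j * m := Dvd.dvd.mul_left hpm j
        have h3 := (Nat.dvd_add_left h2).mp h1
        exact hp.one_lt.ne' (Nat.dvd_one.mp h3)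
      · left
        simpa using hs
    · have hcard : Fintype.card ι < p := h.resolve_left hpm
      by_cases hex : ∃ j < p, p ∣ 1 + j * m
      · obtain ⟨j₀, hj₀, hd⟩ := hex
        apply class_sum hp hω z a j₀
        · intro j hj hne
          apply hcop
          intro hd'
          apply hne
          have h1 : 1 + j * m ≡ 1 + j₀ * m [MOD p] :=
            ((Nat.modEq_zero_iff_dvd.mpr hd').trans (Nat.modEq_zero_iff_dvd.mpr hd).symm)
          have h2 : j * m ≡ j₀ * m [MOD p] := Nat.ModEq.add_left_cancel' 1 h1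
          have h3 : j ≡ j₀ [MOD p] := Nat.ModEq.cancel_right_of_coprime
            (by rw [Nat.gcd_comm] ; exact ((Nat.Prime.coprime_iff_not_dvd hp).mpr hpm).symm) h2
          have h4 : j % p = j₀ % p := h3
          rwa [Nat.mod_eq_of_lt hj, Nat.mod_eq_of_lt hj₀] at h4
        · right
          by_contra hcon
          push Not at hcon
          choose f hf using hcon
          have hinj : Function.Injective (fun c : Fin p => f c) := by
            intro c c' hcc
            have h1 : p ∣ a (f c) + c := hf c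
            have h2 : p ∣ a (f c) + c' := by
              have := hf c'
              have h3 : f (c : ℕ) = f (c' : ℕ) := hcc
              rwa [← h3] at this
            have h3 : a (f c) + c ≡ a (f c) + c' [MOD p] :=
              ((Nat.modEq_zero_iff_dvd.mpr h1).trans (Nat.modEq_zero_iff_dvd.mpr h2).symm)
            have h4 : (c : ℕ) ≡ c' [MOD p] := Nat.ModEq.add_left_cancel' _ h3
            have h5 : (c : ℕ) % p = c' % p := h4
            rw [Nat.mod_eq_of_lt c.2, Nat.mod_eq_of_lt c'.2] at h5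
            exact Fin.ext h5
          have h1 := Fintype.card_le_of_injective _ hinj
          rw [Fintype.card_fin] at h1
          omega
      · push Not at hex
        apply class_sum hp hω z a p
        · intro j hj _
          exact hcop j (hex j hj)
        · left
          have h1 := hcop 0 (hex 0 hp.pos)
          rw [← h1]
          apply Finset.sum_congr rfl
          intro i _
          rw [mul_comm p, pow_mul, ← pow_mul, pow_mul, ← pow_mul, ← pow_mul]
          have h2 : m * (a i * p) = n * a i := by rw [hnm]; ring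
          rw [h2, pow_mul, hζ.pow_eq_one]
          simp
  obtain ⟨c, hc⟩ : ∃ c, p ∣ a i₀ + c := by
    refine ⟨(p - 1) * a i₀, ?_⟩
    have : a i₀ + (p - 1) * a i₀ = p * a i₀ := by
      obtain ⟨q, rfl⟩ : ∃ q, p = q + 1 := ⟨p - 1, (Nat.succ_pred_eq_of_pos hp.pos).symm⟩
      simp
      ring
    rw [this]
    exact dvd_mul_right _ _
  have hne : (Finset.univ.filter fun i => p ∣ a i + c).Nonempty :=
    ⟨i₀, by simpa using hc⟩
  have huniv : (Finset.univ.filter fun i => p ∣ a i + c) = Finset.univ := by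
    by_contra hcon
    exact hmin _ hne hcon (hall c)
  have h1 : p ∣ a i + c := by
    have : i ∈ Finset.univ.filter fun i => p ∣ a i + c := by
      rw [huniv]
      exact Finset.mem_univ i
    exact (Finset.mem_filter.mp this).2
  have h2 : p ∣ a i₀ := by
    have h3 : n ∣ a i₀ := hζ.dvd_of_pow_eq_one _ (by rw [ha' i₀, hi₀])
    exact (Dvd.intro m hnm.symm).trans h3
  have h3 : p ∣ c := (Nat.dvd_add_right h2).mp hc
  have h4 : p ∣ a i := (Nat.dvd_add_left h3).mp h1
  obtain ⟨d, hd⟩ := h4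
  rw [← ha' i, hd, ← pow_mul]
  have h5 : p * d * m = n * d := by rw [hnm]; ring
  rw [h5, pow_mul, hζ.pow_eq_one, one_pow]

theorem mann_alg [IsAlgClosed F] (N : ℕ) {ι : Type} [Fintype ι] (z : ι → F)
    (hcard : Fintype.card ι ≤ N) (ht : ∀ i, ∃ n, 0 < n ∧ z i ^ n = 1) (hs : ∑ i, z i = 0)
    (hmin : ∀ s : Finset ι, s.Nonempty → s ≠ Finset.univ → ∑ i ∈ s, z i ≠ 0) (i₀ : ι)
    (hi₀ : z i₀ = 1) (i : ι) :
    z i ^ (∏ p ∈ (Finset.range (N + 1)).filter Nat.Prime, p) = 1 := by
  classical
  have hex : ∃ n, 0 < n ∧ ∀ i, z i ^ n = 1 := by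
    choose n hn h using ht
    refine ⟨∏ i, n i, Finset.prod_pos fun i _ => hn i, fun i => ?_⟩
    obtain ⟨d, hd⟩ := Finset.dvd_prod_of_mem n (Finset.mem_univ i)
    rw [hd, pow_mul, h i, one_pow]
  let n := Nat.find hex
  obtain ⟨hn, hz⟩ := Nat.find_spec hex
  have hmin' : ∀ m, 0 < m → m < n → ¬ ∀ i, z i ^ m = 1 := by
    intro m h1 h2 h3
    exact Nat.find_min hex h2 ⟨h1, h3⟩
  have hn' : 0 < n := hn
  have hz' : ∀ i, z i ^ n = 1 := hz
  have key : ∀ p m : ℕ, p.Prime → n = p * m → ¬ p ∣ m ∧ p ≤ N := by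
    intro p m hp hnm
    have hm : 0 < m := Nat.pos_of_ne_zero (by rintro rfl; simp at hnm; omega)
    have hlt : m < n := by
      rw [hnm]
      exact lt_mul_of_one_lt_left hm hp.one_lt
    by_contra hcon
    apply hmin' m hm hlt
    intro i
    apply mann_step z n hn' hz' hs hmin i₀ hi₀ p hp m hnm
    by_cases h1 : p ∣ m
    · exact Or.inl h1
    · right
      by_contra h2
      exact hcon ⟨h1, by omega⟩
  have hsq : Squarefree n := by
    rw [Nat.squarefree_iff_prime_squarefree]
    rintro p hp ⟨d, hd⟩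
    have h1 : n = p * (p * d) := by rw [hd]; ring
    exact (key p (p * d) hp h1).1 (dvd_mul_right p d)
  have hdvd : n ∣ ∏ p ∈ (Finset.range (N + 1)).filter Nat.Prime, p := by
    conv_lhs => rw [← Nat.prod_primeFactors_of_squarefree hsq]
    apply Finset.prod_dvd_prod_of_subset
    intro p hp
    have h1 := Nat.prime_of_mem_primeFactors hp
    obtain ⟨d, hd⟩ := Nat.dvd_of_mem_primeFactors hp
    rw [Finset.mem_filter, Finset.mem_range]
    exact ⟨Nat.lt_succ_of_le (key p d h1 hd).2, h1⟩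
  obtain ⟨d, hd⟩ := hdvd
  rw [hd, pow_mul, hz' i, one_pow]

end Mann

/-- Mann's theorem: in a minimal vanishing sum of at most `N` roots of unity, the ratios have
bounded order. -/
theorem mann_bound (F : Type) [Field F] [CharZero F] (N : ℕ) : ∃ M : ℕ, 0 < M ∧
    ∀ (ι : Type) [Fintype ι] (z : ι → Fˣ), Fintype.card ι ≤ N → (∀ i, Tor (z i)) →
      ∑ i, (z i : F) = 0 →
      (∀ s : Finset ι, s.Nonempty → s ≠ Finset.univ → ∑ i ∈ s, (z i : F) ≠ 0) →
      ∀ i j, (z i * (z j)⁻¹) ^ M = 1 := by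
  refine ⟨∏ p ∈ (Finset.range (N + 1)).filter Nat.Prime, p, ?_, ?_⟩
  · exact Finset.prod_pos fun p hp => (Finset.mem_filter.mp hp).2.pos
  · intro ι _ z hcard ht hs hmin i j
    let f := algebraMap F (AlgebraicClosure F)
    let w : ι → AlgebraicClosure F := fun i => f ((z i * (z j)⁻¹ : Fˣ) : F)
    have hw : ∀ s : Finset ι, ∑ i ∈ s, w i = f ((∑ i ∈ s, (z i : F)) * ((z j)⁻¹ : Fˣ)) := by
      intro s
      rw [Finset.sum_mul, map_sum]
      apply Finset.sum_congr rfl
      intro i _
      simp [w]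
    have h0 : ∀ s : Finset ι, ∑ i ∈ s, w i = 0 ↔ ∑ i ∈ s, (z i : F) = 0 := by
      intro s
      rw [hw, map_eq_zero_iff f f.injective, mul_eq_zero]
      constructor
      · rintro (h | h)
        · exact h
        · exact absurd h (Units.ne_zero _)
      · exact Or.inl
    have h1 := mann_alg (F := AlgebraicClosure F) N w hcard (by
      intro i
      obtain ⟨n, hn, h⟩ := (ht i).mul (ht j).inv
      refine ⟨n, hn, ?_⟩
      simp only [w]
      rw [← map_pow, ← Units.val_pow_eq_pow_val, h]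
      simp) ((h0 _).mpr hs) (fun s h1 h2 => (h0 s).not.mpr (hmin s h1 h2)) j (by simp [w]) i
    simp only [w] at h1
    rw [← map_pow, ← Units.val_pow_eq_pow_val] at h1
    apply Units.ext
    apply f.injective
    rw [h1]
    simp

end Pool.Agent.MP_dd1803_nt
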