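import Mathlib
import Pool.Agent.MP_dd1803_nt.Mann
import Pool.Agent.MP_dd1803_nt.StepA

open MvPolynomial

namespace Pool.Agent.MP_dd1803_nt

section Indep

variable {F : Type} [Field F]

/-- Linear independence of distinct characters on a Zariski dense set. -/
theorem ch_indep {d : ℕ} {ι : Type} [Fintype ι] (e : ι → Fin d → ℤ) (c : ι → F)
    (W : Set (Fin d → Fˣ))
    (hW : ∀ p : MvPolynomial (Fin d) F, (∀ w ∈ W, aeval (co w) p = 0) → p = 0)
    (h : ∀ w ∈ W, ∑ l, c l * (ch (e l) w : F) = 0) (v : Fin d → ℤ) :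
    ∑ l ∈ Finset.univ.filter (fun l => e l = v), c l = 0 := by
  classical
  -- a bound for the exponents
  obtain ⟨B, hB⟩ : ∃ B : ℕ, ∀ l k, 0 ≤ e l k + B := by
    refine ⟨∑ l, ∑ k, (e l k).natAbs, fun l k => ?_⟩
    have h1 : (e l k).natAbs ≤ ∑ l, ∑ k, (e l k).natAbs :=
      (Finset.single_le_sum (f := fun k => (e l k).natAbs) (fun _ _ => Nat.zero_le _)
        (Finset.mem_univ k)).trans
      (Finset.single_le_sum (f := fun l => ∑ k, (e l k).natAbs) (fun _ _ => Nat.zero_le _)
        (Finset.mem_univ l))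
    have h2 : ((e l k).natAbs : ℤ) ≤ ((∑ l, ∑ k, (e l k).natAbs : ℕ) : ℤ) := by exact_mod_cast h1
    omega
  let M : ι → (Fin d →₀ ℕ) := fun l => Finsupp.equivFunOnFinite.symm fun k => (e l k + B).toNat
  let p : MvPolynomial (Fin d) F := ∑ l, monomial (M l) (c l)
  have hM : ∀ l, ∀ w : Fin d → Fˣ, (M l).prod (fun k n => (co w k) ^ n) =
      (ch (e l) w : F) * ∏ k, (w k : F) ^ B := by
    intro l w
    rw [Finsupp.prod_fintype _ _ (fun k => pow_zero _)]
    unfold ch
    rw [Units.coe_prod, ← Finset.prod_mul_distrib]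
    apply Finset.prod_congr rfl
    intro k _
    have h1 : (M l) k = (e l k + B).toNat := rfl
    rw [h1, co_apply]
    have h2 : ((w k ^ (e l k + B).toNat : Fˣ) : F) = ((w k ^ e l k * w k ^ B : Fˣ) : F) := by
      congr 1
      rw [← zpow_natCast, ← zpow_natCast, ← zpow_add, Int.toNat_of_nonneg (hB l k)]
    push_cast at h2
    rw [h2, Units.val_zpow_eq_zpow_val]
  have hp : p = 0 := by
    apply hW
    intro w hw
    simp only [p, map_sum, aeval_monomial, hM]
    have h1 := h w hw
    have h2 : ∀ l, (algebraMap F F) (c l) * ((ch (e l) w : F) * ∏ k, (w k : F) ^ B) =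
        (c l * (ch (e l) w : F)) * ∏ k, (w k : F) ^ B := by
      intro l
      rw [Algebra.algebraMap_self, RingHom.id_apply]
      ring
    simp only [h2]
    rw [← Finset.sum_mul, h1, zero_mul]
  by_cases hv : ∃ l0, e l0 = v
  · obtain ⟨l0, rfl⟩ := hv
    have h1 : coeff (M l0) p = 0 := by rw [hp, coeff_zero]
    simp only [p, coeff_sum, coeff_monomial] at h1
    rw [Finset.sum_filter]
    refine (Finset.sum_congr rfl ?_).trans h1
    intro l _
    have h2 : e l = e l0 ↔ M l = M l0 := by
      constructor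
      · intro h3
        simp only [M, h3]
      · intro h3
        funext k
        have h4 : (e l k + B).toNat = (e l0 k + B).toNat := DFunLike.congr_fun h3 k
        have h5 := hB l k
        have h6 := hB l0 k
        omega
    simp only [h2]
  · push Not at hv
    apply Finset.sum_eq_zero
    intro l hl
    exact absurd (Finset.mem_filter.mp hl).2 (hv l)

/-- Every vanishing sum splits into minimal vanishing sums. -/
theorem exists_blocks {ι : Type} [DecidableEq ι] (c : ι → F) (s : Finset ι)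
    (hs : ∑ l ∈ s, c l = 0) : ∃ β : ι → Finset ι, ∀ l ∈ s, l ∈ β l ∧ β l ⊆ s ∧
      (∀ l' ∈ β l, β l' = β l) ∧ ∑ l' ∈ β l, c l' = 0 ∧
      ∀ t ⊆ β l, t.Nonempty → t ≠ β l → ∑ l' ∈ t, c l' ≠ 0 := by
  classical
  induction s using Finset.strongInduction with
  | H s ih =>
    by_cases hne : s.Nonempty
    · -- a minimal nonempty vanishing subset
      let T := s.powerset.filter (fun t => t.Nonempty ∧ ∑ l ∈ t, c l = 0)
      have hT : T.Nonempty := ⟨s, by simp [T, hne, hs]⟩
      obtain ⟨t, ht⟩ := T.exists_minimal hT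
      have ht1 := ht.prop
      simp only [T, Finset.mem_filter, Finset.mem_powerset] at ht1
      obtain ⟨hts, htne, ht0⟩ := ht1
      have hlt : s \ t ⊂ s := Finset.sdiff_ssubset hts htne
      have h0 : ∑ l ∈ s \ t, c l = 0 := by
        have := Finset.sum_sdiff hts (f := c)
        rw [ht0, add_zero, hs] at this
        exact this
      obtain ⟨β, hβ⟩ := ih (s \ t) hlt h0
      refine ⟨fun l => if l ∈ t then t else β l, ?_⟩
      intro l hl
      by_cases hlt' : l ∈ t
      · simp only [if_pos hlt']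
        refine ⟨hlt', hts, ?_, ht0, ?_⟩
        · intro l' hl'
          simp only [if_pos hl']
        · intro r hr hrne hrt hr0
          apply hrt
          have hr' : r ∈ T := by
            simp only [T, Finset.mem_filter, Finset.mem_powerset]
            exact ⟨hr.trans hts, hrne, hr0⟩
          exact Finset.Subset.antisymm hr (ht.le_of_le hr' hr)
      · simp only [if_neg hlt']
        have hl' : l ∈ s \ t := Finset.mem_sdiff.mpr ⟨hl, hlt'⟩
        obtain ⟨h1, h2, h3, h4, h5⟩ := hβ l hl'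
        refine ⟨h1, h2.trans Finset.sdiff_subset, ?_, h4, h5⟩
        intro l' hl'
        have h6 : l' ∉ t := (Finset.mem_sdiff.mp (h2 hl')).2
        simp only [if_neg h6]
        exact h3 l' hl'
    · rw [Finset.not_nonempty_iff_eq_empty] at hne
      subst hne
      exact ⟨fun _ => ∅, fun l hl => absurd hl (Finset.notMem_empty l)⟩

end Indep

section Coset

variable {F : Type} [Field F] [IsAlgClosed F] {κ : Type} [Fintype κ]

/-- Parametrisation of torsion cosets. -/
theorem exists_param {X : Set (κ → Fˣ)} (hX : Irr X) (h : Fintype.card κ ≤ cd X) :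
    ∃ (d : ℕ) (e : κ → Fin d → ℤ) (c : κ → Fˣ) (W : Set (Fin d → Fˣ)), (∀ l, Tor (c l)) ∧
      (∀ p : MvPolynomial (Fin d) F, (∀ w ∈ W, aeval (co w) p = 0) → p = 0) ∧
      (∀ w ∈ W, ∃ x ∈ X, ∀ l, x l = c l * ch (e l) w) ∧
      (∀ x ∈ X, ∃ w ∈ W, ∀ l, x l = c l * ch (e l) w) := by
  classical
  let Q := (κ → ℤ) ⧸ Lam X
  have htf : Module.IsTorsionFree ℤ Q := by
    rw [Module.isTorsionFree_iff_smul_eq_zero]
    intro n q hq
    obtain ⟨m, rfl⟩ := Submodule.Quotient.mk_surjective _ q
    rw [← Submodule.Quotient.mk_smul, Submodule.Quotient.mk_eq_zero] at hq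
    by_cases hn : n = 0
    · exact Or.inl hn
    · right
      rw [Submodule.Quotient.mk_eq_zero]
      exact Lam_sat hn hq
  let b := Module.finBasis ℤ Q
  let d := Module.finrank ℤ Q
  choose m hm using fun k => Submodule.Quotient.mk_surjective (Lam X) (b k)
  let e : κ → Fin d → ℤ := fun l => b.repr (Submodule.Quotient.mk (Pi.single l 1))
  have hmem : ∀ l, (Pi.single l 1 - ∑ k, e l k • m k : κ → ℤ) ∈ Lam X := by
    intro l
    rw [← Submodule.Quotient.mk_eq_zero]
    have h1 : (Submodule.Quotient.mk (Pi.single l 1 - ∑ k, e l k • m k : κ → ℤ) : Q) =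
        Submodule.Quotient.mk (Pi.single l 1) - ∑ k, e l k • b k := by
      rw [Submodule.Quotient.mk_sub]
      congr 1
      rw [← Submodule.mkQ_apply, map_sum]
      apply Finset.sum_congr rfl
      intro k _
      rw [map_zsmul, Submodule.mkQ_apply, hm]
    rw [h1, b.sum_repr, sub_self]
  choose c hc hc' using fun l => Lam_const hX.pirr (hmem l)
  let u : (κ → Fˣ) → (Fin d → Fˣ) := mono m 1
  have hu : ∀ x k, u x k = ch (m k) x := by
    intro x k
    simp [u, mono]
  have hxu : ∀ x ∈ X, ∀ l, x l = c l * ch (e l) (u x) := by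
    intro x hx l
    have h1 := hc' l x hx
    rw [sub_eq_add_neg, ch_add, ch_neg, ch_single, zpow_one, mul_inv_eq_iff_eq_mul] at h1
    rw [h1, ch_finset_sum]
    congr 1
    unfold ch
    apply Finset.prod_congr rfl
    intro k _
    rw [hu]
    exact ch_zsmul _ _ _
  refine ⟨d, e, c, u '' X, hc, ?_, ?_, ?_⟩
  · have h1 := cd_image_mono hX.pirr m (1 : Fin d → Fˣ) (fun _ => Tor.one)
    have h2 : d ≤ cd (u '' X) := by
      have h3 : Fintype.card (Fin d) = d := Fintype.card_fin d
      change cd X + Fintype.card (Fin d) ≤ cd (u '' X) + Fintype.card κ at h1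
      omega
    have h3 : Lam (u '' X) = ⊥ := by
      rw [eq_bot_iff]
      rintro n ⟨N, hN, hn⟩
      have h4 : (∑ k, n k • m k) ∈ Lam X := by
        refine ⟨N, hN, fun x hx => ?_⟩
        have h5 := hn (u x) ⟨x, hx, rfl⟩
        rw [ch_finset_sum]
        rw [← h5]
        congr 1
        unfold ch
        apply Finset.prod_congr rfl
        intro k _
        rw [hu]
        exact ch_zsmul _ _ _
      rw [← Submodule.Quotient.mk_eq_zero] at h4
      have h5 : (Submodule.Quotient.mk (∑ k, n k • m k) : Q) = ∑ k, n k • b k := by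
        rw [← Submodule.mkQ_apply, map_sum]
        apply Finset.sum_congr rfl
        intro k _
        rw [map_zsmul, Submodule.mkQ_apply, hm]
      rw [h5] at h4
      have h6 := Fintype.linearIndependent_iff.mp b.linearIndependent n h4
      rw [Submodule.mem_bot]
      funext k
      exact h6 k
    have h4 : rk (u '' X) = 0 := by
      unfold rk
      rw [h3]
      exact finrank_bot ℤ _
    have h5 : PIrr (u '' X) := hX.pirr.image (ratMap_mono X m 1)
    have h6 : d ≤ td F (u '' X) := by
      unfold cd at h2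
      omega
    have h7 : cl F (u '' X) = Set.univ := by
      apply eq_of_td_le h5.cl irr_univ (Set.subset_univ _)
      rw [td_cl, td_univ, Fintype.card_fin]
      exact h6
    intro p hp
    have h8 : p ∈ vI F (u '' X) := mem_vI.mpr hp
    rw [← vI_cl, h7, vI_univ] at h8
    exact Ideal.mem_bot.mp h8
  · rintro _ ⟨x, hx, rfl⟩
    exact ⟨x, hx, hxu x hx⟩
  · intro x hx
    exact ⟨u x, ⟨x, hx, rfl⟩, hxu x hx⟩

/-- the locus of a vanishing sum -/
def SV (F : Type) [Field F] (κ : Type) [Fintype κ] : Set (κ → Fˣ) := {z | ∑ l, (z l : F) = 0}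

/-- the torsion coset given by the ratios `ρ` inside the blocks `β` -/
def TC (β : κ → Finset κ) (ρ : κ → κ → Fˣ) : Set (κ → Fˣ) :=
  {z | ∀ l, ∀ l' ∈ β l, z l' = ρ l l' * z l}

omit [IsAlgClosed F] in
open Classical in
theorem TC_eq (β : κ → Finset κ) (ρ : κ → κ → Fˣ) : TC β ρ = Set.univ ∩
    {z : κ → Fˣ | ∀ q ∈ Finset.univ.filter (fun q : κ × κ => q.2 ∈ β q.1),
      ch (Pi.single q.2 1 - Pi.single q.1 1 : κ → ℤ) z = ρ q.1 q.2} := by
  ext z
  simp only [TC, Set.mem_ofPred_eq, Set.univ_inter, Finset.mem_filter, Finset.mem_univ, true_and,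
    Prod.forall]
  apply forall_congr'
  intro l
  apply forall_congr'
  intro l'
  apply imp_congr_right
  intro _
  rw [sub_eq_add_neg, ch_add, ch_neg, ch_single, ch_single, zpow_one, zpow_one,
    mul_inv_eq_iff_eq_mul]

omit [IsAlgClosed F] in
theorem zclosed_TC (β : κ → Finset κ) (ρ : κ → κ → Fˣ) : ZClosed (TC β ρ) := by
  classical
  have h1 : TC β ρ = ⋂ l : κ, ⋂ l' : κ, ⋂ _ : l' ∈ β l,
      {z : κ → Fˣ | ch (Pi.single l' 1 - Pi.single l 1 : κ → ℤ) z = ρ l l'} := by
    ext z
    simp only [TC, Set.mem_ofPred_eq, Set.mem_iInter]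
    apply forall_congr'
    intro l
    apply forall_congr'
    intro l'
    apply imp_congr_right
    intro _
    rw [sub_eq_add_neg, ch_add, ch_neg, ch_single, ch_single, zpow_one, zpow_one,
      mul_inv_eq_iff_eq_mul]
  rw [h1]
  exact ZClosed.iInter fun l => ZClosed.iInter fun l' => ZClosed.iInter fun _ => zclosed_ch _ _

theorem card_le_of_comp_TC (β : κ → Finset κ) (ρ : κ → κ → Fˣ)
    (hρ : ∀ l l', ∃ N : ℕ, 0 < N ∧ ρ l l' ^ N = 1) {Y : Set (κ → Fˣ)} (hY : Comp (TC β ρ) Y) :
    Fintype.card κ ≤ cd Y := by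
  classical
  rw [TC_eq] at hY
  have h1 := cut (F := F) _ (fun q : κ × κ => (Pi.single q.2 1 - Pi.single q.1 1 : κ → ℤ))
    (fun q => ρ q.1 q.2) (fun q _ => hρ q.1 q.2) irr_univ hY
  rwa [cd_univ] at h1

theorem finite_maxE_one_SV [CharZero F] : (MaxE 1 (SV F κ)).Finite := by
  classical
  obtain ⟨M, hM, hmann⟩ := mann_bound F (Fintype.card κ)
  have : NeZero M := ⟨hM.ne'⟩
  let D := (κ → Finset κ) × (κ → κ → rootsOfUnity M F)
  have hfin : (⋃ D : (κ → Finset κ) × (κ → κ → rootsOfUnity M F),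
      {Y | Comp (TC D.1 fun l l' => (D.2 l l' : Fˣ)) Y}).Finite := by
    apply Set.finite_iUnion
    intro D
    exact finite_comp (zclosed_TC _ _)
  apply hfin.subset
  intro X hX
  have hXi := MaxE.irr hX
  have hcd := MaxE.lt hX
  obtain ⟨d, e, c, W, hc, hW, hWX, hXW⟩ := exists_param hXi (by omega)
  have hclass : ∀ v, ∑ l ∈ Finset.univ.filter (fun l => e l = v), (c l : F) = 0 := by
    intro v
    apply ch_indep e (fun l => (c l : F)) W hW
    intro w hw
    obtain ⟨x, hx, hxl⟩ := hWX w hw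
    have h1 : ∑ l, (x l : F) = 0 := MaxE.subset hX hx
    rw [← h1]
    apply Finset.sum_congr rfl
    intro l _
    rw [hxl l]
    push_cast
    rfl
  choose β0 hβ0 using fun v => exists_blocks (fun l => (c l : F)) _ (hclass v)
  let β : κ → Finset κ := fun l => β0 (e l) l
  have hβ : ∀ l, l ∈ β l ∧ (∀ l' ∈ β l, e l' = e l) ∧ (∀ l' ∈ β l, β l' = β l) ∧
      ∑ l' ∈ β l, (c l' : F) = 0 ∧
      ∀ t ⊆ β l, t.Nonempty → t ≠ β l → ∑ l' ∈ t, (c l' : F) ≠ 0 := by
    intro l
    obtain ⟨h1, h2, h3, h4, h5⟩ := hβ0 (e l) l (by simp)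
    have h6 : ∀ l' ∈ β l, e l' = e l := by
      intro l' hl'
      exact (Finset.mem_filter.mp (h2 hl')).2
    refine ⟨h1, h6, ?_, h4, h5⟩
    intro l' hl'
    show β0 (e l') l' = β0 (e l) l
    rw [h6 l' hl']
    exact h3 l' hl'
  have hratio : ∀ l, ∀ l' ∈ β l, (c l' * (c l)⁻¹) ^ M = 1 := by
    intro l l' hl'
    obtain ⟨h1, h2, h3, h4, h5⟩ := hβ l
    have h6 := hmann {x // x ∈ β l} (fun x => c x.1) (by
        rw [Fintype.card_coe]
        exact Finset.card_le_univ _)
      (fun x => hc _) (by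
        rw [Finset.sum_coe_sort (β l) (fun x => (c x : F))]
        exact h4) (by
        intro s hs1 hs2
        have h7 := h5 (s.map (Function.Embedding.subtype _)) (by
          intro x hx
          rw [Finset.mem_map] at hx
          obtain ⟨y, _, rfl⟩ := hx
          exact y.2) (by simpa using hs1) (by
          intro h8
          apply hs2
          ext y
          simp only [Finset.mem_univ, iff_true]
          have h9 : y.1 ∈ s.map (Function.Embedding.subtype _) := by
            rw [h8]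
            exact y.2
          rw [Finset.mem_map] at h9
          obtain ⟨y', hy', h10⟩ := h9
          have : y' = y := Subtype.ext h10
          rwa [← this])
        rw [Finset.sum_map] at h7
        exact h7) ⟨l', hl'⟩ ⟨l, h1⟩
    exact h6
  let ρ : κ → κ → rootsOfUnity M F := fun l l' =>
    if h : l' ∈ β l then ⟨c l' * (c l)⁻¹, (mem_rootsOfUnity M _).mpr (hratio l l' h)⟩ else 1
  have hρ : ∀ l, ∀ l' ∈ β l, (ρ l l' : Fˣ) = c l' * (c l)⁻¹ := by
    intro l l' h
    simp only [ρ, dif_pos h]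
  have hXT : X ⊆ TC β fun l l' => (ρ l l' : Fˣ) := by
    intro x hx l l' hl'
    obtain ⟨w, hw, hxw⟩ := hXW x hx
    show x l' = (ρ l l' : Fˣ) * x l
    rw [hρ l l' hl', hxw l, hxw l', (hβ l).2.1 l' hl', ← mul_assoc, inv_mul_cancel_right]
  have hTV : (TC β fun l l' => (ρ l l' : Fˣ)) ⊆ SV F κ := by
    intro z hz
    show ∑ l, (z l : F) = 0
    rw [← Finset.sum_fiberwise_of_maps_to (g := β) (t := Finset.univ.image β)
      (fun l _ => Finset.mem_image_of_mem β (Finset.mem_univ l))]
    apply Finset.sum_eq_zero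
    intro B hB
    obtain ⟨l, _, rfl⟩ := Finset.mem_image.mp hB
    have h1 : (Finset.univ.filter fun l' => β l' = β l) = β l := by
      ext l'
      simp only [Finset.mem_filter, Finset.mem_univ, true_and]
      constructor
      · intro h
        rw [← h]
        exact (hβ l').1
      · intro h
        exact (hβ l).2.2.1 l' h
    rw [h1]
    have h2 : ∀ l' ∈ β l, (z l' : F) = (c l' : F) * ((c l)⁻¹ * z l : Fˣ) := by
      intro l' hl'
      have h3 : z l' = (ρ l l' : Fˣ) * z l := hz l l' hl'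
      rw [h3, hρ l l' hl']
      push_cast
      ring
    rw [Finset.sum_congr rfl h2, ← Finset.sum_mul, (hβ l).2.2.2.1, zero_mul]
  obtain ⟨Y, hY, hXY⟩ := exists_comp (zclosed_TC β fun l l' => (ρ l l' : Fˣ)) hXi hXT
  have hcY := card_le_of_comp_TC β (fun l l' => (ρ l l' : Fˣ)) (fun l l' =>
    ⟨M, hM, (mem_rootsOfUnity M _).mp (ρ l l').2⟩) hY
  have h4 : X = Y := MaxE.eq hX hY.irr (hY.subset.trans hTV) (by omega) hXY
  rw [Set.mem_iUnion]
  exact ⟨(β, ρ), h4 ▸ hY⟩

/-- The Manin-Mumford property of the hyperplane of vanishing sums. -/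
theorem finite_maxE_one_PS [CharZero F] (N : ℕ) : (MaxE 1 (PS F 1 N)).Finite := by
  have h1 : PS F 1 N = SV F (Fin 1 × Fin N) := by
    ext z
    simp only [mem_PS, SV, Set.mem_ofPred_eq]
    rw [Fintype.sum_prod_type]
    constructor
    · intro h
      simpa using h 0
    · intro h i
      rw [Subsingleton.elim i 0]
      simpa using h
  rw [h1]
  exact finite_maxE_one_SV

end Coset

end Pool.Agent.MP_dd1803_nt
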