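import Mathlib
import Pool.Agent.MP_dd1803_nt.Interface
import Pool.Agent.MP_dd1803_nt.StepA

open MvPolynomial

namespace Pool.Agent.MP_dd1803_nt

section PSDim

variable {F : Type} [Field F] [IsAlgClosed F]

theorem PS_nonempty (e N : ℕ) (hN : 2 ≤ N) : (PS F e N).Nonempty := by
  classical
  obtain ⟨M, rfl⟩ : ∃ M, N = M + 1 := ⟨N - 1, by omega⟩
  -- choose units `z l` for `l < M` with nonzero sum, and the last one minus the sum
  obtain ⟨z, hz⟩ : ∃ z : Fin M → Fˣ, ∑ l, (z l : F) ≠ 0 := by
    obtain ⟨K, rfl⟩ : ∃ K, M = K + 1 := ⟨M - 1, by omega⟩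
    obtain ⟨c, hc⟩ := Infinite.exists_notMem_finset ({0, -(K : F)} : Finset F)
    simp only [Finset.mem_insert, Finset.mem_singleton, not_or] at hc
    refine ⟨Fin.cons (Units.mk0 c hc.1) fun _ => 1, ?_⟩
    rw [Fin.sum_univ_succ]
    simp only [Fin.cons_zero, Fin.cons_succ, Units.val_mk0, Units.val_one, Finset.sum_const,
      Finset.card_univ, Fintype.card_fin, nsmul_eq_mul, mul_one]
    intro h
    exact hc.2 (eq_neg_of_add_eq_zero_left h)
  refine ⟨fun p => Fin.lastCases (motive := fun _ => Fˣ) (Units.mk0 (-∑ l, (z l : F))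
    (neg_ne_zero.mpr hz)) z p.2, ?_⟩
  intro i
  rw [Fin.sum_univ_castSucc]
  simp

omit [IsAlgClosed F] in
theorem td_PS_le {e N : ℕ} (hN : 1 ≤ N) {Z : Set (Fin e × Fin N → Fˣ)} (hZ : Irr Z)
    (h : Z ⊆ PS F e N) : td F Z ≤ e * N - e := by
  classical
  obtain ⟨M, rfl⟩ : ∃ M, N = M + 1 := ⟨N - 1, by omega⟩
  have hP := vI_isPrime (k := F) hZ.pirr
  have hne : Nontrivial (MvPolynomial (Fin e × Fin (M + 1)) F ⧸ vI F Z) := inferInstance
  let ε : Fin e × Fin M → Fin e × Fin (M + 1) := fun p => (p.1, p.2.castSucc)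
  have hε : Function.Injective ε := by
    rintro ⟨a, b⟩ ⟨c, d⟩ hab
    simp only [ε, Prod.mk.injEq] at hab
    exact Prod.ext hab.1 (Fin.castSucc_injective _ hab.2)
  have h1 := td_le_pull (k := F) hZ.pirr (e := ε) hε (Set.range ε) (by
    rintro ⟨i, l⟩
    refine Fin.lastCases ?_ (fun l => ?_) l
    · have h2 : gen F Z (i, Fin.last M) = -∑ l : Fin M, gen F Z (i, l.castSucc) := by
        have h3 : (∑ l : Fin (M + 1), X (i, l) : MvPolynomial (Fin e × Fin (M + 1)) F) ∈ vI F Z := by
          rw [mem_vI]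
          intro y hy
          rw [map_sum]
          simp only [aeval_X]
          exact h hy i
        have h4 := Ideal.Quotient.eq_zero_iff_mem.mpr h3
        rw [map_sum, Fin.sum_univ_castSucc] at h4
        exact eq_neg_of_add_eq_zero_right h4
      have h3 : gen F Z (i, Fin.last M) ∈ Algebra.adjoin F (gen F Z '' Set.range ε) := by
        rw [h2]
        apply Subalgebra.neg_mem
        apply Subalgebra.sum_mem
        intro l _
        exact Algebra.subset_adjoin ⟨_, ⟨(i, l), rfl⟩, rfl⟩
      exact isAlgebraic_algebraMap (⟨_, h3⟩ : Algebra.adjoin F (gen F Z '' Set.range ε))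
    · exact isAlgebraic_algebraMap (⟨gen F Z (i, l.castSucc),
        Algebra.subset_adjoin ⟨_, ⟨(i, l), rfl⟩, rfl⟩⟩ :
        Algebra.adjoin F (gen F Z '' Set.range ε)))
  rw [Set.sdiff_self, Set.ncard_empty, add_zero] at h1
  have h2 := td_le_card (k := F) (hZ.pirr.pull ε)
  rw [Nat.card_eq_fintype_card] at h2
  simp only [Fintype.card_prod, Fintype.card_fin] at h2
  have h3 : e * (M + 1) - e = e * M := by
    rw [Nat.mul_succ]
    omega
  rw [h3]
  exact h1.trans h2

theorem dm_PS (e N : ℕ) (hN : 2 ≤ N) : dm (PS F e N) = ((e * N - e : ℕ) : WithBot ℕ∞) := by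
  obtain ⟨d, hd, _, h1, Z, hZ, hZV, h2⟩ := exists_dm (PS_nonempty (F := F) e N hN)
  rw [hd]
  have h3 : d ≤ e * N - e := by
    rw [← h2]
    exact td_PS_le (by omega) hZ hZV
  have h4 : e * N - e ≤ d := by
    obtain ⟨x, hx⟩ := PS_nonempty (F := F) e N hN
    have h5 : PS F e N = Set.univ ∩ {x | ∀ i ∈ (Finset.univ : Finset (Fin e)),
        aeval (co x) (∑ l : Fin N, X (i, l) : MvPolynomial (Fin e × Fin N) F) = 0} := by
      ext y
      rw [mem_PS]
      simp only [Set.mem_inter_iff, Set.mem_univ, true_and, Finset.mem_univ, true_implies,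
        Set.mem_ofPred_eq, map_sum, aeval_X]
      rfl
    obtain ⟨Y, hY, _⟩ := exists_comp_mem (zclosed_PS e N) hx
    have hY' := hY
    rw [h5] at hY'
    have h6 := krull_list Finset.univ _ irr_univ hY'
    rw [td_univ] at h6
    have h7 := h1 Y hY.irr hY.subset
    simp only [Fintype.card_prod, Fintype.card_fin, Finset.card_univ] at h6
    omega
  have h5 : d = e * N - e := le_antisymm h3 h4
  rw [h5]

theorem finite_PS_of_zp {e N : ℕ} (hN : 2 ≤ N) (h : ZP (PS F e N)) :
    (MaxE e (PS F e N)).Finite := by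
  have h1 := finite_of_zp (zclosed_PS e N) (dm_PS e N hN) (by
    simp only [Fintype.card_prod, Fintype.card_fin]
    omega) h
  have h2 : Fintype.card (Fin e × Fin N) - (e * N - e) = e := by
    simp only [Fintype.card_prod, Fintype.card_fin]
    have : e ≤ e * N := Nat.le_mul_of_pos_right e (by omega)
    omega
  rwa [h2] at h1

omit [IsAlgClosed F] in
theorem finite_maxE_PS_of_le_one {e N : ℕ} (hN : N ≤ 1) : (MaxE e (PS F e N)).Finite := by
  by_cases h0 : e = 0 ∨ N = 0
  · -- the torus is a point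
    have hemp : IsEmpty (Fin e × Fin N) := by
      rcases h0 with rfl | rfl
      · infer_instance
      · infer_instance
    have : Finite (Fin e × Fin N → Fˣ) := inferInstance
    exact Set.toFinite _
  · push Not at h0
    have h1 : N = 1 := by omega
    subst h1
    have h2 : PS F e 1 = ∅ := by
      ext z
      simp only [Set.mem_empty_iff_false, iff_false]
      intro hz
      have h3 := hz ⟨0, Nat.pos_of_ne_zero h0.1⟩
      rw [Fin.sum_univ_one] at h3
      exact Units.ne_zero _ h3
    have h3 : MaxE e (PS F e 1) = ∅ := by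
      ext X
      simp only [Set.mem_empty_iff_false, iff_false]
      intro hX
      obtain ⟨x, hx⟩ := (MaxE.irr hX).nonempty
      have := MaxE.subset hX hx
      rw [h2] at this
      exact this
    rw [h3]
    exact Set.finite_empty

end PSDim

end Pool.Agent.MP_dd1803_nt
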