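import Mathlib
import Pool.Agent.MP_dd1803_nt.QtoK
import Pool.Agent.MP_dd1803_nt.MMHyper

open MvPolynomial

namespace Pool.Agent.MP_dd1803_nt

section MM

variable {F : Type} [Field F] [IsAlgClosed F] {κ : Type} [Fintype κ]

theorem maxE_zero (V : Set (κ → Fˣ)) : MaxE 0 V = ∅ := by
  ext X
  simp only [Set.mem_empty_iff_false, iff_false]
  intro hX
  have h1 := MaxE.lt hX
  have h2 := cd_le_card (MaxE.irr hX).pirr
  omega

variable [CharZero F]

/-- Manin-Mumford for sets defined over the algebraic numbers. -/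
theorem mm_alg (W : Set (κ → Fˣ)) (hW : cl (acl (∅ : Set F)) W = W) (c' : ℕ) (hc : c' ≤ 1) :
    (MaxE c' W).Finite := by
  rcases Nat.le_one_iff_eq_zero_or_eq_one.mp hc with rfl | rfl
  · rw [maxE_zero]
    exact Set.finite_empty
  · exact finite_maxE_alg 1 (fun n f => finite_maxE_zlZ 1 (fun N => finite_maxE_one_PS N) f) hW

/-- Only finitely many elements of level `e` have a closure over the algebraic numbers of
defect zero. -/
theorem maxB_one_finite {V : Set (κ → Fˣ)} (hV : ZClosed V) (e : ℕ) :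
    (MaxB (acl (∅ : Set F)) 1 e V).Finite :=
  maxB_all 1 mm_alg hV e

/-- Sets dense over the rationals in a special subvariety. -/
theorem cd_cl_of_dense {X T : Set (κ → Fˣ)} (hX : Irr X) (hT : Special T) (hXT : X ⊆ T)
    (h : ∀ p : MvPolynomial κ ℚ, (∀ x ∈ X, aeval (co x) p = 0) → ∀ x ∈ T, aeval (co x) p = 0) :
    Fintype.card κ < cd (cl (acl (∅ : Set F)) X) + 1 := by
  have hac := isAlgClosed_acl (∅ : Set F)
  rw [cd_cl_eq hX.pirr]
  have h1 : td F T ≤ td (acl (∅ : Set F)) X := by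
    apply td_le_of_int hX.pirr hT.irr.pirr
    intro q hq y hy
    have h2 := h (MvPolynomial.map (algebraMap ℤ ℚ) q) (by
      intro x hx
      rw [aeval_map_algebraMap]
      exact hq x hx) y hy
    rwa [aeval_map_algebraMap] at h2
  have h2 : rk T ≤ rk X := rk_anti hXT
  have h3 := hT.cd
  unfold cd at h3
  omega

theorem theoremU {V : Set (κ → Fˣ)} (hV : ZClosed V) :
    {X | Maximal (Atypical V) X ∧ ∃ T, Special T ∧ X ⊆ T ∧
      ∀ p : MvPolynomial κ ℚ, (∀ x ∈ X, aeval (co x) p = 0) → ∀ x ∈ T, aeval (co x) p = 0}.Finite := by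
  by_cases hne : V.Nonempty
  · obtain ⟨d, hd, hdle, _, _⟩ := exists_dm hne
    apply (maxB_one_finite hV (Fintype.card κ - d)).subset
    rintro X ⟨hX, T, hT, hXT, hdense⟩
    rw [maximal_atypical_iff hV hd hdle X] at hX
    rw [mem_maxB]
    refine ⟨⟨MaxE.irr hX, MaxE.subset hX, MaxE.lt hX,
      cd_cl_of_dense (MaxE.irr hX) hT hXT hdense⟩, ?_⟩
    rintro Y ⟨hY, hYV, hlt, _⟩ hXY
    exact (MaxE.eq hX hY hYV hlt hXY).ge
  · convert Set.finite_empty
    ext X
    simp only [Set.mem_ofPred_eq, Set.mem_empty_iff_false, iff_false]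
    rintro ⟨hX, _⟩
    obtain ⟨T, _, hX', _⟩ := hX.prop
    obtain ⟨x, hx⟩ := hX'.irr.nonempty
    exact hne ⟨x, (hX'.subset hx).1⟩

end MM

end Pool.Agent.MP_dd1803_nt
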