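import Mathlib
import Pool.Agent.MP_dd1803_nt.TheoremU
import Pool.Agent.MP_dd1803_nt.Fibre

open MvPolynomial

namespace Pool.Agent.MP_dd1803_nt

section Generic

variable {F : Type} [Field F] [IsAlgClosed F] [CharZero F] {κ : Type} [Fintype κ]

omit [IsAlgClosed F] in
theorem td_singleton_zero (x : κ → Fˣ) : td F ({x} : Set (κ → Fˣ)) = 0 := by
  obtain ⟨s, hs, hcard⟩ := exists_basis' (k := F) (pirr_singleton x)
  rw [← hcard, Set.ncard_eq_zero (Set.toFinite s)]
  by_contra hne
  obtain ⟨i, hi⟩ := Set.nonempty_iff_ne_empty.mpr hne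
  have h1 := hs (MvPolynomial.X ⟨i, hi⟩ - C (x i : F)) (by
    intro y hy
    rw [Set.mem_singleton_iff.mp hy, map_sub, aeval_X, aeval_C, sub_eq_zero, co_apply]
    rfl)
  have h2 := congrArg (aeval (fun _ : s => (x i : F) + 1)) h1
  rw [map_sub, aeval_X, aeval_C, map_zero] at h2
  simp at h2

/-- All points of `X` have at least `r` algebraically independent coordinates: then the dimension
of the closure over the algebraic numbers is at least `dim X + r`. -/
theorem td_acl_ge (r : ℕ) (n : ℕ) : ∀ {X : Set (κ → Fˣ)}, Irr X → td F X = n →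
    (∀ x ∈ X, ∃ s : Finset κ, s.card = r ∧ AlgebraicIndependent ℚ (fun i : s => (x i : F))) →
    n + r ≤ td (acl (∅ : Set F)) X := by
  have hac := isAlgClosed_acl (∅ : Set F)
  induction n with
  | zero =>
    intro X hX hn hr
    obtain ⟨x, hx⟩ := hX.nonempty
    obtain ⟨s, hs, hind⟩ := hr x hx
    have h1 : ({x} : Set (κ → Fˣ)) ⊆ X := Set.singleton_subset_iff.mpr hx
    have h2 := td_mono (k := acl (∅ : Set F)) (pirr_singleton x) hX.pirr h1
    have : Algebra.IsAlgebraic ℚ (acl (∅ : Set F)) := by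
      constructor
      intro y
      have h3 := mem_acl.mp y.2
      have h4 : IsAlgebraic (⊥ : IntermediateField ℚ F) (y : F) := by
        rwa [IntermediateField.adjoin_empty] at h3
      have h5 : IsAlgebraic ℚ (y : F) := by
        have : Algebra.IsAlgebraic ℚ (⊥ : IntermediateField ℚ F) :=
          Algebra.IsAlgebraic.of_finite ℚ _
        exact h4.restrictScalars ℚ
      exact (isAlgebraic_algebraMap_iff (algebraMap (acl (∅ : Set F)) F).injective).mp h5
    have h3 : AlgebraicIndependent (acl (∅ : Set F)) (fun i : s => (x i : F)) :=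
      hind.extendScalars _
    have h4 : IndF (acl (∅ : Set F)) ({x} : Set (κ → Fˣ)) (fun i : s => (i : κ)) := by
      intro p hp
      have h5 := hp x rfl
      exact (algebraicIndependent_iff.mp h3) p h5
    have h5 := h4.card_le (pirr_singleton x)
    rw [Nat.card_eq_fintype_card, Fintype.card_coe, hs] at h5
    omega
  | succ n ih =>
    intro X hX hn hr
    obtain ⟨x0, hx0⟩ := hX.nonempty
    -- a nonconstant coordinate
    have hne : ∃ i, ∀ c : Fˣ, ¬ ∀ x ∈ X, x i = c := by
      by_contra hcon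
      push Not at hcon
      have h1 : X = {x0} := by
        ext x
        constructor
        · intro hx
          apply Set.mem_singleton_iff.mpr
          funext i
          obtain ⟨c, hc⟩ := hcon i
          rw [hc x hx, hc x0 hx0]
        · intro hx
          rw [Set.mem_singleton_iff.mp hx]
          exact hx0
      rw [h1, td_singleton_zero] at hn
      omega
    obtain ⟨i, hi⟩ := hne
    have h1 : ∃ q : ℕ, ∃ x ∈ X, (x i : F) = (q : F) := by
      by_contra hcon
      push Not at hcon
      obtain ⟨c, hc⟩ := exists_fibre hX i (Set.range (Nat.cast : ℕ → F))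
        (Set.infinite_range_of_injective Nat.cast_injective) (by
        rintro _ ⟨q, rfl⟩ x hx
        exact hcon q x hx)
      exact hi c hc
    obtain ⟨q, x1, hx1, hq⟩ := h1
    obtain ⟨Y, hY, hx1Y⟩ := exists_comp_mem
      (hX.closed.inter (zclosed_zp (MvPolynomial.X i - C (q : F)))) (x := x1) (by
        refine ⟨hx1, ?_⟩
        rw [mem_zp, map_sub, aeval_X, aeval_C, sub_eq_zero, co_apply, hq]
        rfl)
    have h2 := krull hX _ hY
    have h3 : Y ⊆ X := hY.subset.trans Set.inter_subset_left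
    have h4 : ∀ y ∈ Y, (y i : F) = q := by
      intro y hy
      have h5 := (hY.subset hy).2
      rw [mem_zp, map_sub, aeval_X, aeval_C, sub_eq_zero] at h5
      exact h5
    have h5 : ¬ X ⊆ Y := by
      intro h6
      apply hi (x1 i)
      intro x hx
      exact Units.ext ((h4 x (h6 hx)).trans hq.symm)
    have h6 : td F Y < td F X := td_lt hY.irr hX ⟨h3, h5⟩
    have h7 := ih hY.irr (by omega) (fun y hy => hr y (h3 hy))
    have h8 : cl (acl (∅ : Set F)) Y ⊂ cl (acl (∅ : Set F)) X := by
      refine ⟨cl_mono h3, ?_⟩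
      intro h9
      apply hi (x1 i)
      intro x hx
      have h10 := h9 (subset_cl X hx)
      have h11 := h10 (MvPolynomial.X i - C (q : acl (∅ : Set F))) (by
        rw [SetLike.mem_coe, mem_vI]
        intro y hy
        rw [map_sub, aeval_X, aeval_C, sub_eq_zero, co_apply, h4 y hy]
        simp)
      rw [map_sub, aeval_X, aeval_C, sub_eq_zero, co_apply] at h11
      apply Units.ext
      rw [h11, hq]
      simp
    have h9 := td_lt (irr_cl (k := acl (∅ : Set F)) hY.irr.pirr)
      (irr_cl (k := acl (∅ : Set F)) hX.pirr) h8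
    rw [td_cl_eq hY.irr.pirr, td_cl_eq hX.pirr] at h9
    omega

/-- Transfer from the algebraic numbers to sets all of whose points have at least `r`
algebraically independent coordinates. -/
theorem finite_maxE_generic (c r : ℕ)
    (hbase : ∀ W : Set (κ → Fˣ), cl (acl (∅ : Set F)) W = W → ∀ c' ≤ c, (MaxE c' W).Finite)
    {V : Set (κ → Fˣ)} (hV : ZClosed V)
    (hr : ∀ x ∈ V, ∃ s : Finset κ, s.card = r ∧ AlgebraicIndependent ℚ (fun i : s => (x i : F)))
    {e : ℕ} (he : e ≤ c + r) : (MaxE e V).Finite := by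
  have hac := isAlgClosed_acl (∅ : Set F)
  apply (maxB_all c hbase hV e).subset
  intro X hX
  have h1 := MaxE.irr hX
  have h2 := td_acl_ge r (td F X) h1 rfl (fun x hx => hr x (MaxE.subset hX hx))
  have h3 := MaxE.lt hX
  rw [mem_maxB]
  refine ⟨⟨h1, MaxE.subset hX, h3, ?_⟩, ?_⟩
  · rw [cd_cl_eq h1.pirr]
    unfold cd at h3
    omega
  · rintro Y ⟨hY, hYV, hlt, _⟩ hXY
    exact (MaxE.eq hX hY hYV hlt hXY).ge

theorem zp_generic (c r : ℕ)
    (hbase : ∀ W : Set (κ → Fˣ), cl (acl (∅ : Set F)) W = W → ∀ c' ≤ c, (MaxE c' W).Finite)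
    {V : Set (κ → Fˣ)} (hV : ZClosed V)
    (hr : ∀ x ∈ V, ∃ s : Finset κ, s.card = r ∧ AlgebraicIndependent ℚ (fun i : s => (x i : F)))
    (hdim : dm (Set.univ : Set (κ → Fˣ)) ≤ dm V + ((r + c : ℕ) : WithBot ℕ∞)) : ZP V := by
  by_cases hne : V.Nonempty
  · obtain ⟨d, hd, hdle, _, _⟩ := exists_dm hne
    rw [dm_univ, hd] at hdim
    have h1 : Fintype.card κ ≤ d + (r + c) := by exact_mod_cast hdim
    have h2 := finite_maxE_generic c r hbase hV hr (e := Fintype.card κ - d) (by omega)
    unfold ZP
    convert h2 using 1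
    ext X
    exact maximal_atypical_iff hV hd hdle X
  · unfold ZP
    convert Set.finite_empty
    ext X
    simp only [Set.mem_ofPred_eq, Set.mem_empty_iff_false, iff_false]
    intro hX
    obtain ⟨T, _, hX', _⟩ := hX.prop
    obtain ⟨x, hx⟩ := hX'.irr.nonempty
    exact hne ⟨x, (hX'.subset hx).1⟩

/-- The unconditional case of level one. -/
theorem zp_generic_one (r : ℕ) {V : Set (κ → Fˣ)} (hV : ZClosed V)
    (hr : ∀ x ∈ V, ∃ s : Finset κ, s.card = r ∧ AlgebraicIndependent ℚ (fun i : s => (x i : F)))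
    (hdim : dm (Set.univ : Set (κ → Fˣ)) ≤ dm V + ((r + 1 : ℕ) : WithBot ℕ∞)) : ZP V :=
  zp_generic 1 r mm_alg hV hr hdim

end Generic

end Pool.Agent.MP_dd1803_nt
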