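import Mathlib
import Pool.Agent.MP_dd1803_nt.R4
import Pool.Agent.MP_dd1803_nt.PSDim

open MvPolynomial

namespace Pool.Agent.MP_dd1803_nt

section Level

variable {F : Type} [Field F] [IsAlgClosed F] [CharZero F]

theorem finite_PS_of_zp' {e N : ℕ} (h : ZP (PS F e N)) : (MaxE e (PS F e N)).Finite := by
  rcases Nat.lt_or_ge N 2 with hN | hN
  · exact finite_maxE_PS_of_le_one (by omega)
  · exact finite_PS_of_zp hN h

theorem zp_empty {κ : Type} : ZP (∅ : Set (κ → Fˣ)) := by
  unfold ZP
  convert Set.finite_empty
  ext X
  simp only [Set.mem_ofPred_eq, Set.mem_empty_iff_false, iff_false]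
  intro hX
  obtain ⟨T, _, hX', _⟩ := hX.prop
  obtain ⟨x, hx⟩ := hX'.irr.nonempty
  exact (hX'.subset hx).1

/-- The conjecture in codimension at most `c`, and its generalisation to sets whose points have
many algebraically independent coordinates, is equivalent to the case of the products of at most
`c` hyperplanes through the origin with coefficients one. -/
theorem level_iff (c : ℕ) : (∀ e ≤ c, ∀ N : ℕ, ZP (PS F e N)) ↔
    ∀ (r : ℕ) (κ : Type) [Finite κ] (V : Set (κ → Fˣ)), ZClosed V →
      (∀ x ∈ V, ∃ s : Finset κ, s.card = r ∧ AlgebraicIndependent ℚ (fun i : s => (x i : F))) →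
      dm (Set.univ : Set (κ → Fˣ)) ≤ dm V + ((r + c : ℕ) : WithBot ℕ∞) → ZP V := by
  constructor
  · intro h r κ _ V hV hr hdim
    have := Fintype.ofFinite κ
    refine zp_generic c r ?_ hV hr hdim
    intro W hW e he
    exact finite_maxE_alg e (fun n f => finite_maxE_zlZ e
      (fun N => finite_PS_of_zp' (h e he N)) f) hW
  · intro h e he N
    by_cases hne : (PS F e N).Nonempty
    · refine h 0 _ (PS F e N) (zclosed_PS e N) ?_ ?_
      · intro x _
        refine ⟨∅, rfl, ?_⟩
        rw [algebraicIndependent_iff]
        intro p hp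
        rw [eq_C_of_isEmpty p, aeval_C, map_eq_zero_iff _ (algebraMap ℚ F).injective] at hp
        rw [eq_C_of_isEmpty p, hp, map_zero]
      · rw [dm_univ, Fintype.card_prod, Fintype.card_fin, Fintype.card_fin]
        rcases Nat.lt_or_ge N 2 with hN | hN
        · obtain ⟨d, hd, _⟩ := exists_dm hne
          rw [hd]
          have h1 : e * N ≤ d + (0 + c) := by
            have : e * N ≤ e * 1 := Nat.mul_le_mul_left e (by omega)
            omega
          exact_mod_cast h1
        · rw [dm_PS e N hN]
          have h1 : e * N ≤ (e * N - e) + (0 + c) := by omega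
          exact_mod_cast h1
    · rw [Set.not_nonempty_iff_eq_empty] at hne
      rw [hne]
      exact zp_empty

end Level

end Pool.Agent.MP_dd1803_nt
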